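import Mathlib

/-!
# The good part of an integer
-/

set_option autoImplicit false

namespace Pool.Agent.H79.FC

/-- The largest divisor of `x` composed of primes `p` with `gcd (N, p (p - 1)) = 1`. -/
def goodPart (N x : ℕ) : ℕ :=
  ∏ p ∈ x.primeFactors with Nat.Coprime N (p * (p - 1)), p ^ x.factorization p

end Pool.Agent.H79.FC
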