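import Mathlib

/-!
# Definitions for the theorems on the Fermat-Catalan equation with two exponents divisible by an odd
prime
-/

set_option autoImplicit false

namespace Pool.Agent.H79.FC

/-- The largest divisor of `x` composed of primes `p` with `gcd (N, p (p - 1)) > 1`. -/
def badPart (N x : ℕ) : ℕ :=
  ∏ p ∈ x.primeFactors with ¬ Nat.Coprime N (p * (p - 1)), p ^ x.factorization p

/-- the exponent of the theorem -/
noncomputable def expo (N : ℕ) : ℝ := if N = 3 then 1 / 9 else 1 / 2 - 1 / N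

/-- `(a, b, c, m, n, k)` is a solution: `a ^ m + b ^ n = c ^ k` with pairwise coprime positive
`a, b, c` and positive exponents with `1 / m + 1 / n + 1 / k < 1`. -/
def IsSolution (a b c m n k : ℕ) : Prop :=
  0 < a ∧ 0 < b ∧ 0 < c ∧ 0 < m ∧ 0 < n ∧ 0 < k ∧
    Nat.Coprime a b ∧ Nat.Coprime a c ∧ Nat.Coprime b c ∧
    (1 : ℚ) / m + 1 / n + 1 / k < 1 ∧ a ^ m + b ^ n = c ^ k

/-- The three (base, exponent) pairs `(a, m)`, `(b, n)`, `(c, k)` are `(x, e)`, `(y, f)`, `(z, h)` in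
some order; the odd prime `g` divides the exponents `e` of `x` and `h` of `z`, but not the base `y`;
and `N ≥ 3` is an odd divisor of the exponent `f` of `y`, prime to `g`. -/
def Roles (a b c m n k x e y f z h g N : ℕ) : Prop :=
  ({(x, e), (y, f), (z, h)} : Multiset (ℕ × ℕ)) = {(a, m), (b, n), (c, k)} ∧
    g.Prime ∧ g ≠ 2 ∧ g ∣ e ∧ g ∣ h ∧ ¬ g ∣ y ∧ N ∣ f ∧ Odd N ∧ 3 ≤ N ∧ ¬ g ∣ N

end Pool.Agent.H79.FC
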