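import Mathlib
import Pool.Graph.R_pool_sql_team_seeded_1acbe0a2.Y411.UF.Pade

/-!
# Padé approximants of `(1 + n² X) ^ (a / n)`

The case `a = 1` is in `Pool.Agent.Y411.UF.Pade`, from which the coefficients `PC n m a k` are taken.
-/

set_option autoImplicit false

namespace Pool.Agent.H79.FC

open Finset
open Pool.Agent.Y411.UF (beta beta_zero beta_succ beta_spec coeff_lin PC PC_zero PC_rec PC_eq_zero
  L coeff_L PS coeff_PS L_PS)

section ser

open PowerSeries

/-- the series `(1 + n² X) ^ (a / n)` -/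
noncomputable def SS (n : ℕ) (a : ℤ) : PowerSeries ℤ := PowerSeries.mk (beta n a)

theorem coeff_SS (n : ℕ) (a : ℤ) (k : ℕ) : coeff k (SS n a) = beta n a k := by rw [SS, coeff_mk]

/-- the differential equation -/
theorem SS_ode (n : ℕ) (a : ℤ) :
    (1 + C ((n : ℤ) ^ 2) * X) * derivative ℤ (SS n a) = C ((n : ℤ) * a) * SS n a := by
  ext k
  rw [add_mul, one_mul, map_add, coeff_derivative, mul_assoc, coeff_C_mul, coeff_C_mul, coeff_SS,
    coeff_SS]
  have h := beta_succ n a k
  rcases k with _ | k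
  · rw [coeff_zero_X_mul]
    push_cast at h ⊢
    linear_combination h
  · rw [coeff_succ_X_mul, coeff_derivative, coeff_SS]
    push_cast at h ⊢
    linear_combination h

/-- uniqueness of the solution of the differential equation -/
theorem ode_unique {c d : ℤ} {U V : PowerSeries ℤ}
    (hU : (1 + C c * X) * derivative ℤ U = C d * U) (hV : (1 + C c * X) * derivative ℤ V = C d * V)
    (h0 : coeff 0 U = coeff 0 V) : U = V := by
  have hrec : ∀ (W : PowerSeries ℤ), (1 + C c * X) * derivative ℤ W = C d * W → ∀ k : ℕ,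
      ((k : ℤ) + 1) * coeff (k + 1) W = (d - c * k) * coeff k W := by
    intro W hW k
    have h := congrArg (coeff k) hW
    rw [add_mul, one_mul, map_add, coeff_derivative, mul_assoc, coeff_C_mul, coeff_C_mul] at h
    rcases k with _ | k
    · rw [coeff_zero_X_mul] at h
      push_cast at h ⊢
      linear_combination h
    · rw [coeff_succ_X_mul, coeff_derivative] at h
      push_cast at h ⊢
      linear_combination h
  ext k
  induction k with
  | zero => exact h0
  | succ k ih =>
    have h1 := hrec U hU k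
    have h2 := hrec V hV k
    rw [ih] at h1
    have h3 : ((k : ℤ) + 1) ≠ 0 := by positivity
    exact mul_left_cancel₀ h3 (h1.trans h2.symm)

/-- `(1 + n² X) ^ (r / n)` to the power `n` -/
theorem SS_pow {n : ℕ} (hn : 0 < n) (r : ℕ) :
    SS n r ^ n = (1 + C ((n : ℤ) ^ 2) * X) ^ r := by
  have hd1 : derivative ℤ (1 + C ((n : ℤ) ^ 2) * X : PowerSeries ℤ) = C ((n : ℤ) ^ 2) := by
    ext k
    rw [coeff_derivative, coeff_lin, coeff_C]
    rcases k with _ | k <;> simp
  apply ode_unique (c := (n : ℤ) ^ 2) (d := (n : ℤ) ^ 2 * r)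
  · rw [derivative_pow]
    obtain ⟨p, rfl⟩ : ∃ p, n = p + 1 := ⟨n - 1, by omega⟩
    rw [Nat.add_sub_cancel]
    have h := SS_ode (p + 1) (r : ℤ)
    have e : (((p + 1 : ℕ)) : PowerSeries ℤ) = C (((p + 1 : ℕ) : ℤ)) := by simp
    rw [e, map_mul, map_pow]
    rw [map_mul, map_pow] at h
    rw [pow_succ (SS (p + 1) r) p]
    linear_combination (C (((p + 1 : ℕ) : ℤ)) * SS (p + 1) r ^ p) * h
  · rcases Nat.eq_zero_or_pos r with h | h
    · subst h
      simp
    · obtain ⟨s, rfl⟩ : ∃ s, r = s + 1 := ⟨r - 1, by omega⟩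
      rw [derivative_pow, Nat.add_sub_cancel, hd1, map_mul]
      have e : (((s + 1 : ℕ)) : PowerSeries ℤ) = C (((s + 1 : ℕ) : ℤ)) := by simp
      rw [e, pow_succ (1 + C ((n : ℤ) ^ 2) * X : PowerSeries ℤ) s]
      ring
  · rw [coeff_zero_eq_constantCoeff, map_pow, map_pow, ← coeff_zero_eq_constantCoeff, coeff_SS,
      beta_zero, coeff_lin]
    simp

/-- multiplication by the series -/
theorem L_SS_mul (n m : ℕ) (a : ℤ) (v : PowerSeries ℤ) :
    (1 + C (n : ℤ) ^ 2 * X) * L n m a (SS n a * v) =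
      SS n a * ((1 + C (n : ℤ) ^ 2 * X) * L n m (-a) v) := by
  have h1 : (1 + C (n : ℤ) ^ 2 * X) * derivative ℤ (SS n a) = C (n : ℤ) * C a * SS n a := by
    have := SS_ode n a
    rwa [map_pow, map_mul] at this
  have h2 : (1 + C (n : ℤ) ^ 2 * X) * derivative ℤ (derivative ℤ (SS n a)) =
      (C (n : ℤ) * C a - C (n : ℤ) ^ 2) * derivative ℤ (SS n a) := by
    have h3 := congrArg (derivative ℤ) h1
    rw [Derivation.leibniz, Derivation.leibniz] at h3
    have h4 : derivative ℤ (1 + C (n : ℤ) ^ 2 * X : PowerSeries ℤ) = C (n : ℤ) ^ 2 := by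
      rw [← map_pow]
      ext k
      rw [coeff_derivative, coeff_lin, coeff_C]
      rcases k with _ | k <;> simp
    have h5 : derivative ℤ (C (n : ℤ) * C a : PowerSeries ℤ) = 0 := by
      rw [← map_mul]
      ext k
      rw [coeff_derivative, coeff_C]
      simp
    rw [h4, h5] at h3
    simp only [smul_eq_mul] at h3
    linear_combination h3
  have hd1 : derivative ℤ (SS n a * v) = SS n a * derivative ℤ v + v * derivative ℤ (SS n a) := by
    rw [Derivation.leibniz]; simp only [smul_eq_mul]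
  have hd2 : derivative ℤ (derivative ℤ (SS n a * v)) = SS n a * derivative ℤ (derivative ℤ v) +
      2 * (derivative ℤ v * derivative ℤ (SS n a)) + v * derivative ℤ (derivative ℤ (SS n a)) := by
    rw [hd1, map_add, Derivation.leibniz, Derivation.leibniz]; simp only [smul_eq_mul]; ring
  rw [L, L, hd2, hd1]
  set s0 := SS n a
  set s1 := derivative ℤ s0
  set s2 := derivative ℤ s1
  set v1 := derivative ℤ v
  set v2 := derivative ℤ v1
  have hneg : (C (-a) : PowerSeries ℤ) = -C a := by rw [map_neg]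
  rw [hneg]
  set κ := (C (n : ℤ) : PowerSeries ℤ)
  set ρ := (C (m : ℤ) : PowerSeries ℤ)
  set α := (C a : PowerSeries ℤ)
  linear_combination (X * (1 + κ ^ 2 * X) * v) * h2 +
    (X * (κ * α - κ ^ 2) * v + 2 * X * (1 + κ ^ 2 * X) * v1 -
      (2 * ρ + κ * (2 * κ * ρ + α - κ) * X) * v) * h1

/-- **Padé approximation** -/
theorem pade {n m : ℕ} (hm : 1 ≤ m) (a : ℤ) {k : ℕ} (hk : k ≤ 2 * m) :
    coeff k (SS n a * PS n m (-a)) = PC n m a k := by
  have hL : L n m a (SS n a * PS n m (-a)) = 0 := by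
    have h := L_SS_mul n m a (PS n m (-a))
    rw [L_PS hm, mul_zero, mul_zero] at h
    rcases mul_eq_zero.1 h with h1 | h1
    · exfalso
      have h2 := congrArg (coeff 0) h1
      rw [← map_pow, coeff_lin] at h2
      simp at h2
    · exact h1
  have hrec : ∀ k : ℕ, ((k : ℤ) + 1) * (2 * m - k) * coeff (k + 1) (SS n a * PS n m (-a)) =
      n * (m - k) * (n * (m - k) + a) * coeff k (SS n a * PS n m (-a)) := by
    intro k
    have h := congrArg (coeff k) hL
    rw [coeff_L, map_zero] at h
    linear_combination -h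
  induction k with
  | zero =>
    rw [PC_zero, coeff_zero_eq_constantCoeff, map_mul, ← coeff_zero_eq_constantCoeff, coeff_SS,
      beta_zero, one_mul, coeff_PS, PC_zero]
  | succ k ih =>
    have h1 := ih (by omega)
    have h2 := hrec k
    have h3 := PC_rec (q := n) hm a k
    rw [h1] at h2
    have h4 : ((k : ℤ) + 1) * (2 * m - k) ≠ 0 := by
      apply mul_ne_zero <;> omega
    exact mul_left_cancel₀ h4 (h2.trans h3.symm)

end ser

open Polynomial

/-- the polynomials -/
noncomputable def pp (n m : ℕ) (a : ℤ) : ℤ[X] := ∑ k ∈ range (m + 1), C (PC n m a k) * X ^ k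

theorem pp_coeff (n m : ℕ) (a : ℤ) (k : ℕ) :
    (pp n m a).coeff k = if k ≤ m then PC n m a k else 0 := by
  rw [pp, finsetSum_coeff]
  simp only [coeff_C_mul, coeff_X_pow, mul_ite, mul_one, mul_zero]
  rw [Finset.sum_ite_eq]
  simp

theorem pp_natDegree (n m : ℕ) (a : ℤ) : (pp n m a).natDegree ≤ m := by
  rw [natDegree_le_iff_coeff_eq_zero]
  intro k hk
  rw [pp_coeff, if_neg (by omega)]

theorem pp_eq_PS {n m : ℕ} (hm : 1 ≤ m) (a : ℤ) : (pp n m a : PowerSeries ℤ) = PS n m a := by
  ext k
  rw [Polynomial.coeff_coe, pp_coeff, coeff_PS]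
  split_ifs with h
  · rfl
  · rw [PC_eq_zero a hm (by omega)]

/-- the approximation property -/
theorem pp_pade (n m : ℕ) (a : ℤ) {k : ℕ} (hk : k ≤ 2 * m) :
    PowerSeries.coeff k (SS n a * (pp n m (-a) : PowerSeries ℤ)) = (pp n m a).coeff k := by
  rcases Nat.eq_zero_or_pos m with h | h
  · subst h
    have hk0 : k = 0 := by omega
    subst hk0
    rw [PowerSeries.coeff_zero_eq_constantCoeff, map_mul, ← PowerSeries.coeff_zero_eq_constantCoeff,
      coeff_SS, beta_zero, Polynomial.coeff_coe, pp_coeff, pp_coeff, if_pos le_rfl, if_pos le_rfl,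
      PC_zero, PC_zero, one_mul]
  · rw [pp_eq_PS h, pade h a hk, pp_coeff]
    split_ifs with h1
    · rfl
    · exact PC_eq_zero a h (by omega)

theorem PC_top (n m : ℕ) (a : ℤ) : PC n m a m = beta n (m * n + a) m := by
  rw [PC]
  have : 2 * m - m = m := by omega
  rw [this, Nat.choose_self]
  simp

theorem beta_top (n m : ℕ) (a : ℤ) :
    ((m : ℤ) + 1) * beta n ((m + 1 : ℕ) * n + a) (m + 1) =
      n * ((m + 1 : ℕ) * n + a) * beta n (m * n + a) m := by
  have h1 := beta_spec n ((m + 1 : ℕ) * n + a) (m + 1)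
  have h2 := beta_spec n (m * n + a) m
  rw [prod_range_succ', pow_succ, Nat.factorial_succ] at h1
  have h3 : ∏ k ∈ range m, (((m + 1 : ℕ) : ℤ) * n + a - ((k + 1 : ℕ) : ℤ) * n) =
      ∏ k ∈ range m, ((m : ℤ) * n + a - k * n) := by
    apply prod_congr rfl
    intro k _
    push_cast
    ring
  rw [h3] at h1
  have h4 : (m.factorial : ℤ) ≠ 0 := by exact_mod_cast Nat.factorial_ne_zero m
  apply mul_left_cancel₀ h4
  push_cast at h1 h2 ⊢
  linear_combination h1 - (n * (((m : ℤ) + 1) * n + a)) * h2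

/-- two consecutive approximations are independent -/
theorem pp_det (n m : ℕ) (a : ℤ) :
    ∃ c : ℤ, pp n m a * pp n (m + 1) (-a) - pp n (m + 1) a * pp n m (-a) = C c * X ^ (2 * m + 1) ∧
      ((m : ℤ) + 1) * c = -2 * a * n * (beta n (m * n + a) m * beta n (m * n + -a) m) := by
  set Q : ℤ[X] := pp n m a * pp n (m + 1) (-a) - pp n (m + 1) a * pp n m (-a) with hQ
  have hlow : ∀ k, k < 2 * m + 1 → Q.coeff k = 0 := by
    have h1 : (PowerSeries.X : PowerSeries ℤ) ^ (2 * m + 1) ∣
        SS n a * (pp n m (-a) : PowerSeries ℤ) - (pp n m a : PowerSeries ℤ) := by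
      rw [PowerSeries.X_pow_dvd_iff]
      intro k hk
      rw [map_sub, pp_pade n m a (by omega), Polynomial.coeff_coe, sub_self]
    have h2 : (PowerSeries.X : PowerSeries ℤ) ^ (2 * m + 1) ∣
        SS n a * (pp n (m + 1) (-a) : PowerSeries ℤ) - (pp n (m + 1) a : PowerSeries ℤ) := by
      rw [PowerSeries.X_pow_dvd_iff]
      intro k hk
      rw [map_sub, pp_pade n (m + 1) a (by omega), Polynomial.coeff_coe, sub_self]
    have h3 : (PowerSeries.X : PowerSeries ℤ) ^ (2 * m + 1) ∣ (Q : PowerSeries ℤ) := by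
      have e : (Q : PowerSeries ℤ) =
          (SS n a * (pp n (m + 1) (-a) : PowerSeries ℤ) - (pp n (m + 1) a : PowerSeries ℤ)) *
            (pp n m (-a) : PowerSeries ℤ) -
          (SS n a * (pp n m (-a) : PowerSeries ℤ) - (pp n m a : PowerSeries ℤ)) *
            (pp n (m + 1) (-a) : PowerSeries ℤ) := by
        rw [hQ]
        push_cast
        ring
      rw [e]
      exact dvd_sub (dvd_mul_of_dvd_left h2 _) (dvd_mul_of_dvd_left h1 _)
    intro k hk
    have h4 := (PowerSeries.X_pow_dvd_iff.1 h3) k hk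
    rwa [Polynomial.coeff_coe] at h4
  have hdeg : Q.natDegree ≤ 2 * m + 1 := by
    rw [hQ]
    refine (natDegree_sub_le _ _).trans (max_le ?_ ?_)
    · refine natDegree_mul_le.trans ?_
      have := pp_natDegree n m a
      have := pp_natDegree n (m + 1) (-a)
      omega
    · refine natDegree_mul_le.trans ?_
      have := pp_natDegree n (m + 1) a
      have := pp_natDegree n m (-a)
      omega
  refine ⟨Q.coeff (2 * m + 1), ?_, ?_⟩
  · ext k
    rw [coeff_C_mul, coeff_X_pow]
    split_ifs with h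
    · rw [h, mul_one]
    · rw [mul_zero]
      rcases Nat.lt_or_ge k (2 * m + 1) with h1 | h1
      · exact hlow k h1
      · exact coeff_eq_zero_of_natDegree_lt (by omega)
  · have h1 : (pp n m a * pp n (m + 1) (-a)).coeff (m + (m + 1)) =
        (pp n m a).coeff m * (pp n (m + 1) (-a)).coeff (m + 1) :=
      coeff_mul_add_eq_of_natDegree_le (pp_natDegree _ _ _) (pp_natDegree _ _ _)
    have h2 : (pp n (m + 1) a * pp n m (-a)).coeff ((m + 1) + m) =
        (pp n (m + 1) a).coeff (m + 1) * (pp n m (-a)).coeff m :=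
      coeff_mul_add_eq_of_natDegree_le (pp_natDegree _ _ _) (pp_natDegree _ _ _)
    have e1 : m + (m + 1) = 2 * m + 1 := by ring
    have e2 : (m + 1) + m = 2 * m + 1 := by ring
    rw [e1] at h1
    rw [e2] at h2
    rw [hQ, coeff_sub, h1, h2]
    simp only [pp_coeff, le_refl, if_true, PC_top]
    have h3 := beta_top n m a
    have h4 := beta_top n m (-a)
    push_cast at h3 h4 ⊢
    linear_combination (beta n (m * n + a) m) * h4 - (beta n (m * n + -a) m) * h3

end Pool.Agent.H79.FC
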