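import Mathlib
import Pool.Agent.H79.FC.Pade

/-!
# Evaluation of power series at nilpotent elements, and the divisibility of the linear forms
-/

set_option autoImplicit false

namespace Pool.Agent.H79.FC

open Finset Polynomial
open Pool.Agent.Y411.UF (beta beta_zero PC)

section ev

variable {R : Type*} [CommRing R]

theorem aeval_eq_of_coeff {w : R} {K : ℕ} (hw : w ^ K = 0) {p q : ℤ[X]}
    (h : ∀ k < K, p.coeff k = q.coeff k) : aeval w p = aeval w q := by
  have h1 : X ^ K ∣ p - q := by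
    rw [X_pow_dvd_iff]
    intro k hk
    rw [coeff_sub, h k hk, sub_self]
  obtain ⟨s, hs⟩ := h1
  rw [← sub_eq_zero, ← map_sub, hs, map_mul, map_pow, aeval_X, hw, zero_mul]

/-- the value of a power series at a nilpotent element -/
noncomputable def ev (K : ℕ) (w : R) (f : PowerSeries ℤ) : R := aeval w (PowerSeries.trunc K f)

theorem ev_congr {K : ℕ} (w : R) {f g : PowerSeries ℤ}
    (h : ∀ k < K, PowerSeries.coeff k f = PowerSeries.coeff k g) : ev K w f = ev K w g := by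
  have : PowerSeries.trunc K f = PowerSeries.trunc K g := by
    ext k
    rw [PowerSeries.coeff_trunc, PowerSeries.coeff_trunc]
    split_ifs with hk
    · exact h k hk
    · rfl
  rw [ev, ev, this]

theorem ev_coe {K : ℕ} {w : R} (hw : w ^ K = 0) (p : ℤ[X]) :
    ev K w (p : PowerSeries ℤ) = aeval w p := by
  rw [ev]
  apply aeval_eq_of_coeff hw
  intro k hk
  rw [PowerSeries.coeff_trunc, if_pos hk, Polynomial.coeff_coe]

theorem ev_mul {K : ℕ} {w : R} (hw : w ^ K = 0) (f g : PowerSeries ℤ) :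
    ev K w (f * g) = ev K w f * ev K w g := by
  rw [ev, ev, ev, ← map_mul]
  apply aeval_eq_of_coeff hw
  intro k hk
  rw [PowerSeries.coeff_trunc, if_pos hk, PowerSeries.coeff_mul, Polynomial.coeff_mul]
  apply Finset.sum_congr rfl
  intro x hx
  have h := Finset.HasAntidiagonal.mem_antidiagonal.1 hx
  rw [PowerSeries.coeff_trunc, PowerSeries.coeff_trunc, if_pos (by omega), if_pos (by omega)]

theorem ev_one {K : ℕ} {w : R} (hw : w ^ K = 0) : ev K w 1 = 1 := by
  have := ev_coe hw (1 : ℤ[X])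
  rw [Polynomial.coe_one, map_one] at this
  exact this

theorem ev_pow {K : ℕ} {w : R} (hw : w ^ K = 0) (f : PowerSeries ℤ) (n : ℕ) :
    ev K w (f ^ n) = ev K w f ^ n := by
  induction n with
  | zero => rw [pow_zero, pow_zero, ev_one hw]
  | succ n ih => rw [pow_succ, pow_succ, ev_mul hw, ih]

/-- the power of the value of the binomial series -/
theorem ev_SS_pow {K n : ℕ} {w : R} (hw : w ^ K = 0) (hn : 0 < n) (r : ℕ) :
    ev K w (SS n r) ^ n = (1 + (n : R) ^ 2 * w) ^ r := by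
  rw [← ev_pow hw, SS_pow hn]
  have : ((1 + PowerSeries.C ((n : ℤ) ^ 2) * PowerSeries.X : PowerSeries ℤ)) =
      ((1 + C ((n : ℤ) ^ 2) * X : ℤ[X]) : PowerSeries ℤ) := by
    rw [Polynomial.coe_add, Polynomial.coe_one, Polynomial.coe_mul, Polynomial.coe_C,
      Polynomial.coe_X]
  have h2 : (algebraMap ℤ R) ((n : ℤ) ^ 2) = (n : R) ^ 2 := by
    rw [map_pow, algebraMap_int_eq, eq_intCast, Int.cast_natCast]
  rw [this, ← Polynomial.coe_pow, ev_coe hw, map_pow, map_add, map_one, map_mul, aeval_X, aeval_C,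
    h2]

theorem ev_pade {K n m : ℕ} {w : R} (hw : w ^ K = 0) (hK : K ≤ 2 * m + 1) (a : ℤ) :
    ev K w (SS n a) * aeval w (pp n m (-a)) = aeval w (pp n m a) := by
  rw [← ev_coe hw, ← ev_coe hw, ← ev_mul hw]
  apply ev_congr
  intro k hk
  rw [pp_pade n m a (by omega), Polynomial.coeff_coe]

end ev

/-- the homogeneous forms -/
def BB (n j : ℕ) (a X W : ℤ) : ℤ := ∑ k ∈ range (j + 1), PC n j a k * (X ^ k * W ^ (j - k))

theorem BB_cast {R : Type*} [CommRing R] (n j : ℕ) (a X W : ℤ) (w : R)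
    (hw : w * (W : R) = (X : R)) : ((BB n j a X W : ℤ) : R) = (W : R) ^ j * aeval w (pp n j a) := by
  rw [BB, pp, map_sum, Finset.mul_sum, Int.cast_sum]
  apply Finset.sum_congr rfl
  intro k hk
  have hk' : k ≤ j := by
    have := Finset.mem_range.1 hk
    omega
  rw [map_mul, map_pow, aeval_X, aeval_C]
  push_cast
  rw [← hw, mul_pow]
  have e : (W : R) ^ j = (W : R) ^ k * (W : R) ^ (j - k) := by
    rw [← pow_add]
    congr 1
    omega
  rw [e]
  simp only [algebraMap_int_eq, eq_intCast]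
  ring

theorem isUnit_int {a : ℤ} {N : ℕ} (h : IsCoprime a (N : ℤ)) : IsUnit (a : ZMod N) := by
  obtain ⟨x, y, hxy⟩ := h
  have h1 := congrArg (Int.cast : ℤ → ZMod N) hxy
  push_cast at h1
  rw [ZMod.natCast_self, mul_zero, add_zero] at h1
  exact IsUnit.of_mul_eq_one_right _ h1

theorem eq_of_pow_eq {N n : ℕ} [NeZero N] (h : Nat.Coprime n (Nat.totient N)) {a b : ZMod N}
    (ha : IsUnit a) (hb : IsUnit b) (hab : a ^ n = b ^ n) : a = b := by
  obtain ⟨a, rfl⟩ := ha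
  obtain ⟨b, rfl⟩ := hb
  have h1 : a ^ n = b ^ n := by
    apply Units.ext
    push_cast
    exact hab
  have h2 : (Nat.card (ZMod N)ˣ).Coprime n := by
    rw [Nat.card_eq_fintype_card, ZMod.card_units_eq_totient]
    exact h.symm
  have h3 : a = b := (powCoprime h2).injective (by simpa using h1)
  rw [h3]

theorem coprime_totient {n M : ℕ} (hM : M ≠ 0)
    (hgood : ∀ p : ℕ, p.Prime → p ∣ M → Nat.Coprime n (p * (p - 1))) (K : ℕ) :
    Nat.Coprime n (Nat.totient (M ^ K)) := by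
  rw [Nat.totient_eq_prod_factorization (pow_ne_zero K hM), Finsupp.prod]
  apply Nat.Coprime.prod_right
  intro p hp
  have hp' : p ∈ (M ^ K).primeFactors := by rwa [Nat.support_factorization] at hp
  have hpp := Nat.prime_of_mem_primeFactors hp'
  have hpM : p ∣ M := hpp.dvd_of_dvd_pow (Nat.dvd_of_mem_primeFactors hp')
  have h1 := hgood p hpp hpM
  rw [Nat.coprime_mul_iff_right] at h1
  exact Nat.Coprime.mul_right (Nat.Coprime.pow_right _ h1.1) h1.2

theorem coprime_of_good {n M : ℕ}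
    (hgood : ∀ p : ℕ, p.Prime → p ∣ M → Nat.Coprime n (p * (p - 1))) : Nat.Coprime n M := by
  by_contra hne
  obtain ⟨p, hp, hpn, hpM⟩ := Nat.Prime.not_coprime_iff_dvd.1 hne
  have h1 := hgood p hp hpM
  rw [Nat.coprime_mul_iff_right] at h1
  have h2 := h1.1
  have h3 := Nat.dvd_gcd hpn dvd_rfl
  rw [h2] at h3
  exact hp.one_lt.ne' (Nat.dvd_one.1 h3)

/-- the values of the `n`-th root of `Z ^ g` modulo `M ^ K` -/
theorem root_congr {g n q r K M : ℕ} {X Z u y : ℤ} (hM : M ≠ 0) (hMX : (M : ℤ) ∣ X)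
    (hg : g = q * n + r) (hn : 0 < n) (heq : Z ^ g = X ^ g + y ^ n) (hD : Z = X + u ^ n)
    (hcop : IsCoprime X Z)
    (hgood : ∀ p : ℕ, p.Prime → p ∣ M → Nat.Coprime n (p * (p - 1))) (hK : K ≤ g) (hK0 : 0 < K) :
    ∃ w : ZMod (M ^ K), w ^ K = 0 ∧ w * ((((n : ℤ) ^ 2 * u ^ n : ℤ)) : ZMod (M ^ K)) = (X : ZMod (M ^ K)) ∧
      (y : ZMod (M ^ K)) = ev K w (SS n r) * ((u : ZMod (M ^ K)) ^ r * (Z : ZMod (M ^ K)) ^ q) := by
  have : NeZero (M ^ K) := ⟨pow_ne_zero K hM⟩
  have hcopM : ∀ a : ℤ, IsCoprime X a → IsUnit (a : ZMod (M ^ K)) := by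
    intro a ha
    apply isUnit_int
    push_cast
    exact (IsCoprime.pow_left (ha.of_isCoprime_of_dvd_left hMX)).symm
  have huX : IsCoprime X (u ^ n) := by
    have h1 : IsCoprime X (X * 1 + u ^ n) := by rw [mul_one, ← hD]; exact hcop
    exact IsCoprime.of_mul_add_left_right (by rwa [add_comm] at h1)
  have hu : IsUnit ((u ^ n : ℤ) : ZMod (M ^ K)) := hcopM _ huX
  have hu1 : IsUnit (u : ZMod (M ^ K)) := by
    apply hcopM
    exact (IsCoprime.pow_right_iff hn).1 huX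
  have hZ : IsUnit (Z : ZMod (M ^ K)) := hcopM _ hcop
  have hyX : IsCoprime X (y ^ n) := by
    have h1 : IsCoprime X (Z ^ g) := hcop.pow_right
    rw [heq] at h1
    have e : X ^ g + y ^ n = X * X ^ (g - 1) + y ^ n := by
      rw [← pow_succ', Nat.sub_add_cancel (by omega)]
    rw [e] at h1
    exact IsCoprime.of_mul_add_left_right (by rwa [add_comm] at h1)
  have hy : IsUnit (y : ZMod (M ^ K)) := hcopM _ ((IsCoprime.pow_right_iff hn).1 hyX)
  have hnU : IsUnit (((n : ℤ)) : ZMod (M ^ K)) := by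
    apply isUnit_int
    have := coprime_of_good hgood
    rw [Nat.isCoprime_iff_coprime]
    exact this.pow_right K
  have hXK : (X : ZMod (M ^ K)) ^ K = 0 := by
    have h1 : ((M ^ K : ℕ) : ℤ) ∣ X ^ K := by
      push_cast
      exact pow_dvd_pow_of_dvd hMX K
    have h2 := (ZMod.intCast_zmod_eq_zero_iff_dvd (X ^ K) (M ^ K)).2 h1
    push_cast at h2
    exact h2
  obtain ⟨W, hW⟩ : IsUnit (((n : ℤ) ^ 2 * u ^ n : ℤ) : ZMod (M ^ K)) := by
    have h1 := (hnU.pow 2).mul (hu1.pow n)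
    push_cast at h1 ⊢
    exact h1
  refine ⟨(X : ZMod (M ^ K)) * (W⁻¹ : (ZMod (M ^ K))ˣ), ?_, ?_, ?_⟩
  · rw [mul_pow, hXK, zero_mul]
  · rw [← hW, mul_assoc, Units.inv_mul, mul_one]
  · set w : ZMod (M ^ K) := (X : ZMod (M ^ K)) * (W⁻¹ : (ZMod (M ^ K))ˣ) with hw
    have hwK : w ^ K = 0 := by rw [hw, mul_pow, hXK, zero_mul]
    have hwW : w * ((((n : ℤ) ^ 2 * u ^ n : ℤ)) : ZMod (M ^ K)) = (X : ZMod (M ^ K)) := by
      rw [← hW, hw, mul_assoc, Units.inv_mul, mul_one]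
    have hSn := ev_SS_pow (n := n) hwK hn r
    have hkey : (1 + (n : ZMod (M ^ K)) ^ 2 * w) * (u : ZMod (M ^ K)) ^ n = (Z : ZMod (M ^ K)) := by
      rw [hD]
      push_cast at hwW ⊢
      linear_combination hwW
    have hSU : IsUnit (ev K w (SS n r)) := by
      have h1 : IsUnit (ev K w (SS n r) ^ n) := by
        rw [hSn]
        apply IsUnit.pow
        rw [← hkey] at hZ
        exact isUnit_of_mul_isUnit_left hZ
      exact (isUnit_pow_iff (by omega)).1 h1
    apply eq_of_pow_eq (coprime_totient hM hgood K) hy (hSU.mul ((hu1.pow r).mul (hZ.pow q)))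
    rw [mul_pow, hSn, mul_pow, ← pow_mul, ← pow_mul]
    have h1 : (Z : ZMod (M ^ K)) ^ g = (y : ZMod (M ^ K)) ^ n := by
      have h2 := congrArg (Int.cast : ℤ → ZMod (M ^ K)) heq
      push_cast at h2
      rw [h2]
      have h3 : (X : ZMod (M ^ K)) ^ g = 0 := by
        obtain ⟨s, rfl⟩ := Nat.exists_eq_add_of_le hK
        rw [pow_add, hXK, zero_mul]
      rw [h3, zero_add]
    rw [← h1, hg, pow_add, mul_comm r n, pow_mul (u : ZMod (M ^ K)) n r, ← mul_assoc, ← mul_pow,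
      hkey, mul_comm]

/-- the divisibility of the linear forms -/
theorem dvd_main {g n q r j M : ℕ} {X Z u y : ℤ} (hM : M ≠ 0) (hMX : (M : ℤ) ∣ X)
    (hg : g = q * n + r) (hn : 0 < n) (heq : Z ^ g = X ^ g + y ^ n) (hD : Z = X + u ^ n)
    (hcop : IsCoprime X Z)
    (hgood : ∀ p : ℕ, p.Prime → p ∣ M → Nat.Coprime n (p * (p - 1))) (hj : 2 * j + 1 ≤ g) :
    (M : ℤ) ^ (2 * j + 1) ∣ BB n j (-r) X (n ^ 2 * u ^ n) * y -
      BB n j r X (n ^ 2 * u ^ n) * (u ^ r * Z ^ q) := by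
  obtain ⟨w, hwK, hwW, hy⟩ := root_congr (K := 2 * j + 1) hM hMX hg hn heq hD hcop hgood hj
    (by omega)
  have h1 : ((M ^ (2 * j + 1) : ℕ) : ℤ) = (M : ℤ) ^ (2 * j + 1) := by push_cast; rfl
  rw [← h1, ← ZMod.intCast_zmod_eq_zero_iff_dvd]
  have h2 := ev_pade (n := n) (m := j) hwK (by omega) (r : ℤ)
  have h3 := BB_cast (R := ZMod (M ^ (2 * j + 1))) n j (-r) X (n ^ 2 * u ^ n) w hwW
  have h4 := BB_cast (R := ZMod (M ^ (2 * j + 1))) n j r X (n ^ 2 * u ^ n) w hwW
  rw [Int.cast_sub, Int.cast_mul, Int.cast_mul, h3, h4, hy, ← h2]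
  push_cast
  ring

/-- the non-vanishing of one of two consecutive linear forms -/
theorem nonvanishing {n j : ℕ} {r : ℕ} {X W y Y : ℤ} (hn : 0 < n) (hr : 0 < r) (hrn : r < n)
    (hX : X ≠ 0) (hW : W ≠ 0) (hY : Y ≠ 0) (hy : y ≠ 0) :
    BB n j (-r) X W * y - BB n j r X W * Y ≠ 0 ∨
      BB n (j + 1) (-r) X W * y - BB n (j + 1) r X W * Y ≠ 0 := by
  by_contra hcon
  push Not at hcon
  obtain ⟨h1, h2⟩ := hcon
  obtain ⟨c, hc1, hc2⟩ := pp_det n j (r : ℤ)
  set w : ℚ := (X : ℚ) / (W : ℚ) with hw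
  have hWQ : (W : ℚ) ≠ 0 := by exact_mod_cast hW
  have hwW : w * (W : ℚ) = (X : ℚ) := by rw [hw, div_mul_cancel₀ _ hWQ]
  have e1 := BB_cast (R := ℚ) n j (-r) X W w hwW
  have e2 := BB_cast (R := ℚ) n j r X W w hwW
  have e3 := BB_cast (R := ℚ) n (j + 1) (-r) X W w hwW
  have e4 := BB_cast (R := ℚ) n (j + 1) r X W w hwW
  have e5 := congrArg (aeval w) hc1
  rw [map_sub, map_mul, map_mul, map_mul, map_pow, aeval_X, aeval_C] at e5
  -- the determinant vanishes
  have h3 : BB n j r X W * BB n (j + 1) (-r) X W - BB n (j + 1) r X W * BB n j (-r) X W = 0 := by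
    have h4 : (BB n j r X W * BB n (j + 1) (-r) X W - BB n (j + 1) r X W * BB n j (-r) X W) *
        (Y * y) = 0 := by
      linear_combination (-(BB n (j + 1) (-r) X W) * y) * h1 + (BB n j (-r) X W * y) * h2
    rcases mul_eq_zero.1 h4 with h5 | h5
    · exact h5
    · exact absurd h5 (mul_ne_zero hY hy)
  have h4 := congrArg (Int.cast : ℤ → ℚ) h3
  push_cast at h4
  rw [e1, e2, e3, e4] at h4
  have h5 : (W : ℚ) ^ j * (W : ℚ) ^ (j + 1) * ((algebraMap ℤ ℚ) c * w ^ (2 * j + 1)) = 0 := by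
    rw [← e5]
    linear_combination h4
  have hw0 : w ≠ 0 := by
    rw [hw]
    have : (X : ℚ) ≠ 0 := by exact_mod_cast hX
    exact div_ne_zero this hWQ
  have hc0 : c = 0 := by
    rcases mul_eq_zero.1 h5 with h6 | h6
    · exact absurd h6 (mul_ne_zero (pow_ne_zero _ hWQ) (pow_ne_zero _ hWQ))
    · rcases mul_eq_zero.1 h6 with h7 | h7
      · simpa using h7
      · exact absurd h7 (pow_ne_zero _ hw0)
  rw [hc0, mul_zero] at hc2
  -- the leading coefficients do not vanish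
  have hb : ∀ a : ℤ, (a = r ∨ a = -r) → beta n (j * n + a) j ≠ 0 := by
    intro a ha hzero
    have h6 := Pool.Agent.Y411.UF.beta_spec n (j * n + a) j
    rw [hzero, mul_zero] at h6
    have hn0 : (n : ℤ) ≠ 0 := by exact_mod_cast hn.ne'
    rcases mul_eq_zero.1 h6.symm with h7 | h7
    · exact absurd h7 (pow_ne_zero _ hn0)
    · rw [Finset.prod_eq_zero_iff] at h7
      obtain ⟨i, hi, hi0⟩ := h7
      have hi' : i + 1 ≤ j := Finset.mem_range.1 hi
      have h8 : (n : ℤ) ≤ (j : ℤ) * n - i * n := by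
        have h9 : ((i : ℤ) + 1) * n ≤ (j : ℤ) * n := by
          apply mul_le_mul_of_nonneg_right _ (by positivity)
          exact_mod_cast hi'
        linarith
      have hrn' : (r : ℤ) < n := by exact_mod_cast hrn
      have hr' : (0 : ℤ) < r := by exact_mod_cast hr
      rcases ha with rfl | rfl <;> linarith
  have h6 : (-2 * (r : ℤ) * n * (beta n (j * n + r) j * beta n (j * n + -r) j)) ≠ 0 := by
    have hn0 : (n : ℤ) ≠ 0 := by exact_mod_cast hn.ne'
    have hr0 : (r : ℤ) ≠ 0 := by exact_mod_cast hr.ne'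
    exact mul_ne_zero (mul_ne_zero (mul_ne_zero (by norm_num) hr0) hn0)
      (mul_ne_zero (hb _ (Or.inl rfl)) (hb _ (Or.inr rfl)))
  exact h6 hc2.symm

end Pool.Agent.H79.FC
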