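import Mathlib
import Pool.Agent.H79.FC.Div

/-!
# Bounds for the coefficients and for the remainder of the Padé approximation
-/

set_option autoImplicit false

namespace Pool.Agent.H79.FC

open Finset Polynomial
open Pool.Agent.Y411.UF (beta beta_zero beta_succ beta_spec PC)

theorem beta_bound {n j : ℕ} {a : ℤ} (ha : |a| < n) {k : ℕ} (hk : k ≤ j) :
    0 ≤ beta n (j * n + a) k ∧
      beta n (j * n + a) k ≤ (n : ℤ) ^ (2 * k) * (Nat.choose (j + 1) k : ℤ) := by
  have ha' := abs_lt.1 ha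
  induction k with
  | zero => rw [beta_zero]; simp
  | succ k ih =>
    obtain ⟨h1, h2⟩ := ih (by omega)
    have h3 := beta_succ n (j * n + a) k
    have hjk : (k : ℤ) + 1 ≤ j := by exact_mod_cast hk
    have h4 : ((k : ℤ) + 1) * n ≤ j * n := mul_le_mul_of_nonneg_right hjk (by positivity)
    have h5 : 0 ≤ (j : ℤ) * n + a - k * n := by linarith
    have h6 : (j : ℤ) * n + a - k * n ≤ (j + 1 - k) * n := by linarith
    have h7 := Nat.choose_succ_right_eq (j + 1) k
    have h8 : ((Nat.choose (j + 1) (k + 1) : ℕ) : ℤ) * (k + 1) =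
        (Nat.choose (j + 1) k : ℤ) * (j + 1 - k) := by
      have h9 : (((j + 1).choose (k + 1) * (k + 1) : ℕ) : ℤ) =
          (((j + 1).choose k * (j + 1 - k) : ℕ) : ℤ) := by rw [h7]
      rw [Nat.cast_mul, Nat.cast_mul, Nat.cast_sub (by omega)] at h9
      push_cast at h9
      linarith
    have hk0 : (0 : ℤ) < (k : ℤ) + 1 := by positivity
    constructor
    · have h10 : 0 ≤ ((k : ℤ) + 1) * beta n (j * n + a) (k + 1) := by
        rw [h3]
        positivity
      exact nonneg_of_mul_nonneg_right h10 hk0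
    · apply le_of_mul_le_mul_left _ hk0
      rw [h3]
      calc (n : ℤ) * (j * n + a - k * n) * beta n (j * n + a) k
          ≤ n * ((j + 1 - k) * n) * ((n : ℤ) ^ (2 * k) * (Nat.choose (j + 1) k : ℤ)) := by
            apply mul_le_mul _ h2 h1
            · apply mul_nonneg (by positivity)
              apply mul_nonneg _ (by positivity)
              linarith
            · apply mul_le_mul_of_nonneg_left h6 (by positivity)
        _ = (n : ℤ) ^ (2 * (k + 1)) * ((Nat.choose (j + 1) k : ℤ) * (j + 1 - k)) := by ring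
        _ = _ := by rw [← h8]; ring

theorem PC_bound {n j : ℕ} {a : ℤ} (ha : |a| < n) {k : ℕ} (hk : k ≤ j) :
    |PC n j a k| ≤ (n : ℤ) ^ (2 * k) * ((Nat.choose (j + 1) k : ℤ) * 4 ^ j) := by
  obtain ⟨h1, h2⟩ := beta_bound ha hk
  rw [PC, abs_mul, abs_of_nonneg h1, abs_of_nonneg (by positivity : (0 : ℤ) ≤ (Nat.choose _ _ : ℤ)),
    ← mul_assoc]
  have h3 : (Nat.choose (2 * j - k) j : ℤ) ≤ 4 ^ j := by
    have h4 : Nat.choose (2 * j - k) j ≤ Nat.choose (2 * j) j := Nat.choose_le_choose j (by omega)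
    have h5 : Nat.choose (2 * j) j ≤ 2 ^ (2 * j) := Nat.choose_le_two_pow (2 * j) j
    rw [pow_mul] at h5
    exact_mod_cast h4.trans h5
  exact mul_le_mul h2 h3 (by positivity) (by positivity)

theorem sum_choose_le (N K : ℕ) : ∑ l ∈ range K, Nat.choose N l ≤ 2 ^ N := by
  rw [← Nat.sum_range_choose]
  apply Finset.sum_le_sum_of_ne_zero
  intro l _ hl
  rw [Finset.mem_range]
  by_contra hcon
  exact hl (Nat.choose_eq_zero_of_lt (by omega))

/-- size of the forms -/
theorem BB_bound {n j : ℕ} {a X D T : ℤ} (ha : |a| < n) (hX : |X| ≤ T) (hD0 : 0 ≤ D) (hD : D ≤ T) :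
    |BB n j a X (n ^ 2 * D)| ≤ 2 * (8 * n ^ 2) ^ j * T ^ j := by
  have hT : 0 ≤ T := hD0.trans hD
  rw [BB]
  refine (Finset.abs_sum_le_sum_abs _ _).trans ?_
  have h1 : ∀ k ∈ range (j + 1), |PC n j a k * (X ^ k * (n ^ 2 * D) ^ (j - k))| ≤
      ((n : ℤ) ^ 2) ^ j * T ^ j * 4 ^ j * (Nat.choose (j + 1) k : ℤ) := by
    intro k hk
    have hk' : k ≤ j := by
      have := Finset.mem_range.1 hk
      omega
    rw [abs_mul, abs_mul, abs_pow, abs_pow, abs_of_nonneg (by positivity : 0 ≤ (n : ℤ) ^ 2 * D)]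
    calc |PC n j a k| * (|X| ^ k * ((n : ℤ) ^ 2 * D) ^ (j - k))
        ≤ (n : ℤ) ^ (2 * k) * ((Nat.choose (j + 1) k : ℤ) * 4 ^ j) *
          (T ^ k * ((n : ℤ) ^ 2 * T) ^ (j - k)) := by
          apply mul_le_mul (PC_bound ha hk') _ (by positivity) (by positivity)
          apply mul_le_mul _ _ (by positivity) (by positivity)
          · exact pow_le_pow_left₀ (abs_nonneg _) hX k
          · apply pow_le_pow_left₀ (by positivity)
            exact mul_le_mul_of_nonneg_left hD (by positivity)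
      _ = ((n : ℤ) ^ 2) ^ (k + (j - k)) * T ^ (k + (j - k)) * 4 ^ j *
          (Nat.choose (j + 1) k : ℤ) := by
          rw [mul_pow, pow_mul, pow_add, pow_add]
          ring
      _ = _ := by
          have : k + (j - k) = j := by omega
          rw [this]
  refine (Finset.sum_le_sum h1).trans ?_
  rw [← Finset.mul_sum]
  have h2 : (∑ k ∈ range (j + 1), (Nat.choose (j + 1) k : ℤ)) ≤ 2 ^ (j + 1) := by
    exact_mod_cast sum_choose_le (j + 1) (j + 1)
  calc ((n : ℤ) ^ 2) ^ j * T ^ j * 4 ^ j * ∑ k ∈ range (j + 1), (Nat.choose (j + 1) k : ℤ)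
      ≤ ((n : ℤ) ^ 2) ^ j * T ^ j * 4 ^ j * 2 ^ (j + 1) :=
        mul_le_mul_of_nonneg_left h2 (by positivity)
    _ = 2 * (8 * (n : ℤ) ^ 2) ^ j * T ^ j := by
        have : (8 : ℤ) = 4 * 2 := by norm_num
        rw [this, mul_pow, mul_pow, pow_succ]
        ring

theorem abs_beta_le {n r : ℕ} (hrn : r < n) (k : ℕ) : |beta n r k| ≤ (n : ℤ) ^ (2 * k) := by
  induction k with
  | zero => rw [beta_zero]; simp
  | succ k ih =>
    have h3 := congrArg abs (beta_succ n r k)
    rw [abs_mul, abs_mul, abs_mul, abs_of_nonneg (by positivity : (0 : ℤ) ≤ (k : ℤ) + 1),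
      abs_of_nonneg (by positivity : (0 : ℤ) ≤ (n : ℤ))] at h3
    have hk0 : (0 : ℤ) < (k : ℤ) + 1 := by positivity
    apply le_of_mul_le_mul_left _ hk0
    rw [h3]
    have hrn' : (r : ℤ) < n := by exact_mod_cast hrn
    have hr0 : (0 : ℤ) ≤ r := by positivity
    have hkn : (0 : ℤ) ≤ (k : ℤ) * n := by positivity
    have h4 : |(r : ℤ) - k * n| ≤ (k + 1) * n := by
      rw [abs_le]
      constructor <;> nlinarith
    calc (n : ℤ) * |(r : ℤ) - k * n| * |beta n r k|
        ≤ n * ((k + 1) * n) * (n : ℤ) ^ (2 * k) := by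
          apply mul_le_mul _ ih (abs_nonneg _) (by positivity)
          exact mul_le_mul_of_nonneg_left h4 (by positivity)
      _ = _ := by ring

theorem smeval_prod (x : ℝ) (k : ℕ) :
    (descPochhammer ℤ k).smeval x = ∏ i ∈ range k, (x - i) := by
  induction k with
  | zero => rw [descPochhammer_zero, smeval_one]; simp
  | succ k ih =>
    rw [descPochhammer_succ_right, smeval_mul, ih, prod_range_succ, smeval_sub, smeval_X,
      smeval_natCast]
    simp

theorem beta_eq {n r : ℕ} (hn : 0 < n) (k : ℕ) (t : ℝ) :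
    (beta n r k : ℝ) * (t / (n : ℝ) ^ 2) ^ k =
      (binomialSeries ℝ ((r : ℝ) / (n : ℝ)) k) fun _ => t := by
  rw [binomialSeries_apply]
  have hn0 : (n : ℝ) ≠ 0 := by positivity
  have h1 := Ring.descPochhammer_eq_factorial_smul_choose ((r : ℝ) / (n : ℝ)) k
  rw [smeval_prod, nsmul_eq_mul] at h1
  have h2 := congrArg (Int.cast : ℤ → ℝ) (beta_spec n r k)
  push_cast at h2
  have h3 : ∏ i ∈ range k, ((r : ℝ) - i * n) = (n : ℝ) ^ k * ∏ i ∈ range k, ((r : ℝ) / n - i) := by
    have : (n : ℝ) ^ k = ∏ _i ∈ range k, (n : ℝ) := by rw [prod_const, card_range]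
    rw [this, ← Finset.prod_mul_distrib]
    apply Finset.prod_congr rfl
    intro i _
    field_simp
  rw [h3, h1] at h2
  have h4 : (k.factorial : ℝ) ≠ 0 := by positivity
  have h5 : (beta n r k : ℝ) = (n : ℝ) ^ (2 * k) * Ring.choose ((r : ℝ) / n) k := by
    apply mul_left_cancel₀ h4
    rw [h2]
    ring
  have h6 : (List.ofFn fun _ : Fin k => t).prod = t ^ k := by simp
  rw [h5, h6, smul_eq_mul, div_pow, ← pow_mul]
  field_simp

/-- the binomial series -/
theorem hasSum_beta {n r : ℕ} (hn : 0 < n) {t : ℝ} (ht : |t| < 1) :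
    HasSum (fun k : ℕ => (beta n r k : ℝ) * (t / (n : ℝ) ^ 2) ^ k)
      ((1 + t) ^ ((r : ℝ) / (n : ℝ))) := by
  have h := (Real.one_add_rpow_hasFPowerSeriesOnBall_zero (a := (r : ℝ) / (n : ℝ))).hasSum
    (y := t) (by
      rw [Metric.mem_eball, edist_dist, Real.dist_eq, sub_zero]
      rw [ENNReal.ofReal_lt_one]
      exact ht)
  rw [zero_add] at h
  have e : (fun k : ℕ => (beta n r k : ℝ) * (t / (n : ℝ) ^ 2) ^ k) =
      fun k : ℕ => (binomialSeries ℝ ((r : ℝ) / (n : ℝ)) k) fun _ => t := by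
    funext k
    exact beta_eq hn k t
  rw [e]
  exact h

theorem hasSum_mul_poly {S : PowerSeries ℤ} {s w : ℝ}
    (h : HasSum (fun k : ℕ => ((PowerSeries.coeff k S : ℤ) : ℝ) * w ^ k) s) (p : ℤ[X]) :
    HasSum (fun k : ℕ => ((PowerSeries.coeff k (S * (p : PowerSeries ℤ)) : ℤ) : ℝ) * w ^ k)
      (s * aeval w p) := by
  induction p using Polynomial.induction_on with
  | C a =>
    rw [aeval_C]
    have h1 := h.mul_right (a : ℝ)
    have e : (fun k : ℕ => ((PowerSeries.coeff k (S * ((C a : ℤ[X]) : PowerSeries ℤ)) : ℤ) : ℝ) *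
        w ^ k) = fun k : ℕ => ((PowerSeries.coeff k S : ℤ) : ℝ) * w ^ k * (a : ℝ) := by
      funext k
      rw [Polynomial.coe_C, PowerSeries.coeff_mul_C]
      push_cast
      ring
    rw [e]
    exact h1
  | add p q hp hq =>
    rw [map_add, mul_add]
    have h1 := hp.add hq
    have e : (fun k : ℕ => ((PowerSeries.coeff k (S * ((p + q : ℤ[X]) : PowerSeries ℤ)) : ℤ) : ℝ) *
        w ^ k) = fun k : ℕ => ((PowerSeries.coeff k (S * (p : PowerSeries ℤ)) : ℤ) : ℝ) * w ^ k +
          ((PowerSeries.coeff k (S * (q : PowerSeries ℤ)) : ℤ) : ℝ) * w ^ k := by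
      funext k
      rw [Polynomial.coe_add, mul_add, map_add]
      push_cast
      ring
    rw [e]
    exact h1
  | monomial n a hp =>
    have h1 : S * ((C a * X ^ (n + 1) : ℤ[X]) : PowerSeries ℤ) =
        (S * ((C a * X ^ n : ℤ[X]) : PowerSeries ℤ)) * PowerSeries.X := by
      rw [pow_succ, ← mul_assoc, Polynomial.coe_mul (φ := C a * X ^ n), Polynomial.coe_X, mul_assoc]
    rw [← hasSum_nat_add_iff' 1]
    have h2 : s * aeval w (C a * X ^ (n + 1)) -
        ∑ i ∈ range 1, ((PowerSeries.coeff i (S * ((C a * X ^ (n + 1) : ℤ[X]) : PowerSeries ℤ)) : ℤ) : ℝ) *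
          w ^ i = (s * aeval w (C a * X ^ n)) * w := by
      rw [Finset.sum_range_one, h1, PowerSeries.coeff_zero_mul_X, map_mul, map_mul, map_pow, map_pow,
        aeval_X]
      push_cast
      ring
    rw [h2]
    have h3 := hp.mul_right w
    have e : (fun k : ℕ => ((PowerSeries.coeff (k + 1)
        (S * ((C a * X ^ (n + 1) : ℤ[X]) : PowerSeries ℤ)) : ℤ) : ℝ) * w ^ (k + 1)) =
        fun k : ℕ => ((PowerSeries.coeff k (S * ((C a * X ^ n : ℤ[X]) : PowerSeries ℤ)) : ℤ) : ℝ) *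
          w ^ k * w := by
      funext k
      rw [h1, PowerSeries.coeff_succ_mul_X, pow_succ]
      ring
    rw [e]
    exact h3

/-- the remainder -/
theorem remainder {n j r : ℕ} (hr : 0 < r) (hrn : r < n) {t : ℝ} (ht : |t| ≤ 1 / 2) :
    |aeval (t / (n : ℝ) ^ 2) (pp n j (-r)) * (1 + t) ^ ((r : ℝ) / (n : ℝ)) -
      aeval (t / (n : ℝ) ^ 2) (pp n j r)| ≤ 4 * 8 ^ j * |t| ^ (2 * j + 1) := by
  have hn : 0 < n := by omega
  have hn0 : (0 : ℝ) < n := by exact_mod_cast hn
  set w : ℝ := t / (n : ℝ) ^ 2 with hw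
  set f : ℕ → ℝ := fun k =>
    ((PowerSeries.coeff k (SS n r * (pp n j (-r) : PowerSeries ℤ)) : ℤ) : ℝ) * w ^ k with hf
  have hS : HasSum (fun k : ℕ => ((PowerSeries.coeff k (SS n r) : ℤ) : ℝ) * w ^ k)
      ((1 + t) ^ ((r : ℝ) / (n : ℝ))) := by
    have h1 := hasSum_beta (r := r) hn (t := t) (by linarith [ht])
    have e : (fun k : ℕ => ((PowerSeries.coeff k (SS n r) : ℤ) : ℝ) * w ^ k) =
        fun k : ℕ => (beta n r k : ℝ) * (t / (n : ℝ) ^ 2) ^ k := by
      funext k
      rw [coeff_SS]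
    rw [e]
    exact h1
  have h1 : HasSum f ((1 + t) ^ ((r : ℝ) / (n : ℝ)) * aeval w (pp n j (-r))) := hasSum_mul_poly hS _
  -- the first coefficients
  have h2 : ∑ k ∈ range (2 * j + 1), f k = aeval w (pp n j r) := by
    have e1 : aeval w (pp n j r) = ∑ k ∈ range (2 * j + 1), ((pp n j r).coeff k : ℝ) * w ^ k := by
      rw [Polynomial.aeval_eq_sum_range' (n := 2 * j + 1) (by
        have := pp_natDegree n j r
        omega)]
      apply Finset.sum_congr rfl
      intro k _
      rw [zsmul_eq_mul]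
    rw [e1]
    apply Finset.sum_congr rfl
    intro k hk
    have hk' := Finset.mem_range.1 hk
    simp only [hf]
    rw [pp_pade n j r (by omega)]
  have h3 : HasSum (fun k => f (k + (2 * j + 1)))
      ((1 + t) ^ ((r : ℝ) / (n : ℝ)) * aeval w (pp n j (-r)) - aeval w (pp n j r)) := by
    rw [← h2]
    exact (hasSum_nat_add_iff' (2 * j + 1)).2 h1
  -- the bound for the coefficients
  have h4 : ∀ k, |f k| ≤ 2 * 8 ^ j * |t| ^ k := by
    intro k
    have h5 : |PowerSeries.coeff k (SS n r * (pp n j (-r) : PowerSeries ℤ))| ≤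
        (n : ℤ) ^ (2 * k) * (2 * 8 ^ j) := by
      rw [mul_comm, PowerSeries.coeff_mul]
      refine (Finset.abs_sum_le_sum_abs _ _).trans ?_
      rw [Finset.Nat.sum_antidiagonal_eq_sum_range_succ_mk]
      have h6 : ∀ l ∈ range k.succ, |PowerSeries.coeff l (pp n j (-r) : PowerSeries ℤ) *
          PowerSeries.coeff (k - l) (SS n r)| ≤
          (n : ℤ) ^ (2 * k) * (4 ^ j * (Nat.choose (j + 1) l : ℤ)) := by
        intro l hl
        have hlk : l ≤ k := by
          have := Finset.mem_range.1 hl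
          omega
        rw [Polynomial.coeff_coe, pp_coeff, coeff_SS, abs_mul]
        split_ifs with hlj
        · have h7 := PC_bound (n := n) (j := j) (a := -(r : ℤ)) (by
            rw [abs_neg, Nat.abs_cast]
            exact_mod_cast hrn) hlj
          have h8 := abs_beta_le hrn (k - l)
          calc |PC n j (-r) l| * |beta n r (k - l)|
              ≤ (n : ℤ) ^ (2 * l) * ((Nat.choose (j + 1) l : ℤ) * 4 ^ j) * (n : ℤ) ^ (2 * (k - l)) :=
                mul_le_mul h7 h8 (abs_nonneg _) (by positivity)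
            _ = (n : ℤ) ^ (2 * l + 2 * (k - l)) * (4 ^ j * (Nat.choose (j + 1) l : ℤ)) := by
                rw [pow_add]; ring
            _ = _ := by
                have : 2 * l + 2 * (k - l) = 2 * k := by omega
                rw [this]
        · rw [abs_zero, zero_mul]
          positivity
      refine (Finset.sum_le_sum h6).trans ?_
      rw [← Finset.mul_sum, ← Finset.mul_sum]
      apply mul_le_mul_of_nonneg_left _ (by positivity)
      have h7 : (∑ l ∈ range k.succ, (Nat.choose (j + 1) l : ℤ)) ≤ 2 ^ (j + 1) := by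
        exact_mod_cast sum_choose_le (j + 1) k.succ
      calc (4 : ℤ) ^ j * ∑ l ∈ range k.succ, (Nat.choose (j + 1) l : ℤ) ≤ 4 ^ j * 2 ^ (j + 1) :=
            mul_le_mul_of_nonneg_left h7 (by positivity)
        _ = 2 * 8 ^ j := by
            have : (8 : ℤ) = 4 * 2 := by norm_num
            rw [this, mul_pow, pow_succ]
            ring
    have h6 : |((PowerSeries.coeff k (SS n r * (pp n j (-r) : PowerSeries ℤ)) : ℤ) : ℝ)| ≤
        (n : ℝ) ^ (2 * k) * (2 * 8 ^ j) := by
      exact_mod_cast h5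
    simp only [hf]
    rw [abs_mul, abs_pow, hw, abs_div, abs_of_pos (by positivity : (0 : ℝ) < (n : ℝ) ^ 2), div_pow,
      ← pow_mul]
    calc _ ≤ (n : ℝ) ^ (2 * k) * (2 * 8 ^ j) * (|t| ^ k / (n : ℝ) ^ (2 * k)) :=
          mul_le_mul_of_nonneg_right h6 (by positivity)
      _ = _ := by field_simp
  have h5 : HasSum (fun k : ℕ => 2 * 8 ^ j * |t| ^ (2 * j + 1) * |t| ^ k)
      (2 * 8 ^ j * |t| ^ (2 * j + 1) * (1 - |t|)⁻¹) :=
    (hasSum_geometric_of_lt_one (abs_nonneg _) (by linarith)).mul_left _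
  have h6 := h3.norm_le_of_bounded h5 (by
    intro k
    rw [Real.norm_eq_abs]
    refine (h4 _).trans (le_of_eq ?_)
    rw [pow_add]
    ring)
  rw [Real.norm_eq_abs] at h6
  rw [mul_comm (aeval w (pp n j (-r)))]
  refine h6.trans ?_
  have h7 : (1 - |t|)⁻¹ ≤ 2 := by
    rw [inv_le_comm₀ (by linarith) (by norm_num)]
    linarith
  calc 2 * 8 ^ j * |t| ^ (2 * j + 1) * (1 - |t|)⁻¹ ≤ 2 * 8 ^ j * |t| ^ (2 * j + 1) * 2 :=
        mul_le_mul_of_nonneg_left h7 (by positivity)
    _ = _ := by ring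

end Pool.Agent.H79.FC
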