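import Mathlib
import Pool.Agent.H79.FC.Rem

/-!
# The size of the linear forms
-/

set_option autoImplicit false

namespace Pool.Agent.H79.FC

open Finset Polynomial
open Pool.Agent.Y411.UF (PC)

theorem rpow_div_pow {x : ℝ} (hx : 0 ≤ x) {n : ℕ} (hn : 0 < n) (g : ℕ) :
    (x ^ ((g : ℝ) / (n : ℝ))) ^ n = x ^ g := by
  rw [← Real.rpow_natCast, ← Real.rpow_mul hx, div_mul_cancel₀ _ (by positivity),
    Real.rpow_natCast]

theorem BB_bound_real {n j : ℕ} {a X D : ℤ} {T : ℝ} (ha : |a| < n) (hX : |(X : ℝ)| ≤ T)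
    (hD0 : 0 ≤ D) (hD : (D : ℝ) ≤ T) :
    |((BB n j a X (n ^ 2 * D) : ℤ) : ℝ)| ≤ 2 * (8 * (n : ℝ) ^ 2) ^ j * T ^ j := by
  obtain ⟨T', hT'⟩ : ∃ T' : ℤ, T' = max |X| D := ⟨_, rfl⟩
  have h1 := BB_bound (T := T') (j := j) ha (by rw [hT']; exact le_max_left _ _) hD0
    (by rw [hT']; exact le_max_right _ _)
  have h2 : (T' : ℝ) ≤ T := by
    rw [hT']
    push_cast
    exact max_le hX hD
  have h0 : (0 : ℝ) ≤ (T' : ℝ) := by
    have : 0 ≤ T' := by rw [hT']; exact le_max_of_le_right hD0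
    exact_mod_cast this
  calc |((BB n j a X (n ^ 2 * D) : ℤ) : ℝ)| ≤ 2 * (8 * (n : ℝ) ^ 2) ^ j * (T' : ℝ) ^ j := by
        exact_mod_cast h1
    _ ≤ _ := by
        apply mul_le_mul_of_nonneg_left _ (by positivity)
        exact pow_le_pow_left₀ h0 h2 j

theorem size {g n q r j M : ℕ} {X Z u y : ℤ} {T X2 : ℝ} (hr : 0 < r) (hrn : r < n)
    (hodd : Odd n) (hg : g = q * n + r) (heq : Z ^ g = X ^ g + y ^ n) (hD : Z = X + u ^ n)
    (hu : 0 < u) (hX0 : X ≠ 0) (hM : M ≠ 0) (hj : 2 * j + 1 ≤ g)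
    (hXM : |(X : ℝ)| = M * X2) (hXT : |(X : ℝ)| ≤ T) (hDT : ((u : ℝ)) ^ n ≤ T)
    (hT : T ≤ 2 * |(X : ℝ)| ∨ T = (u : ℝ) ^ n)
    (hne : BB n j (-r) X (n ^ 2 * u ^ n) * y - BB n j r X (n ^ 2 * u ^ n) * (u ^ r * Z ^ q) ≠ 0)
    (hdvd : (M : ℤ) ^ (2 * j + 1) ∣ BB n j (-r) X (n ^ 2 * u ^ n) * y -
      BB n j r X (n ^ 2 * u ^ n) * (u ^ r * Z ^ q)) :
    T ^ (j + 1) ≤ 12 * (32 * (n : ℝ) ^ 2) ^ j * X2 ^ (2 * j + 1) *
      (2 * T) ^ ((g : ℝ) / (n : ℝ)) := by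
  have hn : 0 < n := by omega
  have hn1 : (1 : ℝ) ≤ n := by exact_mod_cast hn
  have hn0 : (0 : ℝ) < n := by linarith
  have hu1 : (1 : ℝ) ≤ (u : ℝ) := by exact_mod_cast hu
  have hu0 : (0 : ℝ) < (u : ℝ) := by linarith
  have hT1 : 1 ≤ T := (one_le_pow₀ hu1).trans hDT
  have hT0 : 0 < T := by linarith
  have hx0 : 0 < |(X : ℝ)| := by
    have : (X : ℝ) ≠ 0 := by exact_mod_cast hX0
    positivity
  have hM0 : (0 : ℝ) < M := by
    have : 0 < M := Nat.pos_of_ne_zero hM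
    exact_mod_cast this
  have hX20 : 0 < X2 := by
    rw [hXM] at hx0
    exact (pos_iff_pos_of_mul_pos hx0).1 hM0
  obtain ⟨Q, hQ⟩ : ∃ Q, Q = (2 * T) ^ ((g : ℝ) / (n : ℝ)) := ⟨_, rfl⟩
  have hQ0 : 0 < Q := by rw [hQ]; positivity
  have hQn : Q ^ n = (2 * T) ^ g := by rw [hQ]; exact rpow_div_pow (by positivity) hn g
  rw [← hQ]
  obtain ⟨Δ, hΔ⟩ : ∃ Δ, Δ = BB n j (-r) X (n ^ 2 * u ^ n) * y -
      BB n j r X (n ^ 2 * u ^ n) * (u ^ r * Z ^ q) := ⟨_, rfl⟩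
  rw [← hΔ] at hne hdvd
  have hlow : (M : ℝ) ^ (2 * j + 1) ≤ |(Δ : ℝ)| := by
    have h1 := Int.le_of_dvd (abs_pos.2 hne) ((dvd_abs _ _).2 hdvd)
    exact_mod_cast h1
  have hDR : (((u ^ n : ℤ)) : ℝ) = (u : ℝ) ^ n := by push_cast; rfl
  have hZR : (Z : ℝ) = X + (u : ℝ) ^ n := by rw [hD]; push_cast; rfl
  have hZT : |(Z : ℝ)| ≤ 2 * T := by
    rw [hZR]
    refine (abs_add_le _ _).trans ?_
    rw [abs_of_pos (by positivity : (0 : ℝ) < (u : ℝ) ^ n)]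
    linarith
  have hr1 : |((r : ℕ) : ℤ)| < n := by
    rw [Nat.abs_cast]; exact_mod_cast hrn
  have hr2 : |-((r : ℕ) : ℤ)| < n := by rw [abs_neg]; exact hr1
  have hB1 := BB_bound_real (j := j) (a := -(r : ℤ)) (X := X) (D := u ^ n) hr2 hXT (by positivity)
    (by rw [hDR]; exact hDT)
  have hB2 := BB_bound_real (j := j) (a := (r : ℤ)) (X := X) (D := u ^ n) hr1 hXT (by positivity)
    (by rw [hDR]; exact hDT)
  -- the size of the second factor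
  have hUZ : |((u : ℝ) ^ r * (Z : ℝ) ^ q)| ≤ Q := by
    apply le_of_pow_le_pow_left₀ hn.ne' hQ0.le
    rw [hQn, abs_mul, abs_pow, abs_pow, abs_of_pos hu0, mul_pow, ← pow_mul, ← pow_mul,
      mul_comm r n, pow_mul (u : ℝ) n r]
    calc ((u : ℝ) ^ n) ^ r * |(Z : ℝ)| ^ (q * n) ≤ (2 * T) ^ r * (2 * T) ^ (q * n) := by
          apply mul_le_mul _ _ (by positivity) (by positivity)
          · exact pow_le_pow_left₀ (by positivity) (by linarith) r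
          · exact pow_le_pow_left₀ (abs_nonneg _) hZT _
      _ = (2 * T) ^ g := by rw [← pow_add, hg, add_comm]
  have heqR : (Z : ℝ) ^ g = (X : ℝ) ^ g + (y : ℝ) ^ n := by exact_mod_cast heq
  have hΔR : (Δ : ℝ) = ((BB n j (-r) X (n ^ 2 * u ^ n) : ℤ) : ℝ) * y -
      ((BB n j r X (n ^ 2 * u ^ n) : ℤ) : ℝ) * ((u : ℝ) ^ r * (Z : ℝ) ^ q) := by
    rw [hΔ]; push_cast; ring
  have hX2j : |(X : ℝ)| ^ (2 * j + 1) = (M : ℝ) ^ (2 * j + 1) * X2 ^ (2 * j + 1) := by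
    rw [hXM, mul_pow]
  have h32 : (2 : ℝ) ^ (2 * j + 1) * (6 * (8 * (n : ℝ) ^ 2) ^ j) = 12 * (32 * (n : ℝ) ^ 2) ^ j := by
    have e1 : (32 : ℝ) * (n : ℝ) ^ 2 = 4 * (8 * (n : ℝ) ^ 2) := by ring
    have e2 : (2 : ℝ) ^ (2 * j + 1) = 2 * 4 ^ j := by
      rw [pow_succ, pow_mul]
      norm_num
      ring
    rw [e1, mul_pow 4, e2]
    ring
  rcases le_or_gt T (2 * |(X : ℝ)|) with hcase | hcase
  · -- first case
    have hy : |(y : ℝ)| ≤ 2 * Q := by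
      apply le_of_pow_le_pow_left₀ hn.ne' (by positivity)
      rw [mul_pow, hQn, ← abs_pow]
      have e : (y : ℝ) ^ n = (Z : ℝ) ^ g - (X : ℝ) ^ g := by linarith
      rw [e]
      refine (abs_sub _ _).trans ?_
      rw [abs_pow, abs_pow]
      have h1 : |(Z : ℝ)| ^ g ≤ (2 * T) ^ g := pow_le_pow_left₀ (abs_nonneg _) hZT g
      have h2 : |(X : ℝ)| ^ g ≤ (2 * T) ^ g := pow_le_pow_left₀ (abs_nonneg _) (by linarith) g
      have h3 : (2 : ℝ) ≤ 2 ^ n := le_self_pow₀ (by norm_num) hn.ne'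
      have h4 : 0 < (2 * T) ^ g := by positivity
      nlinarith
    have hup : |(Δ : ℝ)| ≤ 6 * (8 * (n : ℝ) ^ 2) ^ j * T ^ j * Q := by
      rw [hΔR]
      refine (abs_sub _ _).trans ?_
      rw [abs_mul, abs_mul]
      calc _ ≤ 2 * (8 * (n : ℝ) ^ 2) ^ j * T ^ j * (2 * Q) +
            2 * (8 * (n : ℝ) ^ 2) ^ j * T ^ j * Q := by
            apply add_le_add
            · exact mul_le_mul hB1 hy (abs_nonneg _) (by positivity)
            · exact mul_le_mul hB2 hUZ (abs_nonneg _) (by positivity)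
        _ = _ := by ring
    have h1 : T ^ (2 * j + 1) ≤ (2 * |(X : ℝ)|) ^ (2 * j + 1) :=
      pow_le_pow_left₀ hT0.le hcase _
    have h2 : T ^ (j + 1) * T ^ j ≤ (12 * (32 * (n : ℝ) ^ 2) ^ j * X2 ^ (2 * j + 1) * Q) * T ^ j := by
      calc T ^ (j + 1) * T ^ j = T ^ (2 * j + 1) := by rw [← pow_add]; congr 1; ring
        _ ≤ (2 * |(X : ℝ)|) ^ (2 * j + 1) := h1
        _ = 2 ^ (2 * j + 1) * ((M : ℝ) ^ (2 * j + 1) * X2 ^ (2 * j + 1)) := by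
            rw [mul_pow, hX2j]
        _ ≤ 2 ^ (2 * j + 1) * ((6 * (8 * (n : ℝ) ^ 2) ^ j * T ^ j * Q) * X2 ^ (2 * j + 1)) := by
            apply mul_le_mul_of_nonneg_left _ (by positivity)
            exact mul_le_mul_of_nonneg_right (hlow.trans hup) (by positivity)
        _ = (2 ^ (2 * j + 1) * (6 * (8 * (n : ℝ) ^ 2) ^ j)) * X2 ^ (2 * j + 1) * Q * T ^ j := by ring
        _ = _ := by rw [h32]
    exact le_of_mul_le_mul_right h2 (by positivity)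
  · -- second case
    have hTD : T = (u : ℝ) ^ n := by
      rcases hT with h | h
      · linarith
      · exact h
    have hZlow : T / 2 ≤ Z := by
      have := neg_abs_le (X : ℝ)
      rw [hZR, ← hTD]
      linarith
    have hZ0 : (0 : ℝ) < Z := by linarith
    have hXZ : |(X : ℝ)| < Z := by linarith
    have hZup : (Z : ℝ) ≤ 2 * T := by rwa [abs_of_pos hZ0] at hZT
    obtain ⟨Y0, hY0⟩ : ∃ Y0, Y0 = (Z : ℝ) ^ ((g : ℝ) / (n : ℝ)) := ⟨_, rfl⟩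
    have hY00 : 0 < Y0 := by rw [hY0]; positivity
    have hY0n : Y0 ^ n = (Z : ℝ) ^ g := by rw [hY0]; exact rpow_div_pow hZ0.le hn g
    have hY0Q : Y0 ≤ Q := by
      rw [hY0, hQ]
      exact Real.rpow_le_rpow hZ0.le hZup (by positivity)
    -- `y` is positive
    have hg0 : g ≠ 0 := by omega
    have hy0 : (0 : ℝ) < (y : ℝ) := by
      have h1 : (0 : ℝ) < (y : ℝ) ^ n := by
        have h2 : (X : ℝ) ^ g ≤ |(X : ℝ)| ^ g := by rw [← abs_pow]; exact le_abs_self _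
        have h3 : |(X : ℝ)| ^ g < (Z : ℝ) ^ g := pow_lt_pow_left₀ hXZ (abs_nonneg _) hg0
        linarith
      exact hodd.pow_pos_iff.1 h1
    -- the distance of `y` from `Y0`
    have hdist : |(y : ℝ) - Y0| * Y0 ^ (n - 1) ≤ |(X : ℝ)| ^ g := by
      have h1 : ((y : ℝ) ^ n - Y0 ^ n) = -(X : ℝ) ^ g := by rw [hY0n, heqR]; ring
      have h2 : |(y : ℝ) ^ n - Y0 ^ n| = |(X : ℝ)| ^ g := by rw [h1, abs_neg, abs_pow]
      rw [← h2, ← geom_sum₂_mul, abs_mul, mul_comm]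
      apply mul_le_mul_of_nonneg_right _ (abs_nonneg _)
      rw [abs_of_nonneg (Finset.sum_nonneg fun i _ => by positivity)]
      have h3 : Y0 ^ (n - 1) = (y : ℝ) ^ 0 * Y0 ^ (n - 1 - 0) := by simp
      rw [h3]
      exact Finset.single_le_sum (f := fun i => (y : ℝ) ^ i * Y0 ^ (n - 1 - i))
        (fun i _ => by positivity) (Finset.mem_range.2 hn)
    have hdist2 : |(y : ℝ) - Y0| * (T / 2) ^ (2 * j + 1) ≤ |(X : ℝ)| ^ (2 * j + 1) * Q := by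
      have h1 : |(y : ℝ) - Y0| * (Z : ℝ) ^ g ≤ |(X : ℝ)| ^ g * Y0 := by
        rw [← hY0n]
        have e : Y0 ^ n = Y0 ^ (n - 1) * Y0 := by rw [← pow_succ, Nat.sub_add_cancel hn]
        rw [e, ← mul_assoc]
        exact mul_le_mul_of_nonneg_right hdist hY00.le
      obtain ⟨s, hs⟩ := Nat.exists_eq_add_of_le hj
      have h2 : (T / 2) ^ g ≤ (Z : ℝ) ^ g := pow_le_pow_left₀ (by positivity) hZlow g
      have h3 : |(X : ℝ)| ^ s ≤ (T / 2) ^ s := pow_le_pow_left₀ (abs_nonneg _) (by linarith) s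
      have hTs : 0 < (T / 2) ^ s := by positivity
      apply le_of_mul_le_mul_right _ hTs
      calc |(y : ℝ) - Y0| * (T / 2) ^ (2 * j + 1) * (T / 2) ^ s
          = |(y : ℝ) - Y0| * (T / 2) ^ g := by rw [mul_assoc, ← pow_add, ← hs]
        _ ≤ |(y : ℝ) - Y0| * (Z : ℝ) ^ g := mul_le_mul_of_nonneg_left h2 (abs_nonneg _)
        _ ≤ |(X : ℝ)| ^ g * Y0 := h1
        _ = |(X : ℝ)| ^ (2 * j + 1) * Y0 * |(X : ℝ)| ^ s := by rw [hs, pow_add]; ring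
        _ ≤ |(X : ℝ)| ^ (2 * j + 1) * Q * (T / 2) ^ s := by
            apply mul_le_mul _ h3 (by positivity) (by positivity)
            exact mul_le_mul_of_nonneg_left hY0Q (by positivity)
    -- the remainder
    obtain ⟨t, ht⟩ : ∃ t : ℝ, t = X / T := ⟨_, rfl⟩
    have htabs : |t| = |(X : ℝ)| / T := by rw [ht, abs_div, abs_of_pos hT0]
    have ht2 : |t| ≤ 1 / 2 := by
      rw [htabs, div_le_iff₀ hT0]
      linarith
    have hrem := remainder (j := j) hr hrn ht2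
    have hY0eq : Y0 = ((u : ℝ) ^ r * (Z : ℝ) ^ q) * (1 + t) ^ ((r : ℝ) / (n : ℝ)) := by
      have h1t : 0 ≤ 1 + t := by
        have := neg_abs_le t
        linarith
      have hZt : (Z : ℝ) = T * (1 + t) := by
        rw [hZR, ht, ← hTD]
        field_simp
        ring
      have h1 : (u : ℝ) ^ r = T ^ ((r : ℝ) / (n : ℝ)) := by
        rw [hTD, ← Real.rpow_natCast, ← Real.rpow_natCast, ← Real.rpow_mul hu0.le,
          mul_div_cancel₀ _ (by positivity : (n : ℝ) ≠ 0)]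
      have h2 : (g : ℝ) / n = q + (r : ℝ) / n := by
        rw [hg]
        push_cast
        field_simp
      rw [hY0, h2, Real.rpow_add hZ0, Real.rpow_natCast, h1]
      have h3 : (Z : ℝ) ^ ((r : ℝ) / (n : ℝ)) = T ^ ((r : ℝ) / (n : ℝ)) *
          (1 + t) ^ ((r : ℝ) / (n : ℝ)) := by
        rw [hZt, Real.mul_rpow hT0.le h1t]
      rw [h3]
      ring
    obtain ⟨w, hw⟩ : ∃ w : ℝ, w = t / (n : ℝ) ^ 2 := ⟨_, rfl⟩
    rw [← hw] at hrem
    have hW : (((n : ℤ) ^ 2 * u ^ n : ℤ) : ℝ) = (n : ℝ) ^ 2 * T := by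
      rw [hTD]; push_cast; rfl
    have hwW : w * (((n : ℤ) ^ 2 * u ^ n : ℤ) : ℝ) = (X : ℝ) := by
      rw [hW, hw, ht]
      field_simp
    have hC1 := BB_cast (R := ℝ) n j (-r) X (n ^ 2 * u ^ n) w hwW
    have hC2 := BB_cast (R := ℝ) n j r X (n ^ 2 * u ^ n) w hwW
    have hdec : (Δ : ℝ) = ((BB n j (-r) X (n ^ 2 * u ^ n) : ℤ) : ℝ) * (y - Y0) +
        ((n : ℝ) ^ 2 * T) ^ j * ((u : ℝ) ^ r * (Z : ℝ) ^ q) *
          (aeval w (pp n j (-r)) * (1 + t) ^ ((r : ℝ) / (n : ℝ)) - aeval w (pp n j r)) := by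
      rw [hΔR, hC2]
      have e : ((BB n j (-r) X (n ^ 2 * u ^ n) : ℤ) : ℝ) * (y - Y0) =
          ((BB n j (-r) X (n ^ 2 * u ^ n) : ℤ) : ℝ) * y -
            ((((n : ℤ) ^ 2 * u ^ n : ℤ) : ℝ) ^ j * aeval w (pp n j (-r))) * Y0 := by
        rw [← hC1]; ring
      rw [e, hW, hY0eq]
      ring
    have hT2j : (0 : ℝ) < T ^ (2 * j + 1) := by positivity
    have hup : |(Δ : ℝ)| * T ^ (2 * j + 1) ≤
        8 * (32 * (n : ℝ) ^ 2) ^ j * Q * |(X : ℝ)| ^ (2 * j + 1) * T ^ j := by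
      have h1 : |(Δ : ℝ)| ≤ 2 * (8 * (n : ℝ) ^ 2) ^ j * T ^ j * |(y : ℝ) - Y0| +
          ((n : ℝ) ^ 2 * T) ^ j * Q * (4 * 8 ^ j * |t| ^ (2 * j + 1)) := by
        rw [hdec]
        refine (abs_add_le _ _).trans ?_
        rw [abs_mul, abs_mul, abs_mul]
        apply add_le_add
        · exact mul_le_mul_of_nonneg_right hB1 (abs_nonneg _)
        · apply mul_le_mul _ hrem (abs_nonneg _) (by positivity)
          rw [abs_of_nonneg (by positivity : (0 : ℝ) ≤ ((n : ℝ) ^ 2 * T) ^ j)]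
          exact mul_le_mul_of_nonneg_left hUZ (by positivity)
      have h2 : |(y : ℝ) - Y0| * T ^ (2 * j + 1) ≤ 2 ^ (2 * j + 1) * (|(X : ℝ)| ^ (2 * j + 1) * Q) := by
        have e : T ^ (2 * j + 1) = 2 ^ (2 * j + 1) * (T / 2) ^ (2 * j + 1) := by
          rw [← mul_pow]
          congr 1
          ring
        rw [e]
        calc |(y : ℝ) - Y0| * (2 ^ (2 * j + 1) * (T / 2) ^ (2 * j + 1))
            = 2 ^ (2 * j + 1) * (|(y : ℝ) - Y0| * (T / 2) ^ (2 * j + 1)) := by ring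
          _ ≤ _ := mul_le_mul_of_nonneg_left hdist2 (by positivity)
      have h3 : |t| ^ (2 * j + 1) * T ^ (2 * j + 1) = |(X : ℝ)| ^ (2 * j + 1) := by
        rw [← mul_pow, htabs, div_mul_cancel₀ _ hT0.ne']
      have h4 : (8 * (n : ℝ) ^ 2) ^ j ≤ (32 * (n : ℝ) ^ 2) ^ j :=
        pow_le_pow_left₀ (by positivity) (by nlinarith [sq_nonneg (n : ℝ)]) j
      have h5 : 2 * (8 * (n : ℝ) ^ 2) ^ j * 2 ^ (2 * j + 1) = 4 * (32 * (n : ℝ) ^ 2) ^ j := by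
        linarith [h32]
      calc |(Δ : ℝ)| * T ^ (2 * j + 1)
          ≤ (2 * (8 * (n : ℝ) ^ 2) ^ j * T ^ j * |(y : ℝ) - Y0| +
          ((n : ℝ) ^ 2 * T) ^ j * Q * (4 * 8 ^ j * |t| ^ (2 * j + 1))) * T ^ (2 * j + 1) :=
            mul_le_mul_of_nonneg_right h1 hT2j.le
        _ = 2 * (8 * (n : ℝ) ^ 2) ^ j * T ^ j * (|(y : ℝ) - Y0| * T ^ (2 * j + 1)) +
          4 * (8 * (n : ℝ) ^ 2) ^ j * T ^ j * Q * (|t| ^ (2 * j + 1) * T ^ (2 * j + 1)) := by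
            rw [mul_pow ((n : ℝ) ^ 2), mul_pow 8]
            ring
        _ ≤ 2 * (8 * (n : ℝ) ^ 2) ^ j * T ^ j * (2 ^ (2 * j + 1) * (|(X : ℝ)| ^ (2 * j + 1) * Q)) +
          4 * (8 * (n : ℝ) ^ 2) ^ j * T ^ j * Q * |(X : ℝ)| ^ (2 * j + 1) := by
            rw [h3]
            apply add_le_add_left
            exact mul_le_mul_of_nonneg_left h2 (by positivity)
        _ = (2 * (8 * (n : ℝ) ^ 2) ^ j * 2 ^ (2 * j + 1)) * (Q * |(X : ℝ)| ^ (2 * j + 1) * T ^ j) +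
          4 * (8 * (n : ℝ) ^ 2) ^ j * (Q * |(X : ℝ)| ^ (2 * j + 1) * T ^ j) := by ring
        _ ≤ (4 * (32 * (n : ℝ) ^ 2) ^ j) * (Q * |(X : ℝ)| ^ (2 * j + 1) * T ^ j) +
          4 * (32 * (n : ℝ) ^ 2) ^ j * (Q * |(X : ℝ)| ^ (2 * j + 1) * T ^ j) := by
            rw [h5]
            apply add_le_add_right
            apply mul_le_mul_of_nonneg_right _ (by positivity)
            exact mul_le_mul_of_nonneg_left h4 (by norm_num)
        _ = _ := by ring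
    have hMj : (0 : ℝ) < (M : ℝ) ^ (2 * j + 1) := by positivity
    have h6 : T ^ (j + 1) * (T ^ j * (M : ℝ) ^ (2 * j + 1)) ≤
        (8 * (32 * (n : ℝ) ^ 2) ^ j * Q * X2 ^ (2 * j + 1)) * (T ^ j * (M : ℝ) ^ (2 * j + 1)) := by
      calc T ^ (j + 1) * (T ^ j * (M : ℝ) ^ (2 * j + 1))
          = (M : ℝ) ^ (2 * j + 1) * T ^ (2 * j + 1) := by
            have : T ^ (2 * j + 1) = T ^ (j + 1) * T ^ j := by rw [← pow_add]; congr 1; ring
            rw [this]; ring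
        _ ≤ |(Δ : ℝ)| * T ^ (2 * j + 1) := mul_le_mul_of_nonneg_right hlow hT2j.le
        _ ≤ _ := hup
        _ = _ := by rw [hX2j]; ring
    have h7 := le_of_mul_le_mul_right h6 (by positivity)
    refine h7.trans ?_
    have h8 : 0 ≤ (32 * (n : ℝ) ^ 2) ^ j * Q * X2 ^ (2 * j + 1) := by positivity
    nlinarith

end Pool.Agent.H79.FC
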