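import Mathlib
import Pool.Agent.H79.FC.Size
import Pool.Agent.H79.FC.Defs

/-!
# The main inequality
-/

set_option autoImplicit false

namespace Pool.Agent.H79.FC

/-- The data: `Z ^ g = X ^ g + y ^ n`, `Z = X + u ^ n`, and a divisor `M` of `X` composed of primes `p`
with `n` prime to `p (p - 1)`. -/
structure Dat (g n : ℕ) (X Z u y : ℤ) (M : ℕ) (X2 T : ℝ) : Prop where
  gp : g.Prime
  g2 : g ≠ 2
  hodd : Odd n
  n3 : 3 ≤ n
  gn : ¬ g ∣ n
  eq : Z ^ g = X ^ g + y ^ n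
  D : Z = X + u ^ n
  u0 : 0 < u
  X0 : X ≠ 0
  Z0 : Z ≠ 0
  y0 : y ≠ 0
  cop : IsCoprime X Z
  M0 : M ≠ 0
  MX : (M : ℤ) ∣ X
  good : ∀ p : ℕ, p.Prime → p ∣ M → Nat.Coprime n (p * (p - 1))
  XM : |(X : ℝ)| = M * X2
  TT : T = max |(X : ℝ)| ((u : ℝ) ^ n)

variable {g n : ℕ} {X Z u y : ℤ} {M : ℕ} {X2 T : ℝ}

theorem Dat.g3 (h : Dat g n X Z u y M X2 T) : 3 ≤ g := by
  have := h.gp.two_le
  have := h.g2
  omega

theorem Dat.godd (h : Dat g n X Z u y M X2 T) : Odd g := h.gp.odd_of_ne_two h.g2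

theorem Dat.r0 (h : Dat g n X Z u y M X2 T) : 0 < g % n := by
  rw [Nat.pos_iff_ne_zero]
  intro h0
  have h1 : n ∣ g := Nat.dvd_of_mod_eq_zero h0
  have h2 := h.n3
  rcases (Nat.dvd_prime h.gp).1 h1 with h3 | h3
  · omega
  · exact h.gn (by rw [h3])

theorem Dat.rn (h : Dat g n X Z u y M X2 T) : g % n < n := Nat.mod_lt _ (by
  have := h.n3
  omega)

theorem Dat.rcop (h : Dat g n X Z u y M X2 T) : Nat.Coprime (g % n) n := by
  have h1 : Nat.Coprime g n := (Nat.Prime.coprime_iff_not_dvd h.gp).2 h.gn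
  have h2 := Nat.gcd_rec n g
  rw [Nat.Coprime, ← h2, Nat.gcd_comm]
  exact h1

theorem Dat.T1 (h : Dat g n X Z u y M X2 T) : 1 ≤ T := by
  rw [h.TT]
  refine le_max_of_le_right (one_le_pow₀ ?_)
  exact_mod_cast h.u0

/-- the main inequality -/
theorem Dat.key (h : Dat g n X Z u y M X2 T) {m : ℕ} (hm : 2 * m + 3 ≤ g) :
    ∃ j : ℕ, (j = m ∨ j = m + 1) ∧ T ^ (j + 1) ≤
      12 * (32 * (n : ℝ) ^ 2) ^ j * X2 ^ (2 * j + 1) * (2 * T) ^ ((g : ℝ) / (n : ℝ)) := by
  have hn3 := h.n3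
  have hg : g = g / n * n + g % n := by
    have := Nat.div_add_mod g n
    rw [mul_comm] at this
    exact this.symm
  have hn : 0 < n := by omega
  have hW : ((n : ℤ) ^ 2 * u ^ n) ≠ 0 := by
    have : (n : ℤ) ≠ 0 := by exact_mod_cast hn.ne'
    exact mul_ne_zero (pow_ne_zero _ this) (pow_ne_zero _ h.u0.ne')
  have hY : u ^ (g % n) * Z ^ (g / n) ≠ 0 := mul_ne_zero (pow_ne_zero _ h.u0.ne') (pow_ne_zero _ h.Z0)
  have hmain : ∀ j : ℕ, 2 * j + 1 ≤ g →
      BB n j (-((g % n : ℕ) : ℤ)) X (n ^ 2 * u ^ n) * y -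
        BB n j ((g % n : ℕ) : ℤ) X (n ^ 2 * u ^ n) * (u ^ (g % n) * Z ^ (g / n)) ≠ 0 →
      T ^ (j + 1) ≤ 12 * (32 * (n : ℝ) ^ 2) ^ j * X2 ^ (2 * j + 1) *
        (2 * T) ^ ((g : ℝ) / (n : ℝ)) := by
    intro j hj hne
    have hdvd := dvd_main (j := j) h.M0 h.MX hg hn h.eq h.D h.cop h.good hj
    refine size h.r0 h.rn h.hodd hg h.eq h.D h.u0 h.X0 h.M0 hj h.XM ?_ ?_ ?_ hne hdvd
    · rw [h.TT]; exact le_max_left _ _
    · rw [h.TT]; exact le_max_right _ _
    · rcases max_choice |(X : ℝ)| ((u : ℝ) ^ n) with h1 | h1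
      · left
        rw [h.TT, h1]
        have := abs_nonneg (X : ℝ)
        linarith
      · right
        rw [h.TT, h1]
  rcases nonvanishing (j := m) hn h.r0 h.rn h.X0 hW hY h.y0 with h1 | h1
  · exact ⟨m, Or.inl rfl, hmain m (by omega) h1⟩
  · exact ⟨m + 1, Or.inr rfl, hmain (m + 1) (by omega) h1⟩

theorem expo_le (N : ℕ) : expo N ≤ 1 / 2 := by
  rw [expo]
  split_ifs with h
  · norm_num
  · have : (0 : ℝ) ≤ 1 / N := by positivity
    linarith

/-- the maximum is bounded in terms of `n` -/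
theorem Dat.T_bound (h : Dat g n X Z u y M X2 T) {ε : ℝ}
    (hX2 : X2 ≤ 2 * T ^ (expo n - ε)) : ε * Real.log T ≤ Real.log (768 * n) := by
  have hg3 := h.g3
  have hn3 := h.n3
  have hT1 := h.T1
  have hT0 : 0 < T := by linarith
  have hL0 : 0 ≤ Real.log T := Real.log_nonneg hT1
  obtain ⟨m, hm⟩ : ∃ m, g = 2 * m + 3 := by
    obtain ⟨k, hk⟩ := h.godd
    exact ⟨k - 1, by omega⟩
  obtain ⟨j, hj, hkey⟩ := h.key (m := m) (by omega)
  have hn1 : (3 : ℝ) ≤ n := by exact_mod_cast hn3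
  have hn0 : (0 : ℝ) < n := by linarith
  have hX20 : 0 < X2 := by
    have h1 : 0 < |(X : ℝ)| := by
      have : (X : ℝ) ≠ 0 := by exact_mod_cast h.X0
      positivity
    rw [h.XM] at h1
    have h2 : (0 : ℝ) < M := by
      have : 0 < M := Nat.pos_of_ne_zero h.M0
      exact_mod_cast this
    exact (pos_iff_pos_of_mul_pos h1).1 h2
  -- logarithms
  have hlogX2 : Real.log X2 ≤ Real.log 2 + (expo n - ε) * Real.log T := by
    have h1 := Real.log_le_log hX20 hX2
    rw [Real.log_mul (by norm_num) (by positivity), Real.log_rpow hT0] at h1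
    exact h1
  have hlogkey : ((j : ℝ) + 1) * Real.log T ≤ Real.log 12 + j * (Real.log 32 + 2 * Real.log n) +
      (2 * j + 1) * Real.log X2 + (g : ℝ) / n * (Real.log 2 + Real.log T) := by
    have h1 := Real.log_le_log (by positivity) hkey
    rw [Real.log_pow, Real.log_mul (by positivity) (by positivity),
      Real.log_mul (by positivity) (by positivity), Real.log_mul (by positivity) (by positivity),
      Real.log_pow, Real.log_pow, Real.log_rpow (by positivity),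
      Real.log_mul (by norm_num) (by positivity), Real.log_mul (by norm_num) hT0.ne',
      Real.log_pow] at h1
    push_cast at h1
    exact h1
  have hlog32 : Real.log 32 = 5 * Real.log 2 := by
    rw [show (32 : ℝ) = 2 ^ 5 by norm_num, Real.log_pow]
    norm_num
  have hlog768 : Real.log (768 * n) = Real.log 12 + 6 * Real.log 2 + Real.log n := by
    rw [show (768 : ℝ) * n = 12 * 2 ^ 6 * n by norm_num, Real.log_mul (by norm_num) hn0.ne',
      Real.log_mul (by norm_num) (by norm_num), Real.log_pow]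
    norm_num
  have hl2 : 0 < Real.log 2 := Real.log_pos (by norm_num)
  have hl12 : 0 < Real.log 12 := Real.log_pos (by norm_num)
  have hln : 0 < Real.log n := Real.log_pos (by linarith)
  obtain ⟨L, hL⟩ : ∃ L, L = Real.log T := ⟨_, rfl⟩
  obtain ⟨l2, hl2'⟩ : ∃ l2, l2 = Real.log 2 := ⟨_, rfl⟩
  obtain ⟨l12, hl12'⟩ : ∃ l12, l12 = Real.log 12 := ⟨_, rfl⟩
  obtain ⟨ln, hln'⟩ : ∃ ln, ln = Real.log n := ⟨_, rfl⟩
  obtain ⟨lX, hlX⟩ : ∃ lX, lX = Real.log X2 := ⟨_, rfl⟩
  obtain ⟨τ, hτ⟩ : ∃ τ, τ = (g : ℝ) / n := ⟨_, rfl⟩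
  rw [hlog32, ← hL, ← hl2', ← hl12', ← hln', ← hlX, ← hτ] at hlogkey
  rw [← hL, ← hl2', ← hlX] at hlogX2
  rw [← hL, hlog768, ← hl2', ← hl12', ← hln']
  rw [← hL] at hL0
  rw [← hl2'] at hl2
  rw [← hl12'] at hl12
  rw [← hln'] at hln
  have hτn : τ * n = g := by rw [hτ, div_mul_cancel₀ _ hn0.ne']
  have hτ3 : τ ≤ (g : ℝ) / 3 := by
    rw [hτ]
    apply div_le_div_of_nonneg_left (by positivity) (by norm_num) hn1
  have hgR : (g : ℝ) = 2 * m + 3 := by rw [hm]; push_cast; ring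
  have hm0 : (0 : ℝ) ≤ m := by positivity
  -- the main inequality in logarithmic form
  have hmain : L * ((j : ℝ) + 1 - τ - (2 * j + 1) * (expo n - ε)) ≤
      l12 + j * (5 * l2 + 2 * ln) + (2 * j + 1 + τ) * l2 := by
    have h1 : (2 * (j : ℝ) + 1) * lX ≤ (2 * j + 1) * (l2 + (expo n - ε) * L) :=
      mul_le_mul_of_nonneg_left hlogX2 (by positivity)
    linarith
  -- the coefficient
  have hcoef : (2 * (j : ℝ) + 1) * ε ≤ (j : ℝ) + 1 - τ - (2 * j + 1) * (expo n - ε) := by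
    have h1 : (2 * (j : ℝ) + 1) * expo n ≤ (j : ℝ) + 1 - τ := by
      rw [expo]
      split_ifs with hn
      · have hg5 : 5 ≤ g := by
          by_contra hc
          have h3 : g = 3 := by
            obtain ⟨k, hk⟩ := h.godd
            omega
          exact h.gn (by rw [h3, hn])
        have hg5' : (5 : ℝ) ≤ g := by exact_mod_cast hg5
        have hτ' : τ = (g : ℝ) / 3 := by rw [hτ, hn]; norm_num
        rw [hτ']
        rcases hj with rfl | rfl
        · linarith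
        · push_cast
          linarith
      · have hn5 : 5 ≤ n := by
          obtain ⟨k, hk⟩ := h.hodd
          omega
        have hn5' : (5 : ℝ) ≤ n := by exact_mod_cast hn5
        have h2 : 1 / (n : ℝ) ≤ 1 / 5 := one_div_le_one_div_of_le (by norm_num) hn5'
        have hτ' : τ = g * (1 / (n : ℝ)) := by rw [hτ]; ring
        rw [hτ', hgR]
        rcases hj with rfl | rfl
        · nlinarith
        · push_cast
          nlinarith
    linarith
  -- the right hand side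
  have hrhs : l12 + j * (5 * l2 + 2 * ln) + (2 * j + 1 + τ) * l2 ≤
      (2 * (j : ℝ) + 1) * (l12 + 6 * l2 + ln) := by
    have hj0 : (0 : ℝ) ≤ j := by positivity
    have hτj : τ ≤ 2 * j + 1 := by
      rcases hj with rfl | rfl
      · linarith
      · push_cast
        linarith
    have h1 : τ * l2 ≤ (2 * j + 1) * l2 := mul_le_mul_of_nonneg_right hτj hl2.le
    nlinarith [mul_nonneg hj0 hl12.le, mul_nonneg hj0 hl2.le]
  have hjpos : 0 < 2 * (j : ℝ) + 1 := by positivity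
  have h1 : L * ((2 * (j : ℝ) + 1) * ε) ≤ (2 * (j : ℝ) + 1) * (l12 + 6 * l2 + ln) :=
    (mul_le_mul_of_nonneg_left hcoef hL0).trans (hmain.trans hrhs)
  have h2 : (2 * (j : ℝ) + 1) * (ε * L) ≤ (2 * (j : ℝ) + 1) * (l12 + 6 * l2 + ln) := by
    linarith
  exact le_of_mul_le_mul_left h2 hjpos

/-- an explicit form: if all primes of `X` are good and `n ≥ 17`, then `u = 1` -/
theorem Dat.u_one (h : Dat g n X Z u y M X2 T) (hX2 : X2 = 1) (hn : 17 ≤ n) : u = 1 := by
  by_contra hu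
  have hu2 : 2 ≤ u := by
    have := h.u0
    omega
  have hT1 := h.T1
  have hT0 : 0 < T := by linarith
  have hTn : (2 : ℝ) ^ n ≤ T := by
    rw [h.TT]
    refine le_max_of_le_right (pow_le_pow_left₀ (by norm_num) ?_ n)
    exact_mod_cast hu2
  have hg3 := h.g3
  obtain ⟨m, hm⟩ : ∃ m, g = 2 * m + 3 := by
    obtain ⟨k, hk⟩ := h.godd
    exact ⟨k - 1, by omega⟩
  obtain ⟨j, hj, hkey⟩ := h.key (m := m) (by omega)
  have hn1 : (17 : ℝ) ≤ n := by exact_mod_cast hn
  have hn0 : (0 : ℝ) < n := by linarith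
  rw [hX2, one_pow, mul_one] at hkey
  have hl2 : 0 < Real.log 2 := Real.log_pos (by norm_num)
  -- `32 n ^ 2 ≤ 2 ^ (n - 3)`
  have h32 : ∀ N : ℕ, 17 ≤ N → 32 * N ^ 2 * 8 ≤ 2 ^ N := by
    intro N hN
    induction N, hN using Nat.le_induction with
    | base => norm_num
    | succ N hN ih =>
      rw [pow_succ 2 N]
      nlinarith
  have h32' : Real.log (32 * (n : ℝ) ^ 2) ≤ (n - 3) * Real.log 2 := by
    have h1 : 32 * (n : ℝ) ^ 2 * 2 ^ 3 ≤ 2 ^ n := by
      have := h32 n hn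
      have h2 : ((32 * n ^ 2 * 8 : ℕ) : ℝ) ≤ ((2 ^ n : ℕ) : ℝ) := by exact_mod_cast this
      push_cast at h2
      linarith
    have h2 := Real.log_le_log (by positivity) h1
    rw [Real.log_mul (by positivity) (by norm_num), Real.log_pow, Real.log_pow] at h2
    push_cast at h2
    linarith
  have h12 : Real.log 12 ≤ 4 * Real.log 2 := by
    have h1 : Real.log 12 ≤ Real.log (2 ^ 4) := Real.log_le_log (by norm_num) (by norm_num)
    rw [Real.log_pow] at h1
    exact_mod_cast h1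
  have hlogT : n * Real.log 2 ≤ Real.log T := by
    have h1 := Real.log_le_log (by positivity) hTn
    rwa [Real.log_pow] at h1
  have hlogkey : ((j : ℝ) + 1) * Real.log T ≤ Real.log 12 + j * Real.log (32 * (n : ℝ) ^ 2) +
      (g : ℝ) / n * (Real.log 2 + Real.log T) := by
    have h1 := Real.log_le_log (by positivity) hkey
    rw [Real.log_pow, Real.log_mul (by positivity) (by positivity),
      Real.log_mul (by positivity) (by positivity), Real.log_pow,
      Real.log_rpow (by positivity), Real.log_mul (by norm_num) hT0.ne'] at h1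
    push_cast at h1
    exact h1
  obtain ⟨τ, hτ⟩ : ∃ τ, τ = (g : ℝ) / n := ⟨_, rfl⟩
  rw [← hτ] at hlogkey
  have hτn : τ * n = g := by rw [hτ, div_mul_cancel₀ _ hn0.ne']
  have hτ17 : τ ≤ (g : ℝ) / 17 := by
    rw [hτ]
    apply div_le_div_of_nonneg_left (by positivity) (by norm_num) hn1
  have hgR : (g : ℝ) = 2 * m + 3 := by rw [hm]; push_cast; ring
  have hm0 : (0 : ℝ) ≤ m := by positivity
  have hj0 : (0 : ℝ) ≤ j := by positivity
  have hjm : (m : ℝ) ≤ j ∧ (j : ℝ) ≤ m + 1 := by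
    rcases hj with rfl | rfl
    · constructor <;> linarith
    · push_cast
      constructor <;> linarith
  have hc : 0 ≤ (j : ℝ) + 1 - τ := by linarith [hjm.1]
  have h1 : ((j : ℝ) + 1 - τ) * (n * Real.log 2) ≤ ((j : ℝ) + 1 - τ) * Real.log T :=
    mul_le_mul_of_nonneg_left hlogT hc
  have h2 : (j : ℝ) * Real.log (32 * (n : ℝ) ^ 2) ≤ j * ((n - 3) * Real.log 2) :=
    mul_le_mul_of_nonneg_left h32' hj0
  have h3 : ((j : ℝ) + 1 - τ) * n * Real.log 2 ≤ (4 + j * (n - 3) + τ) * Real.log 2 := by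
    linarith
  have h4 := le_of_mul_le_mul_right h3 hl2
  have h5 : (j : ℝ) * n + n - g ≤ 4 + j * (n - 3) + τ := by
    have : ((j : ℝ) + 1 - τ) * n = j * n + n - τ * n := by ring
    rw [this, hτn] at h4
    exact h4
  linarith [hjm.1, hjm.2]

end Pool.Agent.H79.FC
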