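import Mathlib
import Pool.Agent.H79.FC.Core
import Pool.Agent.H79.FC.TwoLogs

/-!
# The case of consecutive roots: a bound for `n` by linear forms in two logarithms
-/

set_option autoImplicit false

namespace Pool.Agent.H79.FC

open Finset

theorem one_lt_diff {g : ℕ} (hg : 3 ≤ g) {x : ℕ} (hx : 1 ≤ x) : x ^ g + 1 < (x + 1) ^ g := by
  obtain ⟨m, rfl⟩ : ∃ m, g = m + 3 := ⟨g - 3, by omega⟩
  have h1 : ∀ m : ℕ, x ^ (m + 3) + 1 < (x + 1) ^ (m + 3) := by
    intro m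
    induction m with
    | zero =>
      rw [zero_add]
      nlinarith [sq_nonneg x]
    | succ m ih =>
      have e1 : m + 1 + 3 = (m + 3) + 1 := by ring
      rw [e1, pow_succ, pow_succ (x + 1)]
      calc x ^ (m + 3) * x + 1 ≤ (x ^ (m + 3) + 1) * (x + 1) := by
            nlinarith [Nat.zero_le (x ^ (m + 3))]
        _ < (x + 1) ^ (m + 3) * (x + 1) := Nat.mul_lt_mul_of_pos_right ih (by omega)
  exact h1 m

theorem not_unit {g : ℕ} (hg : 3 ≤ g) (hodd : Odd g) {X : ℤ} (hX : 2 ≤ X.natAbs) :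
    ((X + 1) ^ g - X ^ g).natAbs ≠ 1 := by
  rcases le_or_gt 0 X with h | h
  · obtain ⟨x, rfl⟩ := Int.eq_ofNat_of_zero_le h
    have h1 := one_lt_diff hg (x := x) (by simpa using (by omega : 1 ≤ (x : ℤ).natAbs))
    have h2 : ((x : ℤ) ^ g + 1) < ((x : ℤ) + 1) ^ g := by exact_mod_cast h1
    omega
  · obtain ⟨x, hx⟩ := Int.eq_ofNat_of_zero_le (show 0 ≤ -X - 1 by omega)
    have hX' : X = -((x : ℤ) + 1) := by omega
    have hx1 : 1 ≤ x := by omega
    have h1 := one_lt_diff hg hx1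
    have h2 : ((x : ℤ) ^ g + 1) < ((x : ℤ) + 1) ^ g := by exact_mod_cast h1
    have e : (X + 1) ^ g - X ^ g = ((x : ℤ) + 1) ^ g - (x : ℤ) ^ g := by
      rw [hX']
      have e1 : -((x : ℤ) + 1) + 1 = -(x : ℤ) := by ring
      rw [e1, hodd.neg_pow, hodd.neg_pow]
      ring
    rw [e]
    omega

variable {g n : ℕ} {X Z y : ℤ} {M : ℕ} {X2 T : ℝ}

/-- the bound for `n` in the case `u = 1` -/
theorem Dat.baker (h : Dat g n X Z 1 y M X2 T) (hM : 2 ≤ M) (hX : 2 ≤ X.natAbs) {l : ℕ}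
    (hl : 4 * X.natAbs < 2 ^ l) : n < 1200000 * (Nat.log 2 n + 1) ^ 2 * l ^ 3 := by
  have hg3 := h.g3
  have hn3 := h.n3
  have hn : 0 < n := by omega
  have hZ : Z = X + 1 := by rw [h.D, one_pow]
  have hl1 : 1 ≤ l := by
    by_contra hc
    have : l = 0 := by omega
    rw [this] at hl
    omega
  have hZle : Z.natAbs ≤ 2 * X.natAbs := by omega
  have hZlt : Z.natAbs < 2 ^ l := by omega
  obtain ⟨Q, hQ⟩ : ∃ Q, Q = g / n := ⟨_, rfl⟩
  obtain ⟨r, hr⟩ : ∃ r, r = g % n := ⟨_, rfl⟩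
  have hg : g = Q * n + r := by
    have := Nat.div_add_mod g n
    rw [mul_comm] at this
    rw [hQ, hr]
    exact this.symm
  have hr0 : 0 < r := by rw [hr]; exact h.r0
  have hrn : r < n := by rw [hr]; exact h.rn
  have hrc : Nat.Coprime r n := by rw [hr]; exact h.rcop
  -- coprimality
  have hXy : IsCoprime X (y ^ n) := by
    have h1 : IsCoprime X (Z ^ g) := h.cop.pow_right
    rw [h.eq] at h1
    have e : X ^ g + y ^ n = X * X ^ (g - 1) + y ^ n := by
      rw [← pow_succ', Nat.sub_add_cancel (by omega)]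
    rw [e] at h1
    exact IsCoprime.of_mul_add_left_right (by rwa [add_comm] at h1)
  have hXy1 : IsCoprime X y := (IsCoprime.pow_right_iff hn).1 hXy
  have hZy : IsCoprime Z (y ^ n) := by
    have h1 : IsCoprime Z (X ^ g) := h.cop.symm.pow_right
    have h2 : X ^ g = Z * Z ^ (g - 1) - y ^ n := by
      rw [← pow_succ', Nat.sub_add_cancel (by omega), h.eq]
      ring
    rw [h2, sub_eq_add_neg] at h1
    have h3 := IsCoprime.of_mul_add_left_right (by rwa [add_comm] at h1)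
    exact (IsCoprime.neg_right_iff _ _).1 h3
  have hZy1 : IsCoprime Z y := (IsCoprime.pow_right_iff hn).1 hZy
  have hycop : Nat.Coprime y.natAbs M := by
    have h1 := hXy1.of_isCoprime_of_dvd_left h.MX
    have h2 := Int.isCoprime_iff_gcd_eq_one.1 h1
    have h3 : Int.gcd (M : ℤ) y = Nat.gcd M y.natAbs := by simp [Int.gcd]
    rw [h3] at h2
    exact (Nat.coprime_comm.1 h2)
  have hZcop : Nat.Coprime Z.natAbs M := by
    have h1 := h.cop.of_isCoprime_of_dvd_left h.MX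
    have h2 := Int.isCoprime_iff_gcd_eq_one.1 h1
    have h3 : Int.gcd (M : ℤ) Z = Nat.gcd M Z.natAbs := by simp [Int.gcd]
    rw [h3] at h2
    exact (Nat.coprime_comm.1 h2)
  have hZycop : Nat.Coprime Z.natAbs y.natAbs := by
    have h2 := Int.isCoprime_iff_gcd_eq_one.1 hZy1
    exact h2
  -- `y` is not a unit
  have hy1 : y.natAbs ≠ 1 := by
    intro hy
    have h1 : (y ^ n).natAbs = 1 := by rw [Int.natAbs_pow, hy, one_pow]
    have h2 : y ^ n = (X + 1) ^ g - X ^ g := by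
      have := h.eq
      rw [hZ] at this
      linarith
    rw [h2] at h1
    exact not_unit hg3 h.godd hX h1
  have hy2 : 2 ≤ y.natAbs := by
    have h1 : y.natAbs ≠ 0 := by
      rw [Int.natAbs_ne_zero]
      exact h.y0
    omega
  -- the size of `y`
  have hypow : y.natAbs ^ n < 2 ^ (l * g) := by
    have h1 : (y ^ n).natAbs ≤ (Z ^ g).natAbs + (X ^ g).natAbs := by
      have h2 : y ^ n = Z ^ g - X ^ g := by rw [h.eq]; ring
      rw [h2]
      exact Int.natAbs_sub_le _ _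
    rw [Int.natAbs_pow, Int.natAbs_pow, Int.natAbs_pow] at h1
    have h2 : Z.natAbs ^ g ≤ (2 * X.natAbs) ^ g := Nat.pow_le_pow_left hZle g
    have h3 : X.natAbs ^ g ≤ (2 * X.natAbs) ^ g := Nat.pow_le_pow_left (by omega) g
    have h4 : 2 ≤ 2 ^ g := by
      calc 2 = 2 ^ 1 := by norm_num
        _ ≤ 2 ^ g := Nat.pow_le_pow_right (by norm_num) (by omega)
    calc y.natAbs ^ n ≤ 2 * (2 * X.natAbs) ^ g := by omega
      _ ≤ 2 ^ g * (2 * X.natAbs) ^ g := Nat.mul_le_mul_right _ h4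
      _ = (4 * X.natAbs) ^ g := by rw [← mul_pow]; congr 1; ring
      _ < (2 ^ l) ^ g := Nat.pow_lt_pow_left hl (by omega)
      _ = 2 ^ (l * g) := by rw [← pow_mul]
  have hylt : y.natAbs < 2 ^ (l * (Q + 1)) := by
    apply lt_of_pow_lt_pow_left₀ n (by positivity)
    refine hypow.trans_le ?_
    rw [← pow_mul]
    apply Nat.pow_le_pow_right (by norm_num)
    rw [mul_assoc]
    apply Nat.mul_le_mul_left
    rw [hg, add_mul, one_mul]
    omega
  have hnQ : n * (Q + 1) ≤ 2 * g * l := by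
    rcases Nat.eq_zero_or_pos Q with h0 | h0
    · have h1 : 2 ^ n < 2 ^ (l * g) := lt_of_le_of_lt (Nat.pow_le_pow_left hy2 n) hypow
      have h2 := (Nat.pow_lt_pow_iff_right (by norm_num : 1 < 2)).1 h1
      rw [h0, zero_add, mul_one]
      nlinarith
    · have h1 : n * Q ≤ g := by rw [hg, mul_comm]; omega
      have h2 : n * (Q + 1) ≤ 2 * (n * Q) := by nlinarith
      have h3 : 2 * (n * Q) ≤ 2 * g := by omega
      calc n * (Q + 1) ≤ 2 * g := h2.trans h3
        _ ≤ 2 * g * l := Nat.le_mul_of_pos_right _ hl1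
  -- large `n`
  by_cases hbig : 600 * (2 * l) * (Nat.log 2 n + 1) ≤ n
  swap
  · push Not at hbig
    refine hbig.trans_le ?_
    have h1 : l ≤ l ^ 3 := Nat.le_self_pow (by norm_num) l
    have h2 : Nat.log 2 n + 1 ≤ (Nat.log 2 n + 1) ^ 2 := Nat.le_self_pow (by norm_num) _
    calc 600 * (2 * l) * (Nat.log 2 n + 1) = 1200 * ((Nat.log 2 n + 1) * l) := by ring
      _ ≤ 1200 * ((Nat.log 2 n + 1) ^ 2 * l ^ 3) := Nat.mul_le_mul_left _ (Nat.mul_le_mul h2 h1)
      _ ≤ 1200000 * ((Nat.log 2 n + 1) ^ 2 * l ^ 3) := Nat.mul_le_mul_right _ (by norm_num)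
      _ = _ := by ring
  -- the congruences
  have : NeZero M := ⟨h.M0⟩
  have hX0 : (X : ZMod M) = 0 := (ZMod.intCast_zmod_eq_zero_iff_dvd X M).2 h.MX
  have hZ1 : (Z : ZMod M) = 1 := by rw [hZ]; push_cast; rw [hX0, zero_add]
  have hyn1 : (y : ZMod M) ^ n = 1 ^ n := by
    have h1 := congrArg (Int.cast : ℤ → ZMod M) h.eq
    push_cast at h1
    rw [hX0, hZ1, one_pow, zero_pow (by omega), zero_add] at h1
    rw [one_pow]
    exact h1.symm
  have hyU : IsUnit (y : ZMod M) := by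
    apply isUnit_int
    exact (hXy1.of_isCoprime_of_dvd_left h.MX).symm
  have htot : Nat.Coprime n (Nat.totient M) := by
    have := coprime_totient h.M0 h.good 1
    rwa [pow_one] at this
  have hy1M : (y : ZMod M) = 1 := eq_of_pow_eq htot hyU isUnit_one hyn1
  have hyy : ((y.natAbs ^ 2 : ℕ) : ZMod M) = 1 := by
    have e : ((y.natAbs ^ 2 : ℕ) : ℤ) = y ^ 2 := by push_cast; exact sq_abs y
    have e2 : ((y.natAbs ^ 2 : ℕ) : ZMod M) = (((y.natAbs ^ 2 : ℕ) : ℤ) : ZMod M) := by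
      rw [Int.cast_natCast]
    rw [e2, e]
    push_cast
    rw [hy1M, one_pow]
  have hZZ : ((Z.natAbs ^ 2 : ℕ) : ZMod M) = 1 := by
    have e : ((Z.natAbs ^ 2 : ℕ) : ℤ) = Z ^ 2 := by push_cast; exact sq_abs Z
    have e2 : ((Z.natAbs ^ 2 : ℕ) : ZMod M) = (((Z.natAbs ^ 2 : ℕ) : ℤ) : ZMod M) := by
      rw [Int.cast_natCast]
    rw [e2, e]
    push_cast
    rw [hZ1, one_pow]
  have hZ0 : 0 < Z.natAbs := Int.natAbs_pos.2 h.Z0
  -- two logarithms
  have hmain := two_logs_mod (M := M) (h := 2 * l * (Q + 1)) (ν := 2 * l) (q := n) (i := r)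
    (y := g) (a := y.natAbs ^ 2) (b := (Z.natAbs ^ 2) ^ Q) (A := Z.natAbs ^ 2) hM
    (by nlinarith) (by omega) (by positivity) (by positivity) (by positivity) ?_ ?_ ?_ ?_
    (Nat.Coprime.pow_left _ hycop) (Nat.Coprime.pow_left _ (Nat.Coprime.pow_left _ hZcop))
    (Nat.Coprime.pow_left _ hZcop) ?_ ?_ hr0 hrn hrc ?_ hbig
  · -- conclusion
    have h1 : n * g ≤ 600000 * (Nat.log 2 n + 1) ^ 2 * l ^ 2 * (n * (Q + 1)) := by
      have h2 : g ≤ 600000 * (Nat.log 2 n + 1) ^ 2 * l ^ 2 * (Q + 1) := by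
        refine hmain.le.trans (le_of_eq ?_)
        ring
      calc n * g ≤ n * (600000 * (Nat.log 2 n + 1) ^ 2 * l ^ 2 * (Q + 1)) :=
            Nat.mul_le_mul_left _ h2
        _ = _ := by ring
    have h1' : n * g < 600000 * (Nat.log 2 n + 1) ^ 2 * l ^ 2 * (n * (Q + 1)) := by
      have h2 : g < 600000 * (Nat.log 2 n + 1) ^ 2 * l ^ 2 * (Q + 1) := by
        refine hmain.trans_le (le_of_eq ?_)
        ring
      calc n * g < n * (600000 * (Nat.log 2 n + 1) ^ 2 * l ^ 2 * (Q + 1)) :=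
            Nat.mul_lt_mul_of_pos_left h2 hn
        _ = _ := by ring
    have h3 : n * g < (1200000 * (Nat.log 2 n + 1) ^ 2 * l ^ 3) * g := by
      calc n * g < 600000 * (Nat.log 2 n + 1) ^ 2 * l ^ 2 * (n * (Q + 1)) := h1'
        _ ≤ 600000 * (Nat.log 2 n + 1) ^ 2 * l ^ 2 * (2 * g * l) := Nat.mul_le_mul_left _ hnQ
        _ = _ := by ring
    exact lt_of_mul_lt_mul_right h3 (Nat.zero_le g)
  · -- the bases are different
    intro hab
    have h1 : Nat.Coprime ((Z.natAbs ^ 2) ^ Q) (y.natAbs ^ 2) :=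
      Nat.Coprime.pow_left _ (Nat.Coprime.pow _ _ hZycop)
    rw [← hab] at h1
    have h2 : y.natAbs ^ 2 = 1 := (Nat.coprime_self _).1 h1
    have h3 : y.natAbs = 1 := by
      rcases Nat.pow_eq_one.1 h2 with h4 | h4
      · exact h4
      · omega
    exact hy1 h3
  · -- size of `a`
    calc y.natAbs ^ 2 < (2 ^ (l * (Q + 1))) ^ 2 := Nat.pow_lt_pow_left hylt (by norm_num)
      _ = 2 ^ (2 * l * (Q + 1)) := by rw [← pow_mul]; congr 1; ring
  · -- size of `b`
    calc (Z.natAbs ^ 2) ^ Q ≤ ((2 ^ l) ^ 2) ^ Q :=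
          Nat.pow_le_pow_left (Nat.pow_le_pow_left hZlt.le 2) Q
      _ = 2 ^ (2 * l * Q) := by rw [← pow_mul, ← pow_mul]; congr 1; ring
      _ < 2 ^ (2 * l * (Q + 1)) := by
          apply Nat.pow_lt_pow_right (by norm_num)
          nlinarith
  · -- size of `A`
    calc Z.natAbs ^ 2 < (2 ^ l) ^ 2 := Nat.pow_lt_pow_left hZlt (by norm_num)
      _ = 2 ^ (2 * l) := by rw [← pow_mul]; congr 1; ring
  · rw [← ZMod.natCast_eq_natCast_iff]
    rw [hyy]
    push_cast at hZZ ⊢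
    rw [hZZ, one_pow]
  · rw [← ZMod.natCast_eq_natCast_iff, hZZ]
    simp
  · -- the relation
    rw [← ZMod.natCast_eq_natCast_iff]
    have h1 : (((y.natAbs ^ 2) ^ n : ℕ) : ℤ) = (y ^ n) ^ 2 := by
      push_cast
      rw [sq_abs, ← pow_mul, ← pow_mul, mul_comm]
    have h2 : ((((Z.natAbs ^ 2) ^ Q) ^ n * (Z.natAbs ^ 2) ^ r : ℕ) : ℤ) = (Z ^ g) ^ 2 := by
      push_cast
      rw [sq_abs, ← pow_mul, ← pow_mul, ← pow_mul, ← pow_mul, ← pow_add, hg]
      congr 1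
      ring
    have h3 : (((y.natAbs ^ 2) ^ n : ℕ) : ZMod (M ^ g)) =
        ((((y.natAbs ^ 2) ^ n : ℕ) : ℤ) : ZMod (M ^ g)) := by rw [Int.cast_natCast]
    have h4 : ((((Z.natAbs ^ 2) ^ Q) ^ n * (Z.natAbs ^ 2) ^ r : ℕ) : ZMod (M ^ g)) =
        (((((Z.natAbs ^ 2) ^ Q) ^ n * (Z.natAbs ^ 2) ^ r : ℕ) : ℤ) : ZMod (M ^ g)) := by
      rw [Int.cast_natCast]
    rw [h3, h4, h1, h2, ← sub_eq_zero, ← Int.cast_sub, ZMod.intCast_zmod_eq_zero_iff_dvd]
    have h5 : (y ^ n) ^ 2 - (Z ^ g) ^ 2 = X ^ g * (-(y ^ n + Z ^ g)) := by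
      have := h.eq
      rw [this]
      ring
    rw [h5]
    push_cast
    exact dvd_mul_of_dvd_left (pow_dvd_pow_of_dvd h.MX g) _

end Pool.Agent.H79.FC
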