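import Mathlib
import Pool.Agent.H79.FC.UOne
import Pool.Agent.H79.FC.DefsGood

/-!
# The bases of the solutions are bounded
-/

set_option autoImplicit false

namespace Pool.Agent.H79.FC

open Finset

theorem good_mul_bad (N : ℕ) {x : ℕ} (hx : x ≠ 0) : goodPart N x * badPart N x = x := by
  rw [goodPart, badPart, Finset.prod_filter_mul_prod_filter_not]
  exact Nat.prod_factorization_pow_eq_self hx

theorem good_prime {N x p : ℕ} (hp : p.Prime) (h : p ∣ goodPart N x) :
    Nat.Coprime N (p * (p - 1)) := by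
  rw [goodPart, Prime.dvd_finsetProd_iff hp.prime] at h
  obtain ⟨q, hq, hpq⟩ := h
  rw [Finset.mem_filter] at hq
  have hqp := Nat.prime_of_mem_primeFactors hq.1
  have h1 : p = q := (Nat.prime_dvd_prime_iff_eq hp hqp).1 (hp.dvd_of_dvd_pow hpq)
  rw [h1]
  exact hq.2

theorem badPart_pow (N x : ℕ) {g : ℕ} (hg : g ≠ 0) : badPart N (x ^ g) = badPart N x ^ g := by
  rw [badPart, badPart, Nat.primeFactors_pow _ hg, ← Finset.prod_pow]
  apply Finset.prod_congr rfl
  intro p _
  rw [Nat.factorization_pow, Finsupp.smul_apply, smul_eq_mul, ← pow_mul, mul_comm]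

theorem badPart_pos (N x : ℕ) : 0 < badPart N x := by
  rw [badPart]
  apply Finset.prod_pos
  intro p hp
  rw [Finset.mem_filter] at hp
  exact pow_pos (Nat.prime_of_mem_primeFactors hp.1).pos _

theorem badPart_eq_one {N x : ℕ} (h : ∀ p : ℕ, p.Prime → p ∣ x → Nat.Coprime N (p * (p - 1))) :
    badPart N x = 1 := by
  rw [badPart, Finset.filter_false_of_mem, Finset.prod_empty]
  intro p hp
  rw [not_not]
  exact h p (Nat.prime_of_mem_primeFactors hp) (Nat.dvd_of_mem_primeFactors hp)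

/-- the difference of the roots is a power -/
theorem exists_u {g n : ℕ} {X Z y : ℤ} (gp : g.Prime) (hodd : Odd n)
    (heq : Z ^ g = X ^ g + y ^ n) (hcop : IsCoprime X Z) (hgy : ¬ (g : ℤ) ∣ y) :
    ∃ u : ℤ, Z = X + u ^ n := by
  obtain ⟨V, hV⟩ : ∃ V, V = ∑ i ∈ range g, Z ^ i * X ^ (g - 1 - i) := ⟨_, rfl⟩
  have hprod : V * (Z - X) = y ^ n := by
    rw [hV, geom_sum₂_mul]
    linarith
  have hcopV : IsCoprime (Z - X) V := by
    rw [Int.isCoprime_iff_gcd_eq_one]
    by_contra hne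
    obtain ⟨p, hp, hpd⟩ := Nat.exists_prime_and_dvd hne
    have h1 : (p : ℤ) ∣ Z - X := by
      have : (p : ℤ) ∣ (Int.gcd (Z - X) V : ℤ) := by exact_mod_cast hpd
      exact this.trans (Int.gcd_dvd_left _ _)
    have h2 : (p : ℤ) ∣ V := by
      have : (p : ℤ) ∣ (Int.gcd (Z - X) V : ℤ) := by exact_mod_cast hpd
      exact this.trans (Int.gcd_dvd_right _ _)
    have hpi : Prime (p : ℤ) := Nat.prime_iff_prime_int.1 hp
    -- modulo `p`, `V` is `g X ^ (g - 1)`
    have h3 : (p : ℤ) ∣ V - g * X ^ (g - 1) := by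
      have h4 : V - g * X ^ (g - 1) = ∑ i ∈ range g, (Z ^ i - X ^ i) * X ^ (g - 1 - i) := by
        have h5 : (g : ℤ) * X ^ (g - 1) = ∑ i ∈ range g, X ^ i * X ^ (g - 1 - i) := by
          rw [Finset.sum_congr rfl (g := fun _ => X ^ (g - 1)), Finset.sum_const, card_range,
            nsmul_eq_mul]
          intro i hi
          have := Finset.mem_range.1 hi
          rw [← pow_add]
          congr 1
          omega
        rw [hV, h5, ← Finset.sum_sub_distrib]
        apply Finset.sum_congr rfl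
        intro i _
        ring
      rw [h4]
      apply Finset.dvd_sum
      intro i _
      exact dvd_mul_of_dvd_left (h1.trans (sub_dvd_pow_sub_pow Z X i)) _
    have h4 : (p : ℤ) ∣ g * X ^ (g - 1) := by
      have := dvd_sub h2 h3
      rwa [sub_sub_cancel] at this
    rcases hpi.dvd_or_dvd h4 with h5 | h5
    · have h6 : p ∣ g := by exact_mod_cast h5
      have h7 : p = g := (Nat.prime_dvd_prime_iff_eq hp gp).1 h6
      apply hgy
      rw [← h7]
      apply hpi.dvd_of_dvd_pow (n := n)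
      rw [← hprod]
      exact dvd_mul_of_dvd_left h2 _
    · have h6 : (p : ℤ) ∣ X := hpi.dvd_of_dvd_pow h5
      have h7 : (p : ℤ) ∣ Z := by
        have := dvd_add h1 h6
        rwa [sub_add_cancel] at this
      have h8 := hcop.isUnit_of_dvd' h6 h7
      exact hpi.not_isUnit h8
  obtain ⟨⟨u, hu⟩, _⟩ := Int.eq_pow_of_mul_eq_pow_odd hcopV hodd (c := y)
    (by rw [mul_comm]; exact hprod)
  exact ⟨u, by linarith⟩

/-- the largest term -/
noncomputable def maxTerm (g n : ℕ) (X Z y : ℤ) : ℝ :=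
  max (|(X : ℝ)| ^ g) (max (|(Z : ℝ)| ^ g) (|(y : ℝ)| ^ n))

/-- the hypotheses -/
structure Hyp (g n : ℕ) (X Z y : ℤ) : Prop where
  gp : g.Prime
  g2 : g ≠ 2
  hodd : Odd n
  n3 : 3 ≤ n
  gn : ¬ g ∣ n
  eq : Z ^ g = X ^ g + y ^ n
  X0 : X ≠ 0
  Z0 : Z ≠ 0
  y0 : y ≠ 0
  cop : IsCoprime X Z
  gy : ¬ (g : ℤ) ∣ y

theorem Hyp.neg {g n : ℕ} {X Z y : ℤ} (h : Hyp g n X Z y) : Hyp g n (-X) (-Z) (-y) where
  gp := h.gp
  g2 := h.g2
  hodd := h.hodd
  n3 := h.n3
  gn := h.gn
  eq := by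
    have hg : Odd g := h.gp.odd_of_ne_two h.g2
    rw [hg.neg_pow, hg.neg_pow, h.hodd.neg_pow, h.eq]
    ring
  X0 := neg_ne_zero.2 h.X0
  Z0 := neg_ne_zero.2 h.Z0
  y0 := neg_ne_zero.2 h.y0
  cop := (IsCoprime.neg_neg_iff _ _).2 h.cop
  gy := by rw [dvd_neg]; exact h.gy

/-- the data with the good part -/
theorem Hyp.dat {g n : ℕ} {X Z y u : ℤ} (h : Hyp g n X Z y) (hu : Z = X + u ^ n) (hu0 : 0 < u) :
    Dat g n X Z u y (goodPart n X.natAbs) (badPart n X.natAbs) (max |(X : ℝ)| ((u : ℝ) ^ n)) := by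
  have hX : X.natAbs ≠ 0 := Int.natAbs_ne_zero.2 h.X0
  have h1 := good_mul_bad n hX
  exact
  { gp := h.gp
    g2 := h.g2
    hodd := h.hodd
    n3 := h.n3
    gn := h.gn
    eq := h.eq
    D := hu
    u0 := hu0
    X0 := h.X0
    Z0 := h.Z0
    y0 := h.y0
    cop := h.cop
    M0 := by
      intro h2
      rw [h2, zero_mul] at h1
      exact hX h1.symm
    MX := by
      rw [← Int.dvd_natAbs]
      exact_mod_cast Dvd.intro _ h1
    good := fun p hp hpd => good_prime hp hpd
    XM := by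
      have h2 : |(X : ℝ)| = ((X.natAbs : ℕ) : ℝ) := by
        rw [Nat.cast_natAbs]
        push_cast
        rfl
      rw [h2, ← Nat.cast_mul, h1]
    TT := rfl }

/-- the largest term is at most `(4 T) ^ g` -/
theorem Hyp.maxTerm_le {g n : ℕ} {X Z y u : ℤ} (h : Hyp g n X Z y) (hu : Z = X + u ^ n)
    (hu0 : 0 < u) : maxTerm g n X Z y ≤ (4 * max |(X : ℝ)| ((u : ℝ) ^ n)) ^ g := by
  obtain ⟨T, hT⟩ : ∃ T, T = max |(X : ℝ)| ((u : ℝ) ^ n) := ⟨_, rfl⟩
  rw [← hT]
  have hXT : |(X : ℝ)| ≤ T := by rw [hT]; exact le_max_left _ _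
  have hDT : (u : ℝ) ^ n ≤ T := by rw [hT]; exact le_max_right _ _
  have hu1 : (1 : ℝ) ≤ (u : ℝ) := by exact_mod_cast hu0
  have hT1 : 1 ≤ T := (one_le_pow₀ hu1).trans hDT
  have hZR : (Z : ℝ) = X + (u : ℝ) ^ n := by rw [hu]; push_cast; rfl
  have hZT : |(Z : ℝ)| ≤ 2 * T := by
    rw [hZR]
    refine (abs_add_le _ _).trans ?_
    rw [abs_of_pos (by positivity : (0 : ℝ) < (u : ℝ) ^ n)]
    linarith
  have hg1 : 1 ≤ g := h.gp.one_lt.le
  have h4 : (2 * T) ^ g * 2 ≤ (4 * T) ^ g := by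
    have e : (4 * T) ^ g = (2 * T) ^ g * 2 ^ g := by
      rw [← mul_pow]
      congr 1
      ring
    rw [e]
    apply mul_le_mul_of_nonneg_left _ (by positivity)
    exact le_self_pow₀ (by norm_num) (by omega)
  have hXg : |(X : ℝ)| ^ g ≤ (2 * T) ^ g := pow_le_pow_left₀ (abs_nonneg _) (by linarith) g
  have hZg : |(Z : ℝ)| ^ g ≤ (2 * T) ^ g := pow_le_pow_left₀ (abs_nonneg _) hZT g
  have h2T : 0 < (2 * T) ^ g := by positivity
  have heqR : (Z : ℝ) ^ g = (X : ℝ) ^ g + (y : ℝ) ^ n := by exact_mod_cast h.eq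
  have hyg : |(y : ℝ)| ^ n ≤ (2 * T) ^ g * 2 := by
    have e : (y : ℝ) ^ n = (Z : ℝ) ^ g - (X : ℝ) ^ g := by linarith
    rw [← abs_pow, e]
    refine (abs_sub _ _).trans ?_
    rw [abs_pow, abs_pow]
    linarith
  rw [maxTerm]
  refine max_le (by linarith) (max_le (by linarith) (by linarith))

theorem Hyp.one_le_maxTerm {g n : ℕ} {X Z y : ℤ} (h : Hyp g n X Z y) : 1 ≤ maxTerm g n X Z y := by
  rw [maxTerm]
  apply le_max_of_le_left
  apply one_le_pow₀
  have := Int.one_le_abs h.X0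
  exact_mod_cast this

/-- numerical lemma -/
theorem exists_bound {ε : ℝ} (hε : 0 < ε) : ∃ n₀ : ℕ, ∀ n : ℕ, n₀ ≤ n →
    Real.log (768 * n) < ε * (n * Real.log 2) ∧
      (1200000 * (Real.log n / Real.log 2 + 1) ^ 2 *
        ((Real.log 4 + Real.log (768 * n) / ε) / Real.log 2 + 1) ^ 3 < n) := by
  have hl2 : 0 < Real.log 2 := Real.log_pos (by norm_num)
  have h1 : Filter.Tendsto (fun x : ℝ => Real.log x / x) Filter.atTop (nhds 0) := by
    have := Real.isLittleO_log_id_atTop.tendsto_div_nhds_zero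
    exact this
  have h5 : Filter.Tendsto (fun x : ℝ => Real.log x ^ 5 / x) Filter.atTop (nhds 0) := by
    have := (Real.isLittleO_pow_log_id_atTop (n := 5)).tendsto_div_nhds_zero
    exact this
  obtain ⟨c, hc⟩ : ∃ c : ℝ, c = min (ε * Real.log 2 / 2) 1 := ⟨_, rfl⟩
  have hc0 : 0 < c := by rw [hc]; positivity
  obtain ⟨K, hK⟩ : ∃ K : ℝ, K = 1200000 * (1 / Real.log 2 + 1) ^ 2 *
      ((1 + 2 / ε) / Real.log 2 + 1) ^ 3 := ⟨_, rfl⟩
  have hK0 : 0 < K := by rw [hK]; positivity
  have hK1 : (0 : ℝ) < 1 / K := by positivity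
  have e1 := (h1.eventually (gt_mem_nhds hc0)).and ((h5.eventually (gt_mem_nhds hK1)).and
    (Filter.eventually_ge_atTop (768 : ℝ)))
  obtain ⟨x₀, hx₀⟩ := Filter.eventually_atTop.1 e1
  obtain ⟨n₀, hn₀⟩ := exists_nat_ge x₀
  refine ⟨n₀, fun n hn => ?_⟩
  have hnx : x₀ ≤ (n : ℝ) := hn₀.trans (by exact_mod_cast hn)
  obtain ⟨h2, h3, h4⟩ := hx₀ n hnx
  have hn0 : (0 : ℝ) < n := by linarith
  have hlog768 : Real.log (768 * n) ≤ 2 * Real.log n := by
    rw [Real.log_mul (by norm_num) hn0.ne']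
    have := Real.log_le_log (by norm_num) h4
    linarith
  have hlog4 : Real.log 4 ≤ Real.log n := Real.log_le_log (by norm_num) (by linarith)
  have hlog1 : 1 ≤ Real.log n := by
    have h6 : Real.exp 1 ≤ n := by
      have := Real.exp_one_lt_d9
      linarith
    rwa [Real.le_log_iff_exp_le hn0]
  constructor
  · rw [div_lt_iff₀ hn0] at h2
    have h6 : c ≤ ε * Real.log 2 / 2 := by rw [hc]; exact min_le_left _ _
    have h7 : c * n ≤ ε * Real.log 2 / 2 * n := mul_le_mul_of_nonneg_right h6 hn0.le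
    calc Real.log (768 * n) ≤ 2 * Real.log n := hlog768
      _ < 2 * (c * n) := by linarith
      _ ≤ 2 * (ε * Real.log 2 / 2 * n) := by linarith
      _ = _ := by ring
  · rw [div_lt_div_iff₀ hn0 hK0] at h3
    have h6 : Real.log n / Real.log 2 + 1 ≤ (1 / Real.log 2 + 1) * Real.log n := by
      have : (1 / Real.log 2 + 1) * Real.log n = Real.log n / Real.log 2 + Real.log n := by ring
      rw [this]
      linarith
    have h7 : (Real.log 4 + Real.log (768 * n) / ε) / Real.log 2 + 1 ≤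
        ((1 + 2 / ε) / Real.log 2 + 1) * Real.log n := by
      have h8 : (Real.log 4 + Real.log (768 * n) / ε) ≤ (1 + 2 / ε) * Real.log n := by
        have h9 : Real.log (768 * n) / ε ≤ 2 * Real.log n / ε :=
          div_le_div_of_nonneg_right hlog768 hε.le
        have h10 : (1 + 2 / ε) * Real.log n = Real.log n + 2 * Real.log n / ε := by ring
        rw [h10]
        linarith
      have h9 : (Real.log 4 + Real.log (768 * n) / ε) / Real.log 2 ≤
          (1 + 2 / ε) * Real.log n / Real.log 2 := div_le_div_of_nonneg_right h8 hl2.le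
      have h10 : ((1 + 2 / ε) / Real.log 2 + 1) * Real.log n =
          (1 + 2 / ε) * Real.log n / Real.log 2 + Real.log n := by ring
      rw [h10]
      linarith
    have h8 : 0 ≤ Real.log n / Real.log 2 + 1 := by positivity
    have h9 : 0 ≤ (Real.log 4 + Real.log (768 * n) / ε) / Real.log 2 + 1 := by
      have : 0 ≤ Real.log (768 * n) := Real.log_nonneg (by linarith)
      have : 0 ≤ Real.log 4 := Real.log_nonneg (by norm_num)
      positivity
    calc 1200000 * (Real.log n / Real.log 2 + 1) ^ 2 *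
        ((Real.log 4 + Real.log (768 * n) / ε) / Real.log 2 + 1) ^ 3
        ≤ 1200000 * ((1 / Real.log 2 + 1) * Real.log n) ^ 2 *
          (((1 + 2 / ε) / Real.log 2 + 1) * Real.log n) ^ 3 := by
          apply mul_le_mul _ (pow_le_pow_left₀ h9 h7 3) (by positivity) (by positivity)
          exact mul_le_mul_of_nonneg_left (pow_le_pow_left₀ h8 h6 2) (by norm_num)
      _ = K * Real.log n ^ 5 := by rw [hK]; ring
      _ < n := by linarith

/-- the bases are bounded: positive `u` -/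
theorem bound_pos {ε : ℝ} (hε : 0 < ε) (hε1 : ε ≤ 1 / 9) : ∃ T₀ : ℝ, ∀ (g n : ℕ) (X Z y u : ℤ),
    Hyp g n X Z y → Z = X + u ^ n → 0 < u →
    (badPart n X.natAbs : ℝ) ^ g ≤ (maxTerm g n X Z y) ^ (expo n - ε) →
    max |(X : ℝ)| ((u : ℝ) ^ n) ≤ T₀ := by
  obtain ⟨n₀, hn₀⟩ := exists_bound hε
  refine ⟨max 4 (Real.exp (Real.log (768 * n₀) / ε)), ?_⟩
  intro g n X Z y u h hu hu0 hbad
  have hdat := h.dat hu hu0
  obtain ⟨T, hT⟩ : ∃ T, T = max |(X : ℝ)| ((u : ℝ) ^ n) := ⟨_, rfl⟩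
  have hmax := h.maxTerm_le hu hu0
  rw [← hT] at hdat hmax ⊢
  have hT1 := hdat.T1
  have hT0 : 0 < T := by linarith
  have hn3 := h.n3
  have hg3 := hdat.g3
  have hn1 : (3 : ℝ) ≤ n := by exact_mod_cast hn3
  have hn0 : (0 : ℝ) < n := by linarith
  have hδ0 : 0 ≤ expo n - ε := by
    rw [expo]
    split_ifs with h3
    · linarith
    · have hn5 : 5 ≤ n := by
        obtain ⟨k, hk⟩ := h.hodd
        omega
      have hn5' : (5 : ℝ) ≤ n := by exact_mod_cast hn5
      have h2 : 1 / (n : ℝ) ≤ 1 / 5 := one_div_le_one_div_of_le (by norm_num) hn5'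
      linarith
  have hδ1 : expo n - ε ≤ 1 / 2 := by
    have := expo_le n
    linarith
  -- the bad part
  have hX2 : (badPart n X.natAbs : ℝ) ≤ 2 * T ^ (expo n - ε) := by
    have h1 : (badPart n X.natAbs : ℝ) ^ g ≤ ((4 * T) ^ (expo n - ε)) ^ g := by
      refine hbad.trans ?_
      have h2 : (maxTerm g n X Z y) ^ (expo n - ε) ≤ ((4 * T) ^ g) ^ (expo n - ε) :=
        Real.rpow_le_rpow (by linarith [h.one_le_maxTerm]) hmax hδ0
      refine h2.trans (le_of_eq ?_)
      rw [← Real.rpow_natCast, ← Real.rpow_natCast, ← Real.rpow_mul (by positivity),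
        ← Real.rpow_mul (by positivity), mul_comm (g : ℝ)]
    have h2 := le_of_pow_le_pow_left₀ (by omega : g ≠ 0) (by positivity) h1
    refine h2.trans ?_
    rw [Real.mul_rpow (by norm_num) hT0.le]
    apply mul_le_mul_of_nonneg_right _ (by positivity)
    calc (4 : ℝ) ^ (expo n - ε) ≤ 4 ^ (1 / 2 : ℝ) :=
          Real.rpow_le_rpow_of_exponent_le (by norm_num) hδ1
      _ = 2 := by
          rw [← Real.sqrt_eq_rpow, show (4 : ℝ) = 2 ^ 2 by norm_num, Real.sqrt_sq (by norm_num)]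
  have hTb := hdat.T_bound hX2
  have hlogT : Real.log T ≤ Real.log (768 * n) / ε := by
    rw [le_div_iff₀ hε]
    linarith
  -- the case of small `n`
  by_cases hn : n < n₀
  · apply le_max_of_le_right
    rw [← Real.log_le_log_iff hT0 (Real.exp_pos _), Real.log_exp]
    refine hlogT.trans ?_
    apply div_le_div_of_nonneg_right _ hε.le
    apply Real.log_le_log (by positivity)
    have : (n : ℝ) ≤ n₀ := by exact_mod_cast hn.le
    linarith
  · push Not at hn
    obtain ⟨hA, hB⟩ := hn₀ n hn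
    have hl2 : 0 < Real.log 2 := Real.log_pos (by norm_num)
    have hu1 : u = 1 := by
      by_contra hne
      have hu2 : 2 ≤ u := by omega
      have h1 : (2 : ℝ) ^ n ≤ T := by
        rw [hT]
        refine le_max_of_le_right (pow_le_pow_left₀ (by norm_num) ?_ n)
        exact_mod_cast hu2
      have h2 := Real.log_le_log (by positivity) h1
      rw [Real.log_pow] at h2
      have h3 := mul_le_mul_of_nonneg_left h2 hε.le
      linarith
    apply le_max_of_le_left
    by_contra hT4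
    push Not at hT4
    rw [hu1] at hdat hT hu
    have hXT : T = |(X : ℝ)| := by
      rw [hT]
      apply max_eq_left
      rw [Int.cast_one, one_pow]
      have := Int.one_le_abs h.X0
      exact_mod_cast this
    have hXabs : |(X : ℝ)| = ((X.natAbs : ℕ) : ℝ) := by
      rw [Nat.cast_natAbs]
      push_cast
      rfl
    have hX4 : 4 < X.natAbs := by
      rw [hXT, hXabs] at hT4
      exact_mod_cast hT4
    -- the good part is at least `2`
    have hM2 : 2 ≤ goodPart n X.natAbs := by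
      by_contra hc
      have h0 := hdat.M0
      have h1 : goodPart n X.natAbs = 1 := by omega
      have h2 := good_mul_bad n (x := X.natAbs) (by omega)
      rw [h1, one_mul] at h2
      rw [h2, ← hXabs, ← hXT] at hX2
      have h3 : T ^ (expo n - ε) ≤ T ^ (1 / 2 : ℝ) := Real.rpow_le_rpow_of_exponent_le hT1 hδ1
      have h4 : T ^ (1 / 2 : ℝ) * T ^ (1 / 2 : ℝ) = T := by
        rw [← Real.rpow_add hT0]
        norm_num
      have h5 : 0 < T ^ (1 / 2 : ℝ) := by positivity
      have h6 : T ^ (1 / 2 : ℝ) ≤ 2 := by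
        have h7 : T ^ (1 / 2 : ℝ) * T ^ (1 / 2 : ℝ) ≤ 2 * T ^ (1 / 2 : ℝ) := by
          rw [h4]
          linarith
        exact le_of_mul_le_mul_right h7 h5
      nlinarith
    have hl := Nat.lt_pow_succ_log_self (b := 2) (by norm_num) (4 * X.natAbs)
    have hmain := hdat.baker hM2 (by omega) hl
    -- real form
    have h1 : (n : ℝ) < 1200000 * ((Nat.log 2 n : ℝ) + 1) ^ 2 *
        ((Nat.log 2 (4 * X.natAbs) : ℝ) + 1) ^ 3 := by exact_mod_cast hmain
    have h2 : (Nat.log 2 n : ℝ) ≤ Real.log n / Real.log 2 := by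
      rw [le_div_iff₀ hl2, ← Real.log_pow]
      apply Real.log_le_log (by positivity)
      exact_mod_cast Nat.pow_log_le_self 2 (by omega : n ≠ 0)
    have h3 : (Nat.log 2 (4 * X.natAbs) : ℝ) ≤
        (Real.log 4 + Real.log (768 * n) / ε) / Real.log 2 := by
      rw [le_div_iff₀ hl2, ← Real.log_pow]
      have h4 : Real.log ((2 : ℝ) ^ Nat.log 2 (4 * X.natAbs)) ≤ Real.log (4 * T) := by
        apply Real.log_le_log (by positivity)
        rw [hXT, hXabs]
        exact_mod_cast Nat.pow_log_le_self 2 (by omega : 4 * X.natAbs ≠ 0)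
      rw [Real.log_mul (by norm_num) hT0.ne'] at h4
      linarith
    have h4 : 1200000 * ((Nat.log 2 n : ℝ) + 1) ^ 2 *
        ((Nat.log 2 (4 * X.natAbs) : ℝ) + 1) ^ 3 ≤
        1200000 * (Real.log n / Real.log 2 + 1) ^ 2 *
        ((Real.log 4 + Real.log (768 * n) / ε) / Real.log 2 + 1) ^ 3 := by
      apply mul_le_mul
      · apply mul_le_mul_of_nonneg_left _ (by norm_num)
        exact pow_le_pow_left₀ (by positivity) (by linarith) 2
      · exact pow_le_pow_left₀ (by positivity) (by linarith) 3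
      · positivity
      · positivity
    linarith

/-- **The bases are bounded.** -/
theorem bound {ε : ℝ} (hε : 0 < ε) : ∃ T₀ : ℕ, ∀ (g n : ℕ) (X Z y : ℤ),
    Hyp g n X Z y → (badPart n X.natAbs : ℝ) ^ g ≤ (maxTerm g n X Z y) ^ (expo n - ε) →
    X.natAbs ≤ T₀ ∧ Z.natAbs ≤ T₀ := by
  obtain ⟨T₀, hT₀⟩ := bound_pos (ε := min ε (1 / 9)) (by positivity) (min_le_right _ _)
  obtain ⟨T₁, hT₁⟩ := exists_nat_ge (2 * T₀)
  refine ⟨T₁, ?_⟩
  have key : ∀ (g n : ℕ) (X Z y u : ℤ), Hyp g n X Z y → Z = X + u ^ n → 0 < u →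
      (badPart n X.natAbs : ℝ) ^ g ≤ (maxTerm g n X Z y) ^ (expo n - ε) →
      X.natAbs ≤ T₁ ∧ Z.natAbs ≤ T₁ := by
    intro g n X Z y u h hu hu0 hbad
    have h1 := hT₀ g n X Z y u h hu hu0 (by
      refine hbad.trans ?_
      apply Real.rpow_le_rpow_of_exponent_le h.one_le_maxTerm
      have := min_le_left ε (1 / 9)
      linarith)
    have hXT : |(X : ℝ)| ≤ T₀ := (le_max_left _ _).trans h1
    have hDT : (u : ℝ) ^ n ≤ T₀ := (le_max_right _ _).trans h1
    have hu1 : (0 : ℝ) < (u : ℝ) ^ n := by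
      have : (0 : ℝ) < (u : ℝ) := by exact_mod_cast hu0
      positivity
    have hZ : |(Z : ℝ)| ≤ 2 * T₀ := by
      have hZR : (Z : ℝ) = X + (u : ℝ) ^ n := by rw [hu]; push_cast; rfl
      rw [hZR]
      refine (abs_add_le _ _).trans ?_
      rw [abs_of_pos hu1]
      linarith
    have hXabs : |(X : ℝ)| = ((X.natAbs : ℕ) : ℝ) := by
      rw [Nat.cast_natAbs]
      push_cast
      rfl
    have hZabs : |(Z : ℝ)| = ((Z.natAbs : ℕ) : ℝ) := by
      rw [Nat.cast_natAbs]
      push_cast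
      rfl
    constructor
    · have : ((X.natAbs : ℕ) : ℝ) ≤ T₁ := by
        rw [← hXabs]
        linarith [abs_nonneg (X : ℝ)]
      exact_mod_cast this
    · have : ((Z.natAbs : ℕ) : ℝ) ≤ T₁ := by
        rw [← hZabs]
        linarith
      exact_mod_cast this
  intro g n X Z y h hbad
  obtain ⟨u, hu⟩ := exists_u h.gp h.hodd h.eq h.cop h.gy
  have hn0 : n ≠ 0 := by
    have := h.n3
    omega
  rcases lt_trichotomy u 0 with hu0 | hu0 | hu0
  · have h1 := key g n (-X) (-Z) (-y) (-u) h.neg (by rw [h.hodd.neg_pow, hu]; ring) (by omega) (by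
      rw [Int.natAbs_neg]
      refine hbad.trans (le_of_eq ?_)
      rw [maxTerm, maxTerm]
      push_cast
      rw [abs_neg, abs_neg, abs_neg])
    rwa [Int.natAbs_neg, Int.natAbs_neg] at h1
  · exfalso
    rw [hu0, zero_pow hn0, add_zero] at hu
    have h1 := h.eq
    rw [hu] at h1
    have h2 : y ^ n = 0 := by linarith
    exact h.y0 (pow_eq_zero_iff hn0 |>.1 h2)
  · exact key g n X Z y u h hu hu0 hbad

/-- **Explicit form.** If all primes `p` of `X` have `gcd (n, p (p - 1)) = 1` and `n ≥ 17`, then the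
roots are consecutive. -/
theorem explicit {g n : ℕ} {X Z y : ℤ} (h : Hyp g n X Z y) (hn : 17 ≤ n)
    (hgood : ∀ p : ℕ, p.Prime → p ∣ X.natAbs → Nat.Coprime n (p * (p - 1))) :
    (Z - X).natAbs = 1 := by
  have hbad : ((badPart n X.natAbs : ℕ) : ℝ) = 1 := by rw [badPart_eq_one hgood, Nat.cast_one]
  obtain ⟨u, hu⟩ := exists_u h.gp h.hodd h.eq h.cop h.gy
  have hn0 : n ≠ 0 := by
    have := h.n3
    omega
  rcases lt_trichotomy u 0 with hu0 | hu0 | hu0
  · have h1 := (h.neg.dat (u := -u) (by rw [h.hodd.neg_pow, hu]; ring) (by omega)).u_one (by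
      rw [Int.natAbs_neg]; exact hbad) hn
    have h2 : u = -1 := by omega
    rw [hu, h2, h.hodd.neg_pow, one_pow]
    simp
  · exfalso
    rw [hu0, zero_pow hn0, add_zero] at hu
    have h1 := h.eq
    rw [hu] at h1
    have h2 : y ^ n = 0 := by linarith
    exact h.y0 (pow_eq_zero_iff hn0 |>.1 h2)
  · have h1 := (h.dat hu hu0).u_one hbad hn
    rw [hu, h1, one_pow]
    simp

end Pool.Agent.H79.FC
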