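import Mathlib

/-!
# A zero estimate

Let `F(ξ, η) = ∑ c i h ξ ^ h η ^ i` (`i ≤ s`, `h < m`) be a nonzero polynomial, `g` prime to `n`, `s < n`.
If `F` vanishes along the derivation `n ξ ∂/∂ξ + g η ∂/∂η` to the order `σ` at `(1, 1)` and to the order
`K` at `(ξ₀, η₀)`, `ξ₀ ≠ 0, 1`, `η₀ ≠ 0`, then `σ + K ≤ (s + 1) m + s - 1`.
-/

set_option autoImplicit false

namespace Pool.Agent.H79.FC.GP

open Polynomial Finset

section basis

variable {F : Type*} [Field F] [CharZero F]

omit [CharZero F] in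
/-- change of the basis of the polynomials of degree `< K` -/
theorem sum_poly_zero {ι : Type*} (S : Finset ι) (a : ι → F) (e : ι → ℕ) {K : ℕ}
    (h : ∀ k < K, ∑ i ∈ S, a i * (Nat.choose (e i) k : F) = 0) (P : F[X]) (hP : P.natDegree < K) :
    ∑ i ∈ S, a i * P.eval (e i : F) = 0 := by
  obtain ⟨d, hd⟩ : ∃ d, d = P.natDegree := ⟨_, rfl⟩
  induction d using Nat.strong_induction_on generalizing P with
  | _ d ih =>
    obtain ⟨B, hB⟩ : ∃ B : F[X], B = descPochhammer F d := ⟨_, rfl⟩
    have hBm : B.Monic := by rw [hB]; exact monic_descPochhammer F d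
    have hBd : B.natDegree = d := by rw [hB]; exact descPochhammer_natDegree F d
    have hBe : ∀ i ∈ S, B.eval (e i : F) = (d.factorial : F) * (Nat.choose (e i) d : F) := by
      intro i _
      rw [hB, descPochhammer_eval_eq_descFactorial, Nat.descFactorial_eq_factorial_mul_choose]
      push_cast
      rfl
    have hB0 : ∑ i ∈ S, a i * B.eval (e i : F) = 0 := by
      have h1 : ∑ i ∈ S, a i * B.eval (e i : F) =
          (d.factorial : F) * ∑ i ∈ S, a i * (Nat.choose (e i) d : F) := by
        rw [Finset.mul_sum]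
        apply Finset.sum_congr rfl
        intro i hi
        rw [hBe i hi]
        ring
      rw [h1, h d (by omega), mul_zero]
    obtain ⟨R, hR⟩ : ∃ R : F[X], R = P - C P.leadingCoeff * B := ⟨_, rfl⟩
    have hPR : P = R + C P.leadingCoeff * B := by rw [hR]; ring
    have hsum : ∑ i ∈ S, a i * P.eval (e i : F) = ∑ i ∈ S, a i * R.eval (e i : F) := by
      conv_lhs => rw [hPR]
      have : ∀ i ∈ S, a i * (R + C P.leadingCoeff * B).eval (e i : F) =
          a i * R.eval (e i : F) + P.leadingCoeff * (a i * B.eval (e i : F)) := by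
        intro i _
        rw [eval_add, eval_mul, eval_C]
        ring
      rw [Finset.sum_congr rfl this, Finset.sum_add_distrib, ← Finset.mul_sum, hB0, mul_zero,
        add_zero]
    rw [hsum]
    rcases Nat.eq_zero_or_pos d with hd0 | hd0
    · have hB1 : B = 1 := by
        rw [hB, hd0, descPochhammer_zero]
      have hR0 : R = 0 := by
        rw [hR, hB1, mul_one]
        have := eq_C_of_natDegree_eq_zero (hd.symm.trans hd0)
        rw [sub_eq_zero]
        conv_lhs => rw [this]
        rw [leadingCoeff, ← hd, hd0]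
      rw [hR0]
      simp
    · have hRd : R.natDegree < d := by
        have hc : R.coeff d = 0 := by
          rw [hR, coeff_sub, coeff_C_mul]
          have h1 : B.coeff d = 1 := by
            have := hBm.coeff_natDegree
            rwa [hBd] at this
          rw [h1, leadingCoeff, ← hd]
          ring
        have hle : R.natDegree ≤ d := by
          rw [hR]
          refine (natDegree_sub_le _ _).trans (max_le hd.symm.le ?_)
          refine (natDegree_C_mul_le _ _).trans hBd.le
        rcases Nat.lt_or_ge R.natDegree d with h1 | h1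
        · exact h1
        · exfalso
          have h2 : R.natDegree = d := le_antisymm hle h1
          have h3 : R.leadingCoeff = 0 := by rw [leadingCoeff, h2]; exact hc
          rw [leadingCoeff_eq_zero] at h3
          rw [h3, natDegree_zero] at h2
          omega
      exact ih R.natDegree hRd R (by omega) rfl

end basis

section deriv

variable {F : Type*} [Field F]

/-- the operator `X d/dX` -/
noncomputable def DD (G : F[X]) : F[X] := X * derivative G

theorem DD_add (G H : F[X]) : DD (G + H) = DD G + DD H := by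
  rw [DD, DD, DD, derivative_add, mul_add]

theorem DD_sum {ι : Type*} (S : Finset ι) (G : ι → F[X]) : DD (∑ i ∈ S, G i) = ∑ i ∈ S, DD (G i) := by
  rw [DD, derivative_sum, Finset.mul_sum]
  rfl

theorem DD_monomial (a : F) (e : ℕ) : DD (C a * X ^ e) = C (a * e) * X ^ e := by
  rw [DD, derivative_C_mul_X_pow]
  rcases Nat.eq_zero_or_pos e with h | h
  · subst h
    simp
  · obtain ⟨f, rfl⟩ : ∃ f, e = f + 1 := ⟨e - 1, by omega⟩
    rw [Nat.add_sub_cancel, pow_succ]
    ring

theorem DD_pow_mul (a : ℕ) (w : F) (Q : F[X]) :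
    DD ((X - C w) ^ (a + 1) * Q) =
      (X - C w) ^ a * (((a + 1 : ℕ) : F[X]) * X * Q + (X - C w) * DD Q) := by
  rw [DD, DD, derivative_mul, derivative_pow]
  simp only [derivative_sub, derivative_X, derivative_C, sub_zero, mul_one, Nat.add_sub_cancel]
  rw [pow_succ, C_eq_natCast]
  ring

theorem eval_DD_iter (w : F) (K : ℕ) (Q : F[X]) :
    eval w (DD^[K] ((X - C w) ^ K * Q)) = (K.factorial : F) * w ^ K * eval w Q := by
  induction K generalizing Q with
  | zero => simp
  | succ K ih =>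
    rw [Function.iterate_succ_apply, DD_pow_mul, ih, eval_add, eval_mul, eval_mul, eval_mul,
      eval_X, eval_sub, eval_X, eval_C, sub_self, zero_mul, add_zero, Nat.factorial_succ,
      eval_natCast]
    push_cast
    ring

theorem DD_dvd_one {w : F} {b : ℕ} {H : F[X]} (h : (X - C w) ^ b ∣ H) :
    (X - C w) ^ (b - 1) ∣ DD H := by
  rcases Nat.eq_zero_or_pos b with h0 | h0
  · subst h0
    simp
  · obtain ⟨a, rfl⟩ : ∃ a, b = a + 1 := ⟨b - 1, by omega⟩
    obtain ⟨Q, rfl⟩ := h
    rw [DD_pow_mul, Nat.add_sub_cancel]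
    exact dvd_mul_right _ _

theorem DD_dvd {w : F} {b : ℕ} {H : F[X]} (h : (X - C w) ^ b ∣ H) (k : ℕ) :
    (X - C w) ^ (b - k) ∣ DD^[k] H := by
  induction k with
  | zero => simpa using h
  | succ k ih =>
    rw [Function.iterate_succ_apply']
    have := DD_dvd_one ih
    rwa [Nat.sub_sub] at this

theorem dvd_of_DD [CharZero F] {w : F} (hw : w ≠ 0) {G : F[X]} {K : ℕ}
    (h : ∀ k < K, eval w (DD^[k] G) = 0) : (X - C w) ^ K ∣ G := by
  induction K with
  | zero => simp
  | succ K ih =>
    obtain ⟨Q, hQ⟩ := ih (fun k hk => h k (by omega))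
    have h1 := h K (by omega)
    rw [hQ, eval_DD_iter] at h1
    have h2 : (K.factorial : F) * w ^ K ≠ 0 := by
      apply mul_ne_zero _ (pow_ne_zero _ hw)
      exact_mod_cast Nat.factorial_ne_zero K
    have h3 : eval w Q = 0 := (mul_eq_zero.1 h1).resolve_left h2
    obtain ⟨Q', hQ'⟩ := dvd_iff_isRoot.2 h3
    refine ⟨Q', ?_⟩
    rw [hQ, hQ', pow_succ]
    ring

end deriv

section expand

variable {F : Type*} [Field F] [CharZero F]

theorem dvd_of_expand {n : ℕ} (hn : 0 < n) {w : F} (hw : w ≠ 0) {V : F[X]} (hV : V ≠ 0) {j : ℕ}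
    (h : (X - C w) ^ j ∣ expand F n V) : (X - C (w ^ n)) ^ j ∣ V := by
  obtain ⟨V1, hV1, hV1n⟩ := exists_eq_pow_rootMultiplicity_mul_and_not_dvd V hV (w ^ n)
  obtain ⟨a, ha⟩ : ∃ a, a = rootMultiplicity (w ^ n) V := ⟨_, rfl⟩
  rw [← ha] at hV1
  by_cases hja : j ≤ a
  · rw [hV1]
    exact dvd_mul_of_dvd_left (pow_dvd_pow _ hja) _
  · exfalso
    push Not at hja
    -- factorisation of `X ^ n - w ^ n`
    obtain ⟨Q, hQ⟩ : ∃ Q : F[X], Q = ∑ i ∈ range n, X ^ i * C w ^ (n - 1 - i) := ⟨_, rfl⟩
    have hfac : (X : F[X]) ^ n - C (w ^ n) = Q * (X - C w) := by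
      rw [hQ, geom_sum₂_mul, map_pow]
    have hQw : eval w Q ≠ 0 := by
      rw [hQ, eval_finsetSum]
      have h1 : ∀ i ∈ range n, eval w ((X : F[X]) ^ i * C w ^ (n - 1 - i)) = w ^ (n - 1) := by
        intro i hi
        have hi' := Finset.mem_range.1 hi
        rw [eval_mul, eval_pow, eval_pow, eval_X, eval_C, ← pow_add]
        congr 1
        omega
      rw [Finset.sum_congr rfl h1, Finset.sum_const, card_range, nsmul_eq_mul]
      apply mul_ne_zero _ (pow_ne_zero _ hw)
      exact_mod_cast hn.ne'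
    have hV1w : eval w (expand F n V1) ≠ 0 := by
      rw [expand_eval]
      intro h0
      exact hV1n (dvd_iff_isRoot.2 h0)
    have hexp : expand F n V = (X - C w) ^ a * (Q ^ a * expand F n V1) := by
      conv_lhs => rw [hV1]
      rw [map_mul, map_pow, map_sub, expand_X, expand_C, hfac, mul_pow]
      ring
    rw [hexp] at h
    obtain ⟨b, hb⟩ := Nat.exists_eq_add_of_lt hja
    have h2 : (X - C w) ^ a * (X - C w) ^ (b + 1) ∣ (X - C w) ^ a * (Q ^ a * expand F n V1) := by
      rw [← pow_add]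
      have : a + (b + 1) = j := by omega
      rwa [this]
    have h3 := (mul_dvd_mul_iff_left (pow_ne_zero a (X_sub_C_ne_zero w))).1 h2
    have h4 : (X - C w) ∣ Q ^ a * expand F n V1 :=
      (dvd_pow_self _ (by omega)).trans h3
    have h5 := dvd_iff_isRoot.1 h4
    rw [IsRoot, eval_mul, eval_pow] at h5
    exact mul_ne_zero (pow_ne_zero _ hQw) hV1w h5

end expand

section det

variable {R : Type*} [CommRing R]

theorem coeff_prod_top {ι : Type*} (S : Finset ι) (f : ι → R[X]) (δ : ι → ℕ)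
    (h : ∀ i ∈ S, (f i).natDegree ≤ δ i) :
    (∏ i ∈ S, f i).natDegree ≤ ∑ i ∈ S, δ i ∧
      (∏ i ∈ S, f i).coeff (∑ i ∈ S, δ i) = ∏ i ∈ S, (f i).coeff (δ i) := by
  classical
  induction S using Finset.induction_on with
  | empty => simp
  | insert a S ha ih =>
    obtain ⟨h1, h2⟩ := ih (fun i hi => h i (Finset.mem_insert_of_mem hi))
    have h3 := h a (Finset.mem_insert_self a S)
    rw [Finset.prod_insert ha, Finset.sum_insert ha, Finset.prod_insert ha]
    constructor
    · exact natDegree_mul_le.trans (add_le_add h3 h1)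
    · rw [coeff_mul_add_eq_of_natDegree_le h3 h1, h2]

theorem det_top {r : ℕ} (A : Matrix (Fin r) (Fin r) R[X]) (δ : Fin r → ℕ)
    (h : ∀ k j, (A k j).natDegree ≤ δ j) :
    A.det.natDegree ≤ ∑ j, δ j ∧
      A.det.coeff (∑ j, δ j) = (Matrix.of fun k j => (A k j).coeff (δ j)).det := by
  constructor
  · rw [Matrix.det_apply]
    apply natDegree_sum_le_of_forall_le
    intro σ _
    refine (natDegree_smul_le _ _).trans ?_
    exact (coeff_prod_top Finset.univ (fun i => A (σ i) i) δ (fun i _ => h _ _)).1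
  · rw [Matrix.det_apply, Matrix.det_apply, finsetSum_coeff]
    apply Finset.sum_congr rfl
    intro σ _
    rw [coeff_smul, (coeff_prod_top Finset.univ (fun i => A (σ i) i) δ (fun i _ => h _ _)).2]
    rfl

end det

section main

variable {F : Type*} [Field F] [CharZero F]

/-- the coefficients of the derivatives -/
noncomputable def pk (g n m : ℕ) (c : ℕ → ℕ → F) (i k : ℕ) : F[X] :=
  ∑ h ∈ range m, C (c i h * ((g * i + n * h : ℕ) : F) ^ k) * X ^ h

omit [CharZero F] in
theorem pk_coeff (g n m : ℕ) (c : ℕ → ℕ → F) (i k h : ℕ) :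
    (pk g n m c i k).coeff h = if h < m then c i h * ((g * i + n * h : ℕ) : F) ^ k else 0 := by
  rw [pk, finsetSum_coeff]
  simp only [coeff_C_mul, coeff_X_pow, mul_ite, mul_one, mul_zero]
  rw [Finset.sum_ite_eq]
  simp

omit [CharZero F] in
theorem pk_expand_eq (g n m : ℕ) (c : ℕ → ℕ → F) (i k : ℕ) :
    X ^ (g * i) * expand F n (pk g n m c i k) =
      ∑ h ∈ range m, C (c i h * ((g * i + n * h : ℕ) : F) ^ k) * X ^ (g * i + n * h) := by
  rw [pk, map_sum, Finset.mul_sum]
  apply Finset.sum_congr rfl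
  intro h _
  rw [map_mul, expand_C, map_pow, expand_X, ← pow_mul, pow_add]
  ring

omit [CharZero F] in
theorem DD_pk_expand (g n m : ℕ) (c : ℕ → ℕ → F) (i k : ℕ) (lam : F) :
    DD (C lam * (X ^ (g * i) * expand F n (pk g n m c i k))) =
      C lam * (X ^ (g * i) * expand F n (pk g n m c i (k + 1))) := by
  rw [pk_expand_eq, pk_expand_eq, Finset.mul_sum, DD_sum, Finset.mul_sum]
  apply Finset.sum_congr rfl
  intro h _
  have e1 : C lam * (C (c i h * ((g * i + n * h : ℕ) : F) ^ k) * X ^ (g * i + n * h)) =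
      C (lam * (c i h * ((g * i + n * h : ℕ) : F) ^ k)) * X ^ (g * i + n * h) := by
    rw [map_mul C lam]; ring
  rw [e1, DD_monomial]
  have e2 : lam * (c i h * ((g * i + n * h : ℕ) : F) ^ k) * ((g * i + n * h : ℕ) : F) =
      lam * (c i h * ((g * i + n * h : ℕ) : F) ^ (k + 1)) := by ring
  rw [e2, map_mul C lam]
  ring

/-- vanishing at one point gives divisibility of the determinant -/
theorem det_dvd_point {g n m r : ℕ} (hn : 0 < n) (c : ℕ → ℕ → F) (col : Fin r → ℕ) (hr : 0 < r)
    {w lam : F} (hw : w ≠ 0) (hlam : lam ≠ 0) {K : ℕ}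
    (h : ∀ k < K, ∑ j : Fin r, ∑ h ∈ range m, c (col j) h * ((g * col j + n * h : ℕ) : F) ^ k *
      ((w ^ n) ^ h * (lam * w ^ g) ^ col j) = 0)
    (hV : (Matrix.of fun (k j : Fin r) => pk g n m c (col j) k).det ≠ 0) :
    (X - C (w ^ n)) ^ (K - (r - 1)) ∣ (Matrix.of fun (k j : Fin r) => pk g n m c (col j) k).det := by
  apply dvd_of_expand hn hw hV
  obtain ⟨A, hA⟩ : ∃ A : Matrix (Fin r) (Fin r) F[X],
      A = Matrix.of fun (k j : Fin r) => pk g n m c (col j) k := ⟨_, rfl⟩
  rw [← hA]
  -- the function and its derivatives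
  obtain ⟨G, hG⟩ : ∃ G : ℕ → F[X], G = fun k => ∑ j : Fin r,
      C (lam ^ col j) * (X ^ (g * col j) * expand F n (pk g n m c (col j) k)) := ⟨_, rfl⟩
  have hDG : ∀ k, DD^[k] (G 0) = G k := by
    intro k
    induction k with
    | zero => rfl
    | succ k ih =>
      rw [Function.iterate_succ_apply', ih, hG]
      simp only
      rw [DD_sum]
      exact Finset.sum_congr rfl fun j _ => DD_pk_expand g n m c (col j) k _
  have heval : ∀ k < K, eval w (DD^[k] (G 0)) = 0 := by
    intro k hk
    rw [hDG, hG]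
    simp only
    rw [eval_finsetSum, ← h k hk]
    apply Finset.sum_congr rfl
    intro j _
    rw [pk_expand_eq, eval_mul, eval_C, eval_finsetSum, Finset.mul_sum]
    apply Finset.sum_congr rfl
    intro h _
    rw [eval_mul, eval_C, eval_pow, eval_X, pow_add, pow_mul, pow_mul, mul_pow]
    ring
  have hdvd0 := dvd_of_DD hw heval
  have hdvdk : ∀ k : Fin r, (X - C w) ^ (K - (r - 1)) ∣ G k := by
    intro k
    have h1 := DD_dvd hdvd0 (k : ℕ)
    rw [hDG] at h1
    refine (pow_dvd_pow _ ?_).trans h1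
    have := k.2
    omega
  -- multiplication by the adjugate
  obtain ⟨A', hA'⟩ : ∃ A' : Matrix (Fin r) (Fin r) F[X], A' = A.map (expand F n) := ⟨_, rfl⟩
  obtain ⟨b, hb⟩ : ∃ b : Fin r → F[X], b = fun j => C (lam ^ col j) * X ^ (g * col j) := ⟨_, rfl⟩
  have hAb : ∀ k : Fin r, (A'.mulVec b) k = G k := by
    intro k
    rw [Matrix.mulVec, dotProduct, hG]
    apply Finset.sum_congr rfl
    intro j _
    rw [hA', hb, hA]
    simp only [Matrix.map_apply, Matrix.of_apply]
    ring
  have hdetA' : A'.det = expand F n A.det := by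
    rw [hA']
    have := AlgHom.map_det (expand F n) A
    rw [this]
    rfl
  have hadj : A'.adjugate.mulVec (A'.mulVec b) = A'.det • b := by
    rw [Matrix.mulVec_mulVec, Matrix.adjugate_mul, Matrix.smul_mulVec, Matrix.one_mulVec]
  have hj := congrFun hadj ⟨0, hr⟩
  have hleft : (X - C w) ^ (K - (r - 1)) ∣ (A'.adjugate.mulVec (A'.mulVec b)) ⟨0, hr⟩ := by
    rw [Matrix.mulVec, dotProduct]
    apply Finset.dvd_sum
    intro k _
    rw [hAb]
    exact dvd_mul_of_dvd_right (hdvdk k) _
  rw [hj, Pi.smul_apply, smul_eq_mul, hdetA'] at hleft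
  apply (prime_X_sub_C w).pow_dvd_of_dvd_mul_right _ _ hleft
  rw [dvd_iff_isRoot, IsRoot, hb]
  simp only
  rw [eval_mul, eval_C, eval_pow, eval_X]
  exact mul_ne_zero (pow_ne_zero _ hlam) (pow_ne_zero _ hw)

theorem zero_est [IsAlgClosed F] {g n s m : ℕ} (hgn : Nat.Coprime g n) (hs : s < n)
    (c : ℕ → ℕ → F) (hc : ∃ i h : ℕ, i ≤ s ∧ h < m ∧ c i h ≠ 0) {ξ η : F} (hξ0 : ξ ≠ 0)
    (hξ1 : ξ ≠ 1) (hη0 : η ≠ 0) {σ K : ℕ}
    (h1 : ∀ k < σ, ∑ i ∈ range (s + 1), ∑ h ∈ range m,
      c i h * ((g * i + n * h : ℕ) : F) ^ k = 0)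
    (h2 : ∀ k < K, ∑ i ∈ range (s + 1), ∑ h ∈ range m,
      c i h * ((g * i + n * h : ℕ) : F) ^ k * (ξ ^ h * η ^ i) = 0) :
    σ + K + 1 ≤ (s + 1) * m + s := by
  classical
  have hn : 0 < n := by omega
  obtain ⟨I, hI⟩ : ∃ I : Finset ℕ, I = (range (s + 1)).filter (fun i => ∃ h < m, c i h ≠ 0) :=
    ⟨_, rfl⟩
  have hIm : ∀ i, i ∈ I ↔ i ≤ s ∧ ∃ h < m, c i h ≠ 0 := by
    intro i
    rw [hI, Finset.mem_filter, Finset.mem_range]
    simp only [Nat.lt_succ_iff]
  obtain ⟨r, hr⟩ : ∃ r, I.card = r := ⟨_, rfl⟩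
  have hr0 : 0 < r := by
    rw [← hr, Finset.card_pos]
    obtain ⟨i, h, hi, hh, hih⟩ := hc
    exact ⟨i, (hIm i).2 ⟨hi, h, hh, hih⟩⟩
  have hrs : r ≤ s + 1 := by
    rw [← hr, hI]
    exact (Finset.card_filter_le _ _).trans (by rw [card_range])
  have hm : 1 ≤ m := by
    obtain ⟨i, h, hi, hh, hih⟩ := hc
    omega
  obtain ⟨col, hcol⟩ : ∃ col : Fin r → ℕ, col = I.orderEmbOfFin hr := ⟨_, rfl⟩
  have hcolinj : Function.Injective col := by rw [hcol]; exact (I.orderEmbOfFin hr).injective
  have hcolI : ∀ j, col j ∈ I := by intro j; rw [hcol]; exact Finset.orderEmbOfFin_mem I hr j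
  have hcolrange : Finset.univ.image col = I := by
    rw [hcol]
    exact Finset.image_orderEmbOfFin_univ I hr
  -- sums over `range (s + 1)` are sums over the columns
  have hsum : ∀ f : ℕ → ℕ → F, (∀ i h, c i h = 0 → f i h = 0) →
      ∑ i ∈ range (s + 1), ∑ h ∈ range m, f i h = ∑ j : Fin r, ∑ h ∈ range m, f (col j) h := by
    intro f hf
    have e1 : ∑ j : Fin r, ∑ h ∈ range m, f (col j) h = ∑ i ∈ I, ∑ h ∈ range m, f i h := by
      rw [← hcolrange, Finset.sum_image (fun x _ y _ hxy => hcolinj hxy)]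
    rw [e1]
    symm
    apply Finset.sum_subset
    · rw [hI]; exact Finset.filter_subset _ _
    · intro i hi hiI
      apply Finset.sum_eq_zero
      intro h hh
      apply hf
      by_contra hne
      exact hiI ((hIm i).2 ⟨Nat.lt_succ_iff.1 (Finset.mem_range.1 hi), h, Finset.mem_range.1 hh, hne⟩)
  obtain ⟨A, hA⟩ : ∃ A : Matrix (Fin r) (Fin r) F[X],
      A = Matrix.of fun (k j : Fin r) => pk g n m c (col j) k := ⟨_, rfl⟩
  -- the degrees
  obtain ⟨d, hd⟩ : ∃ d : Fin r → ℕ, d = fun j => (pk g n m c (col j) 0).natDegree := ⟨_, rfl⟩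
  have hpk0 : ∀ j, pk g n m c (col j) 0 ≠ 0 := by
    intro j h0
    obtain ⟨-, h, hh, hne⟩ := (hIm _).1 (hcolI j)
    have := congrArg (fun p => coeff p h) h0
    simp only [pk_coeff, if_pos hh, pow_zero, mul_one, coeff_zero] at this
    exact hne this
  have hdc : ∀ j, d j < m ∧ c (col j) (d j) ≠ 0 := by
    intro j
    have h3 : (pk g n m c (col j) 0).coeff (d j) ≠ 0 := by
      rw [hd]
      exact leadingCoeff_ne_zero.2 (hpk0 j)
    rw [pk_coeff] at h3
    split_ifs at h3 with h4
    · rw [pow_zero, mul_one] at h3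
      exact ⟨h4, h3⟩
    · exact absurd rfl h3
  have hdz : ∀ j h, d j < h → h < m → c (col j) h = 0 := by
    intro j h hh hm'
    have h3 : (pk g n m c (col j) 0).coeff h = 0 := by
      apply coeff_eq_zero_of_natDegree_lt
      rw [hd] at hh
      exact hh
    rw [pk_coeff, if_pos hm', pow_zero, mul_one] at h3
    exact h3
  have hAdeg : ∀ k j, (A k j).natDegree ≤ d j := by
    intro k j
    rw [natDegree_le_iff_coeff_eq_zero]
    intro h hh
    rw [hA, Matrix.of_apply, pk_coeff]
    split_ifs with h4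
    · rw [hdz j h hh h4, zero_mul]
    · rfl
  obtain ⟨hVdeg, hVtop⟩ := det_top A d hAdeg
  have hV : A.det ≠ 0 := by
    intro h0
    rw [h0, coeff_zero] at hVtop
    have e1 : (Matrix.of fun k j => (A k j).coeff (d j)) =
        Matrix.of fun (k j : Fin r) => c (col j) (d j) *
          (Matrix.vandermonde (fun j : Fin r => ((g * col j + n * d j : ℕ) : F))).transpose k j := by
      ext k j
      rw [Matrix.of_apply, Matrix.of_apply, hA, Matrix.of_apply, pk_coeff, if_pos (hdc j).1]
      rfl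
    rw [e1, Matrix.det_mul_row, Matrix.det_transpose] at hVtop
    rcases mul_eq_zero.1 hVtop.symm with h5 | h5
    · rw [Finset.prod_eq_zero_iff] at h5
      obtain ⟨j, _, hj⟩ := h5
      exact (hdc j).2 hj
    · revert h5
      rw [imp_false, ← ne_eq, Matrix.det_vandermonde_ne_zero_iff]
      intro j j' hjj
      simp only at hjj
      have h6 : g * col j + n * d j = g * col j' + n * d j' := by exact_mod_cast hjj
      apply hcolinj
      -- modulo `n`
      have h7 : g * col j ≡ g * col j' [MOD n] := by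
        have h8 : g * col j + n * d j ≡ g * col j' + n * d j' [MOD n] := by rw [h6]
        have h9 : ∀ a b : ℕ, a + n * b ≡ a [MOD n] := by
          intro a b
          simp [Nat.ModEq]
        exact ((h9 _ _).symm.trans h8).trans (h9 _ _)
      have h8 : col j ≡ col j' [MOD n] := Nat.ModEq.cancel_left_of_coprime (by
        rw [Nat.gcd_comm]; exact hgn) h7
      have h9 := ((hIm _).1 (hcolI j)).1
      have h10 := ((hIm _).1 (hcolI j')).1
      exact Nat.ModEq.eq_of_lt_of_lt h8 (by omega) (by omega)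
  -- the two points
  have hp1 : (X - C (1 : F)) ^ (σ - (r - 1)) ∣ A.det := by
    have h3 := det_dvd_point (g := g) (m := m) hn c col hr0 (w := 1) (lam := 1) one_ne_zero
      one_ne_zero (K := σ) (by
        intro k hk
        have h4 := h1 k hk
        rw [hsum (fun i h => c i h * ((g * i + n * h : ℕ) : F) ^ k) (by
          intro i h h0
          rw [h0, zero_mul])] at h4
        rw [← h4]
        apply Finset.sum_congr rfl
        intro j _
        apply Finset.sum_congr rfl
        intro h _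
        simp) (by rw [← hA]; exact hV)
    rw [one_pow, ← hA] at h3
    exact h3
  have hp2 : (X - C ξ) ^ (K - (r - 1)) ∣ A.det := by
    obtain ⟨w, hw⟩ := IsAlgClosed.exists_pow_nat_eq ξ hn
    have hw0 : w ≠ 0 := by
      rintro rfl
      rw [zero_pow hn.ne'] at hw
      exact hξ0 hw.symm
    have hlam : (η / w ^ g) * w ^ g = η := div_mul_cancel₀ _ (pow_ne_zero _ hw0)
    have h3 := det_dvd_point (g := g) (m := m) hn c col hr0 (w := w) (lam := η / w ^ g) hw0
      (div_ne_zero hη0 (pow_ne_zero _ hw0)) (K := K) (by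
        intro k hk
        have h4 := h2 k hk
        rw [hsum (fun i h => c i h * ((g * i + n * h : ℕ) : F) ^ k * (ξ ^ h * η ^ i)) (by
          intro i h h0
          rw [h0, zero_mul, zero_mul])] at h4
        rw [hw, hlam]
        exact h4) (by rw [← hA]; exact hV)
    rw [hw, ← hA] at h3
    exact h3
  have hcop : IsCoprime ((X - C (1 : F)) ^ (σ - (r - 1))) ((X - C ξ) ^ (K - (r - 1))) := by
    apply IsCoprime.pow
    exact isCoprime_X_sub_C_of_isUnit_sub (by
      rw [isUnit_iff_ne_zero, sub_ne_zero]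
      exact hξ1.symm)
  have hdvd := hcop.mul_dvd hp1 hp2
  have hdeg := natDegree_le_of_dvd hdvd hV
  rw [natDegree_mul (pow_ne_zero _ (X_sub_C_ne_zero _)) (pow_ne_zero _ (X_sub_C_ne_zero _)),
    natDegree_pow, natDegree_pow, natDegree_X_sub_C, natDegree_X_sub_C, mul_one, mul_one] at hdeg
  have hdsum : ∑ j, d j ≤ r * (m - 1) := by
    have : ∀ j ∈ (Finset.univ : Finset (Fin r)), d j ≤ m - 1 := by
      intro j _
      have := (hdc j).1
      omega
    refine (Finset.sum_le_card_nsmul _ _ _ this).trans ?_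
    simp
  have hfin : (σ - (r - 1)) + (K - (r - 1)) ≤ r * (m - 1) := hdeg.trans (hVdeg.trans hdsum)
  obtain ⟨m', rfl⟩ : ∃ m', m = m' + 1 := ⟨m - 1, by omega⟩
  obtain ⟨t, ht⟩ := Nat.exists_eq_add_of_le hrs
  rw [Nat.add_sub_cancel] at hfin
  have h3 : r * m' ≤ (s + 1) * m' := Nat.mul_le_mul_right _ hrs
  have h4 : (s + 1) * (m' + 1) = (s + 1) * m' + (s + 1) := by ring
  omega

end main

end Pool.Agent.H79.FC.GP
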