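import Mathlib
import Pool.Agent.H79.FC.Zero

/-!
# The auxiliary polynomial
-/

set_option autoImplicit false

namespace Pool.Agent.H79.FC.GP

open Finset

section siegel

attribute [local instance] Matrix.seminormedAddCommGroup

/-- Siegel's lemma for the conditions of vanishing at `(1, 1)` -/
theorem exists_coeffs {g n s m : ℕ} (hs : 0 < s) (hm : 0 < m) {C : ℝ} (hC : 1 ≤ C)
    (hbin : ∀ i ≤ s, ∀ h < m, ∀ k < s * m, (Nat.choose (g * i + n * h) k : ℝ) ≤ C) :
    ∃ c : ℕ → ℕ → ℤ, (∃ i h : ℕ, i ≤ s ∧ h < m ∧ c i h ≠ 0) ∧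
      (∀ k < s * m, ∑ i ∈ range (s + 1), ∑ h ∈ range m,
        c i h * (Nat.choose (g * i + n * h) k : ℤ) = 0) ∧
      ∀ i h, |(c i h : ℝ)| ≤ ((((s + 1) * m : ℕ) : ℝ) * C) ^ s := by
  obtain ⟨A, hA⟩ : ∃ A : Matrix (Fin (s * m)) (Fin (s + 1) × Fin m) ℤ,
      A = Matrix.of fun (k : Fin (s * m)) (p : Fin (s + 1) × Fin m) =>
        (Nat.choose (g * (p.1 : ℕ) + n * (p.2 : ℕ)) (k : ℕ) : ℤ) := ⟨_, rfl⟩
  have hcα : Fintype.card (Fin (s * m)) = s * m := Fintype.card_fin _
  have hcβ : Fintype.card (Fin (s + 1) × Fin m) = (s + 1) * m := by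
    rw [Fintype.card_prod, Fintype.card_fin, Fintype.card_fin]
  obtain ⟨t, ht0, htA, htn⟩ := Int.Matrix.exists_ne_zero_int_vec_norm_le A (by
    rw [hcα, hcβ, add_mul, one_mul]
    omega) (by
    rw [hcα]
    positivity)
  have hAn : ‖A‖ ≤ C := by
    rw [Matrix.norm_le_iff (by linarith)]
    intro k p
    rw [hA, Matrix.of_apply, Int.norm_eq_abs, Int.cast_natCast, abs_of_nonneg (by positivity)]
    exact hbin _ (by have := p.1.2; omega) _ p.2.2 _ k.2
  have hexp : ((Fintype.card (Fin (s * m)) : ℕ) : ℝ) /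
      ((Fintype.card (Fin (s + 1) × Fin m) : ℕ) - (Fintype.card (Fin (s * m)) : ℕ) : ℝ) = s := by
    rw [hcα, hcβ]
    have hm' : (m : ℝ) ≠ 0 := by exact_mod_cast hm.ne'
    push_cast
    have e1 : ((s : ℝ) + 1) * m - s * m = m := by ring
    rw [e1]
    field_simp
  rw [hexp, Real.rpow_natCast, hcβ] at htn
  have htn' : ‖t‖ ≤ ((((s + 1) * m : ℕ) : ℝ) * C) ^ s := by
    refine htn.trans ?_
    apply pow_le_pow_left₀ (by positivity)
    apply mul_le_mul_of_nonneg_left _ (by positivity)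
    exact max_le hC hAn
  obtain ⟨c, hc⟩ : ∃ c : ℕ → ℕ → ℤ, c = fun i h =>
      if hih : i < s + 1 ∧ h < m then t (⟨i, hih.1⟩, ⟨h, hih.2⟩) else 0 := ⟨_, rfl⟩
  have hcv : ∀ p : Fin (s + 1) × Fin m, c p.1 p.2 = t p := by
    intro p
    rw [hc]
    simp only
    rw [dif_pos ⟨p.1.2, p.2.2⟩]
  refine ⟨c, ?_, ?_, ?_⟩
  · obtain ⟨p, hp⟩ := Function.ne_iff.1 ht0
    refine ⟨p.1, p.2, by have := p.1.2; omega, p.2.2, ?_⟩
    rw [hcv]
    exact hp
  · intro k hk
    have h1 := congrFun htA ⟨k, hk⟩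
    rw [Matrix.mulVec, dotProduct, Pi.zero_apply] at h1
    rw [Finset.sum_range]
    rw [← h1, Fintype.sum_prod_type]
    apply Finset.sum_congr rfl
    intro i _
    rw [Finset.sum_range]
    apply Finset.sum_congr rfl
    intro h _
    have h2 := hcv (i, h)
    simp only at h2
    rw [h2, hA, Matrix.of_apply, mul_comm]
  · intro i h
    by_cases hih : i < s + 1 ∧ h < m
    · have h1 : c i h = t (⟨i, hih.1⟩, ⟨h, hih.2⟩) := by
        rw [hc]
        simp only
        rw [dif_pos hih]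
      rw [h1, ← Int.norm_eq_abs]
      exact (norm_le_pi_norm t _).trans htn'
    · have h1 : c i h = 0 := by
        rw [hc]
        simp only
        rw [dif_neg hih]
      rw [h1, Int.cast_zero, abs_zero]
      positivity

end siegel

/-- the bound for the binomial coefficients -/
theorem choose_le {n σ e k : ℕ} (hn : 0 < n) (he : e ≤ 2 * n * σ) (hk : k ≤ σ) :
    (Nat.choose e k : ℝ) ≤ (6 * (n : ℝ)) ^ σ := by
  have hn1 : (1 : ℝ) ≤ n := by exact_mod_cast hn
  obtain ⟨x, hx⟩ : ∃ x : ℝ, x = 1 / (2 * n) := ⟨_, rfl⟩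
  have hx0 : 0 < x := by rw [hx]; positivity
  have h1 : (Nat.choose e k : ℝ) * x ^ k ≤ (1 + x) ^ e := by
    have h2 := add_pow x 1 e
    rw [add_comm 1 x, h2]
    rcases Nat.lt_or_ge e k with h3 | h3
    · rw [Nat.choose_eq_zero_of_lt h3, Nat.cast_zero, zero_mul]
      apply Finset.sum_nonneg
      intro i _
      positivity
    · have h4 : (Nat.choose e k : ℝ) * x ^ k = x ^ k * 1 ^ (e - k) * (Nat.choose e k : ℝ) := by
        rw [one_pow]; ring
      rw [h4]
      exact Finset.single_le_sum (f := fun i => x ^ i * 1 ^ (e - i) * (Nat.choose e i : ℝ))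
        (fun i _ => by positivity) (Finset.mem_range.2 (by omega))
  have h2 : (1 + x) ^ e ≤ 3 ^ σ := by
    have h3 : (1 + x) ^ (2 * n) ≤ 3 := by
      have h4 : 1 + x ≤ Real.exp x := by
        have := Real.add_one_le_exp x
        linarith
      calc (1 + x) ^ (2 * n) ≤ (Real.exp x) ^ (2 * n) := pow_le_pow_left₀ (by positivity) h4 _
        _ = Real.exp 1 := by
            rw [← Real.exp_nat_mul]
            congr 1
            rw [hx]
            push_cast
            field_simp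
        _ ≤ 3 := by
            have := Real.exp_one_lt_d9
            linarith
    calc (1 + x) ^ e ≤ (1 + x) ^ (2 * n * σ) := pow_le_pow_right₀ (by linarith) he
      _ = ((1 + x) ^ (2 * n)) ^ σ := by rw [pow_mul]
      _ ≤ 3 ^ σ := pow_le_pow_left₀ (by positivity) h3 _
  have h3 : (Nat.choose e k : ℝ) = (Nat.choose e k : ℝ) * x ^ k * (2 * n) ^ k := by
    rw [mul_assoc, ← mul_pow]
    have : x * (2 * n) = 1 := by rw [hx]; field_simp
    rw [this, one_pow, mul_one]
  rw [h3]
  calc (Nat.choose e k : ℝ) * x ^ k * (2 * n) ^ k ≤ 3 ^ σ * (2 * n) ^ σ := by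
        apply mul_le_mul (h1.trans h2) _ (by positivity) (by positivity)
        exact pow_le_pow_right₀ (by linarith) hk
    _ = (6 * (n : ℝ)) ^ σ := by rw [← mul_pow]; ring

/-- products of binomial coefficients -/
theorem choose_mul_zero {g n s m σ : ℕ} {c : ℕ → ℕ → ℤ}
    (hc : ∀ k < σ, ∑ i ∈ range (s + 1), ∑ h ∈ range m,
        c i h * (Nat.choose (g * i + n * h) k : ℤ) = 0) {k l : ℕ} (hkl : k + l < σ) :
    ∑ i ∈ range (s + 1), ∑ h ∈ range m,
        c i h * ((Nat.choose (g * i + n * h) k : ℤ) * (Nat.choose (g * i + n * h) l : ℤ)) = 0 := by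
  obtain ⟨P, hP⟩ : ∃ P : Polynomial ℚ, P = Polynomial.C ((k.factorial : ℚ)⁻¹ * (l.factorial : ℚ)⁻¹) *
      (descPochhammer ℚ k * descPochhammer ℚ l) := ⟨_, rfl⟩
  have hPd : P.natDegree < σ := by
    refine lt_of_le_of_lt ?_ hkl
    rw [hP]
    refine (Polynomial.natDegree_C_mul_le _ _).trans (Polynomial.natDegree_mul_le.trans ?_)
    rw [descPochhammer_natDegree, descPochhammer_natDegree]
  have hPe : ∀ e : ℕ, P.eval (e : ℚ) = (Nat.choose e k : ℚ) * (Nat.choose e l : ℚ) := by
    intro e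
    rw [hP, Polynomial.eval_mul, Polynomial.eval_C, Polynomial.eval_mul,
      descPochhammer_eval_eq_descFactorial, descPochhammer_eval_eq_descFactorial,
      Nat.descFactorial_eq_factorial_mul_choose, Nat.descFactorial_eq_factorial_mul_choose]
    have h1 : (k.factorial : ℚ) ≠ 0 := by exact_mod_cast Nat.factorial_ne_zero k
    have h2 : (l.factorial : ℚ) ≠ 0 := by exact_mod_cast Nat.factorial_ne_zero l
    push_cast
    field_simp
  have h1 := sum_poly_zero (F := ℚ) (range (s + 1) ×ˢ range m) (fun p => (c p.1 p.2 : ℚ))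
    (fun p => g * p.1 + n * p.2) (K := σ) (by
      intro k hk
      have h2 := congrArg (Int.cast : ℤ → ℚ) (hc k hk)
      rw [Finset.sum_product]
      push_cast at h2
      exact h2) P hPd
  rw [Finset.sum_product] at h1
  have h2 : (((∑ i ∈ range (s + 1), ∑ h ∈ range m,
        c i h * ((Nat.choose (g * i + n * h) k : ℤ) * (Nat.choose (g * i + n * h) l : ℤ)) : ℤ)) : ℚ) =
        0 := by
    rw [← h1]
    push_cast
    apply Finset.sum_congr rfl
    intro i _
    apply Finset.sum_congr rfl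
    intro h _
    have := hPe (g * i + n * h)
    push_cast at this
    rw [this]
  exact_mod_cast h2

/-- powers -/
theorem pow_zero_of_choose {F : Type*} [Field F] [CharZero F] {g n s m σ : ℕ} {a : ℕ → ℕ → F}
    (hc : ∀ k < σ, ∑ i ∈ range (s + 1), ∑ h ∈ range m,
        a i h * (Nat.choose (g * i + n * h) k : F) = 0) {k : ℕ} (hk : k < σ) :
    ∑ i ∈ range (s + 1), ∑ h ∈ range m, a i h * ((g * i + n * h : ℕ) : F) ^ k = 0 := by
  have h1 := sum_poly_zero (F := F) (range (s + 1) ×ˢ range m) (fun p => a p.1 p.2)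
    (fun p => g * p.1 + n * p.2) (K := σ) (by
      intro k hk
      rw [Finset.sum_product]
      exact hc k hk) (Polynomial.X ^ k) (by rw [Polynomial.natDegree_X_pow]; exact hk)
  rw [Finset.sum_product] at h1
  rw [← h1]
  apply Finset.sum_congr rfl
  intro i _
  apply Finset.sum_congr rfl
  intro h _
  rw [Polynomial.eval_pow, Polynomial.eval_X]

end Pool.Agent.H79.FC.GP
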