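import Mathlib
import Pool.Agent.H79.FC.Siegel
import Pool.Agent.H79.FC.Core

/-!
# The divisibility and the size of the values of the auxiliary polynomial
-/

set_option autoImplicit false

namespace Pool.Agent.H79.FC.GP

open Finset

/-- The values of the derivatives of the auxiliary polynomial. -/
def Del (g n s m L : ℕ) (c : ℕ → ℕ → ℤ) (y Z u : ℤ) (k : ℕ) : ℤ :=
  ∑ i ∈ range (s + 1), ∑ h ∈ range m,
    c i h * (Nat.choose (g * i + n * h) k : ℤ) * (y ^ i * Z ^ h * u ^ (L - (g * i + n * h)))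

/-- the `n`-th root of `Z` -/
theorem exists_root {g n : ℕ} {X Z u y : ℤ} {M : ℕ} {X2 T : ℝ} (h : Dat g n X Z u y M X2 T)
    {J : ℕ} (hJ : J ≤ g) (hJ0 : 0 < J) : ∃ δ : ZMod (M ^ J), δ ^ J = 0 ∧
      (Z : ZMod (M ^ J)) = ((u : ZMod (M ^ J)) + δ) ^ n ∧
      (y : ZMod (M ^ J)) = ((u : ZMod (M ^ J)) + δ) ^ g := by
  have : NeZero (M ^ J) := ⟨pow_ne_zero J h.M0⟩
  have : NeZero M := ⟨h.M0⟩
  have hn : 0 < n := by
    have := h.n3
    omega
  have hcopM : ∀ a : ℤ, IsCoprime X a → IsUnit (a : ZMod (M ^ J)) := by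
    intro a ha
    apply isUnit_int
    push_cast
    exact (IsCoprime.pow_left (ha.of_isCoprime_of_dvd_left h.MX)).symm
  have huX : IsCoprime X (u ^ n) := by
    have h1 : IsCoprime X (X * 1 + u ^ n) := by rw [mul_one, ← h.D]; exact h.cop
    exact IsCoprime.of_mul_add_left_right (by rwa [add_comm] at h1)
  have hZ : IsUnit (Z : ZMod (M ^ J)) := hcopM _ h.cop
  have hyX : IsCoprime X (y ^ n) := by
    have h1 : IsCoprime X (Z ^ g) := h.cop.pow_right
    rw [h.eq] at h1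
    have e : X ^ g + y ^ n = X * X ^ (g - 1) + y ^ n := by
      rw [← pow_succ', Nat.sub_add_cancel (by omega)]
    rw [e] at h1
    exact IsCoprime.of_mul_add_left_right (by rwa [add_comm] at h1)
  have hy : IsUnit (y : ZMod (M ^ J)) := hcopM _ ((IsCoprime.pow_right_iff hn).1 hyX)
  -- the root
  obtain ⟨Zu, hZu⟩ := hZ
  have hcard : (Nat.card (ZMod (M ^ J))ˣ).Coprime n := by
    rw [Nat.card_eq_fintype_card, ZMod.card_units_eq_totient]
    exact (coprime_totient h.M0 h.good J).symm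
  obtain ⟨w, hw⟩ := (powCoprime hcard).surjective Zu
  rw [powCoprime_apply] at hw
  have hwZ : (w : ZMod (M ^ J)) ^ n = (Z : ZMod (M ^ J)) := by
    rw [← hZu, ← hw]
    push_cast
    rfl
  -- modulo `M`
  have hMJ : M ∣ M ^ J := dvd_pow_self M hJ0.ne'
  have huM : IsUnit (u : ZMod M) := by
    apply isUnit_int
    exact (((IsCoprime.pow_right_iff hn).1 huX).of_isCoprime_of_dvd_left h.MX).symm
  have hred : (ZMod.castHom hMJ (ZMod M)) (w : ZMod (M ^ J)) = (u : ZMod M) := by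
    apply eq_of_pow_eq (n := n) _ (w.isUnit.map _) huM
    · rw [← map_pow, hwZ, map_intCast]
      have h1 := congrArg (Int.cast : ℤ → ZMod M) h.D
      push_cast at h1
      rw [h1, (ZMod.intCast_zmod_eq_zero_iff_dvd X M).2 h.MX, zero_add]
    · have := coprime_totient h.M0 h.good 1
      rwa [pow_one] at this
  obtain ⟨δ, hδ⟩ : ∃ δ : ZMod (M ^ J), δ = (w : ZMod (M ^ J)) - (u : ZMod (M ^ J)) := ⟨_, rfl⟩
  have hwu : (u : ZMod (M ^ J)) + δ = (w : ZMod (M ^ J)) := by rw [hδ]; ring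
  have hδM : ∃ x : ZMod (M ^ J), δ = (M : ZMod (M ^ J)) * x := by
    have h1 : (ZMod.castHom hMJ (ZMod M)) δ = 0 := by
      rw [hδ, map_sub, hred, map_intCast, sub_self]
    have h2 : ((δ.val : ℕ) : ZMod (M ^ J)) = δ := ZMod.natCast_zmod_val δ
    rw [← h2, map_natCast, ZMod.natCast_eq_zero_iff] at h1
    obtain ⟨x, hx⟩ := h1
    refine ⟨(x : ZMod (M ^ J)), ?_⟩
    rw [← h2, hx]
    push_cast
    rfl
  refine ⟨δ, ?_, ?_, ?_⟩
  · obtain ⟨x, hx⟩ := hδM
    rw [hx, mul_pow]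
    have : ((M : ZMod (M ^ J))) ^ J = 0 := by
      have := ZMod.natCast_self (M ^ J)
      push_cast at this
      exact this
    rw [this, zero_mul]
  · rw [hwu, hwZ]
  · rw [hwu]
    apply eq_of_pow_eq (coprime_totient h.M0 h.good J) hy (w.isUnit.pow g)
    rw [← pow_mul, mul_comm g n, pow_mul, hwZ]
    have h2 := congrArg (Int.cast : ℤ → ZMod (M ^ J)) h.eq
    push_cast at h2
    rw [h2]
    have h3 : (X : ZMod (M ^ J)) ^ g = 0 := by
      have h4 : ((M ^ J : ℕ) : ℤ) ∣ X ^ g := by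
        push_cast
        exact (pow_dvd_pow_of_dvd h.MX J).trans (pow_dvd_pow X hJ)
      have h5 := (ZMod.intCast_zmod_eq_zero_iff_dvd (X ^ g) (M ^ J)).2 h4
      push_cast at h5
      exact h5
    rw [h3, zero_add]

/-- the divisibility -/
theorem dvd_Del {g n : ℕ} {X Z u y : ℤ} {M : ℕ} {X2 T : ℝ} (h : Dat g n X Z u y M X2 T)
    {s m σ L : ℕ} (hL : ∀ i ≤ s, ∀ h < m, g * i + n * h ≤ L) {c : ℕ → ℕ → ℤ}
    (hc : ∀ k < σ, ∑ i ∈ range (s + 1), ∑ h ∈ range m,
        c i h * (Nat.choose (g * i + n * h) k : ℤ) = 0) {k : ℕ} (hσ : σ - k ≤ g) :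
    (M : ℤ) ^ (σ - k) ∣ Del g n s m L c y Z u k := by
  rcases Nat.eq_zero_or_pos (σ - k) with h0 | h0
  · rw [h0, pow_zero]
    exact one_dvd _
  obtain ⟨J, hJ⟩ : ∃ J, J = σ - k := ⟨_, rfl⟩
  rw [← hJ] at hσ h0 ⊢
  obtain ⟨δ, hδ, hZ, hy⟩ := exists_root h hσ h0
  have h1 : ((M ^ J : ℕ) : ℤ) = (M : ℤ) ^ J := by push_cast; rfl
  rw [← h1, ← ZMod.intCast_zmod_eq_zero_iff_dvd, Del]
  push_cast
  rw [hZ, hy]
  -- expand
  have hterm : ∀ e ≤ L, ((u : ZMod (M ^ J)) + δ) ^ e * (u : ZMod (M ^ J)) ^ (L - e) =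
      ∑ l ∈ range (L + 1), δ ^ l * (u : ZMod (M ^ J)) ^ (L - l) * (Nat.choose e l : ZMod (M ^ J)) := by
    intro e he
    rw [add_comm, add_pow, Finset.sum_mul]
    have hsub : range (e + 1) ⊆ range (L + 1) := by
      intro a ha
      rw [Finset.mem_range] at ha ⊢
      omega
    rw [← Finset.sum_subset hsub (f := fun l =>
      δ ^ l * (u : ZMod (M ^ J)) ^ (L - l) * (Nat.choose e l : ZMod (M ^ J)))]
    · apply Finset.sum_congr rfl
      intro l hl
      rw [Finset.mem_range] at hl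
      have e1 : L - l = (e - l) + (L - e) := by omega
      rw [e1, pow_add]
      ring
    · intro l _ hl2
      rw [Finset.mem_range] at hl2
      rw [Nat.choose_eq_zero_of_lt (by omega), Nat.cast_zero, mul_zero]
  have hall : ∀ i ∈ range (s + 1), ∀ h ∈ range m,
      (c i h : ZMod (M ^ J)) * (Nat.choose (g * i + n * h) k : ZMod (M ^ J)) *
        ((((u : ZMod (M ^ J)) + δ) ^ g) ^ i * (((u : ZMod (M ^ J)) + δ) ^ n) ^ h *
          (u : ZMod (M ^ J)) ^ (L - (g * i + n * h))) =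
      ∑ l ∈ range (L + 1), δ ^ l * (u : ZMod (M ^ J)) ^ (L - l) *
        ((c i h : ZMod (M ^ J)) * ((Nat.choose (g * i + n * h) k : ZMod (M ^ J)) *
          (Nat.choose (g * i + n * h) l : ZMod (M ^ J)))) := by
    intro i hi h hh
    rw [Finset.mem_range] at hi hh
    rw [← pow_mul, ← pow_mul, ← pow_add, hterm _ (hL i (by omega) h hh), Finset.mul_sum]
    apply Finset.sum_congr rfl
    intro l _
    ring
  rw [Finset.sum_congr rfl fun i hi => Finset.sum_congr rfl fun h hh => hall i hi h hh]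
  have hswap : ∑ i ∈ range (s + 1), ∑ h ∈ range m, ∑ l ∈ range (L + 1),
      δ ^ l * (u : ZMod (M ^ J)) ^ (L - l) *
        ((c i h : ZMod (M ^ J)) * ((Nat.choose (g * i + n * h) k : ZMod (M ^ J)) *
          (Nat.choose (g * i + n * h) l : ZMod (M ^ J)))) =
      ∑ l ∈ range (L + 1), δ ^ l * (u : ZMod (M ^ J)) ^ (L - l) *
        ∑ i ∈ range (s + 1), ∑ h ∈ range m,
          ((c i h : ZMod (M ^ J)) * ((Nat.choose (g * i + n * h) k : ZMod (M ^ J)) *
          (Nat.choose (g * i + n * h) l : ZMod (M ^ J)))) := by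
    have e1 : ∀ i ∈ range (s + 1), ∑ h ∈ range m, ∑ l ∈ range (L + 1),
        δ ^ l * (u : ZMod (M ^ J)) ^ (L - l) *
          ((c i h : ZMod (M ^ J)) * ((Nat.choose (g * i + n * h) k : ZMod (M ^ J)) *
            (Nat.choose (g * i + n * h) l : ZMod (M ^ J)))) =
        ∑ l ∈ range (L + 1), ∑ h ∈ range m, δ ^ l * (u : ZMod (M ^ J)) ^ (L - l) *
          ((c i h : ZMod (M ^ J)) * ((Nat.choose (g * i + n * h) k : ZMod (M ^ J)) *
            (Nat.choose (g * i + n * h) l : ZMod (M ^ J)))) := fun i _ => Finset.sum_comm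
    rw [Finset.sum_congr rfl e1, Finset.sum_comm]
    apply Finset.sum_congr rfl
    intro l _
    rw [Finset.mul_sum]
    apply Finset.sum_congr rfl
    intro i _
    rw [Finset.mul_sum]
  rw [hswap]
  apply Finset.sum_eq_zero
  intro l _
  rcases Nat.lt_or_ge l J with hl | hl
  · have h2 := congrArg (Int.cast : ℤ → ZMod (M ^ J)) (choose_mul_zero hc (k := k) (l := l) (by omega))
    push_cast at h2
    rw [h2, mul_zero]
  · obtain ⟨t, rfl⟩ := Nat.exists_eq_add_of_le hl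
    rw [pow_add, hδ]
    ring

end Pool.Agent.H79.FC.GP
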