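import Mathlib
import Pool.Agent.H79.FC.Del
import Pool.Agent.H79.FC.Bnd

/-!
# The inequalities for the good part
-/

set_option autoImplicit false

namespace Pool.Agent.H79.FC.GP

open Finset

variable {g n : ℕ} {X Z u y : ℤ} {M : ℕ} {X2 T : ℝ}

/-- a value which does not vanish -/
theorem exists_ne (h : Dat g n X Z u y M X2 T) {s m L : ℕ} (hs : s < n) {c : ℕ → ℕ → ℤ}
    (hL : ∀ i ≤ s, ∀ h < m, g * i + n * h ≤ L)
    (hc0 : ∃ i h : ℕ, i ≤ s ∧ h < m ∧ c i h ≠ 0)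
    (hc : ∀ k < s * m, ∑ i ∈ range (s + 1), ∑ h ∈ range m,
        c i h * (Nat.choose (g * i + n * h) k : ℤ) = 0) :
    ∃ k < m + s, Del g n s m L c y Z u k ≠ 0 := by
  by_contra hcon
  push Not at hcon
  have hn : 0 < n := by
    have := h.n3
    omega
  have hgn : Nat.Coprime g n := (Nat.Prime.coprime_iff_not_dvd h.gp).2 h.gn
  have hu : (u : ℂ) ≠ 0 := by exact_mod_cast h.u0.ne'
  have hZ : (Z : ℂ) ≠ 0 := by exact_mod_cast h.Z0
  have hy : (y : ℂ) ≠ 0 := by exact_mod_cast h.y0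
  have hX : (X : ℂ) ≠ 0 := by exact_mod_cast h.X0
  obtain ⟨ξ, hξ⟩ : ∃ ξ : ℂ, ξ = Z / u ^ n := ⟨_, rfl⟩
  obtain ⟨η, hη⟩ : ∃ η : ℂ, η = y / u ^ g := ⟨_, rfl⟩
  have hξ0 : ξ ≠ 0 := by rw [hξ]; exact div_ne_zero hZ (pow_ne_zero _ hu)
  have hη0 : η ≠ 0 := by rw [hη]; exact div_ne_zero hy (pow_ne_zero _ hu)
  have hξ1 : ξ ≠ 1 := by
    intro h1
    rw [hξ, div_eq_one_iff_eq (pow_ne_zero _ hu)] at h1
    have h2 := congrArg (Int.cast : ℤ → ℂ) h.D
    push_cast at h2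
    rw [h1] at h2
    apply hX
    linear_combination -h2
  have hval : ∀ k < m + s, ∑ i ∈ range (s + 1), ∑ h ∈ range m,
      ((c i h : ℂ) * (ξ ^ h * η ^ i)) * (Nat.choose (g * i + n * h) k : ℂ) = 0 := by
    intro k hk
    have h1 := congrArg (Int.cast : ℤ → ℂ) (hcon k hk)
    rw [Del] at h1
    push_cast at h1
    have h2 : (u : ℂ) ^ L * ∑ i ∈ range (s + 1), ∑ h ∈ range m,
      ((c i h : ℂ) * (ξ ^ h * η ^ i)) * (Nat.choose (g * i + n * h) k : ℂ) = 0 := by
      rw [← h1, Finset.mul_sum]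
      apply Finset.sum_congr rfl
      intro i hi
      rw [Finset.mul_sum]
      apply Finset.sum_congr rfl
      intro h hh
      rw [Finset.mem_range] at hi hh
      have h3 := hL i (by omega) h hh
      have h4 : (u : ℂ) ^ L = u ^ (L - (g * i + n * h)) * ((u ^ g) ^ i * (u ^ n) ^ h) := by
        rw [← pow_mul, ← pow_mul, ← pow_add, ← pow_add]
        congr 1
        omega
      have h5 : η * (u : ℂ) ^ g = y := by rw [hη]; field_simp
      have h6 : ξ * (u : ℂ) ^ n = Z := by rw [hξ]; field_simp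
      rw [h4]
      conv_rhs => rw [← h5, ← h6, mul_pow, mul_pow]
      ring
    exact (mul_eq_zero.1 h2).resolve_left (pow_ne_zero _ hu)
  have h2 : ∀ k < m + s, ∑ i ∈ range (s + 1), ∑ h ∈ range m,
      (c i h : ℂ) * ((g * i + n * h : ℕ) : ℂ) ^ k * (ξ ^ h * η ^ i) = 0 := by
    intro k hk
    have h3 := pow_zero_of_choose hval hk
    rw [← h3]
    apply Finset.sum_congr rfl
    intro i _
    apply Finset.sum_congr rfl
    intro h _
    ring
  have h1 : ∀ k < s * m, ∑ i ∈ range (s + 1), ∑ h ∈ range m,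
      (c i h : ℂ) * ((g * i + n * h : ℕ) : ℂ) ^ k = 0 := by
    intro k hk
    apply pow_zero_of_choose (σ := s * m) _ hk
    intro k hk
    have h3 := congrArg (Int.cast : ℤ → ℂ) (hc k hk)
    push_cast at h3
    exact h3
  have h3 := zero_est (F := ℂ) hgn hs (fun i h => (c i h : ℂ)) (by
    obtain ⟨i, h, hi, hh, hne⟩ := hc0
    exact ⟨i, h, hi, hh, by exact_mod_cast hne⟩) hξ0 hξ1 hη0 h1 h2
  have h4 : (s + 1) * m = s * m + m := by ring
  omega

theorem Dat.y_le (h : Dat g n X Z u y M X2 T) : |(y : ℝ)| ^ n ≤ 2 * (2 * T) ^ g := by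
  have hT1 := h.T1
  have hXT : |(X : ℝ)| ≤ T := by rw [h.TT]; exact le_max_left _ _
  have hDT : (u : ℝ) ^ n ≤ T := by rw [h.TT]; exact le_max_right _ _
  have hu : (0 : ℝ) < u := by exact_mod_cast h.u0
  have hZR : (Z : ℝ) = X + (u : ℝ) ^ n := by rw [h.D]; push_cast; rfl
  have hZT : |(Z : ℝ)| ≤ 2 * T := by
    rw [hZR]
    refine (abs_add_le _ _).trans ?_
    rw [abs_of_pos (by positivity : (0 : ℝ) < (u : ℝ) ^ n)]
    linarith
  have hXg : |(X : ℝ)| ^ g ≤ (2 * T) ^ g := pow_le_pow_left₀ (abs_nonneg _) (by linarith) g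
  have hZg : |(Z : ℝ)| ^ g ≤ (2 * T) ^ g := pow_le_pow_left₀ (abs_nonneg _) hZT g
  have heqR : (Z : ℝ) ^ g = (X : ℝ) ^ g + (y : ℝ) ^ n := by exact_mod_cast h.eq
  have e : (y : ℝ) ^ n = (Z : ℝ) ^ g - (X : ℝ) ^ g := by linarith
  rw [← abs_pow, e]
  refine (abs_sub _ _).trans ?_
  rw [abs_pow, abs_pow]
  linarith

theorem Dat.Z_le (h : Dat g n X Z u y M X2 T) : |(Z : ℝ)| ≤ 2 * T := by
  have hXT : |(X : ℝ)| ≤ T := by rw [h.TT]; exact le_max_left _ _
  have hDT : (u : ℝ) ^ n ≤ T := by rw [h.TT]; exact le_max_right _ _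
  have hu : (0 : ℝ) < u := by exact_mod_cast h.u0
  have hZR : (Z : ℝ) = X + (u : ℝ) ^ n := by rw [h.D]; push_cast; rfl
  rw [hZR]
  refine (abs_add_le _ _).trans ?_
  rw [abs_of_pos (by positivity : (0 : ℝ) < (u : ℝ) ^ n)]
  linarith

/-- the size of the values -/
theorem size_Del (h : Dat g n X Z u y M X2 T) {s m L : ℕ} {c : ℕ → ℕ → ℤ} {B C : ℝ}
    (hL : ∀ i ≤ s, ∀ h < m, g * i + n * h ≤ L) (hB : ∀ i h, |(c i h : ℝ)| ≤ B) {k : ℕ}
    (hC : ∀ i ≤ s, ∀ h < m, (Nat.choose (g * i + n * h) k : ℝ) ≤ C) :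
    |(Del g n s m L c y Z u k : ℝ)| ≤
      (((s + 1) * m : ℕ) : ℝ) * (B * C * (2 ^ s * (2 * T) ^ L) ^ ((n : ℝ)⁻¹)) := by
  have hn : n ≠ 0 := by
    have := h.n3
    omega
  have hT1 := h.T1
  have hB0 : 0 ≤ B := (abs_nonneg _).trans (hB 0 0)
  have hu : (0 : ℝ) < u := by exact_mod_cast h.u0
  have hDT : (u : ℝ) ^ n ≤ T := by rw [h.TT]; exact le_max_right _ _
  obtain ⟨W, hW⟩ : ∃ W : ℝ, W = (2 ^ s * (2 * T) ^ L) ^ ((n : ℝ)⁻¹) := ⟨_, rfl⟩
  have hW0 : 0 ≤ W := by rw [hW]; positivity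
  rw [← hW]
  have hterm : ∀ i ≤ s, ∀ h < m,
      |(y : ℝ)| ^ i * |(Z : ℝ)| ^ h * (u : ℝ) ^ (L - (g * i + n * h)) ≤ W := by
    intro i hi j hj
    have h1 := hL i hi j hj
    have h2 : (|(y : ℝ)| ^ i * |(Z : ℝ)| ^ j * (u : ℝ) ^ (L - (g * i + n * j))) ^ n ≤
        2 ^ s * (2 * T) ^ L := by
      have e1 : (|(y : ℝ)| ^ i * |(Z : ℝ)| ^ j * (u : ℝ) ^ (L - (g * i + n * j))) ^ n =
          (|(y : ℝ)| ^ n) ^ i * |(Z : ℝ)| ^ (n * j) * ((u : ℝ) ^ n) ^ (L - (g * i + n * j)) := by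
        rw [mul_pow, mul_pow, ← pow_mul, ← pow_mul, ← pow_mul, ← pow_mul, ← pow_mul, mul_comm i n,
          mul_comm j n, mul_comm (L - (g * i + n * j)) n]
      have e2 : (2 * T) ^ L = ((2 * T) ^ g) ^ i * (2 * T) ^ (n * j) *
          (2 * T) ^ (L - (g * i + n * j)) := by
        rw [← pow_mul, ← pow_add, ← pow_add]
        congr 1
        omega
      rw [e1, e2]
      calc (|(y : ℝ)| ^ n) ^ i * |(Z : ℝ)| ^ (n * j) * ((u : ℝ) ^ n) ^ (L - (g * i + n * j))
          ≤ (2 * (2 * T) ^ g) ^ i * (2 * T) ^ (n * j) * (2 * T) ^ (L - (g * i + n * j)) := by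
            apply mul_le_mul _ (pow_le_pow_left₀ (by positivity) (by linarith) _) (by positivity)
              (by positivity)
            apply mul_le_mul (pow_le_pow_left₀ (by positivity) (Dat.y_le h) _)
              (pow_le_pow_left₀ (by positivity) (Dat.Z_le h) _) (by positivity) (by positivity)
        _ = 2 ^ i * (((2 * T) ^ g) ^ i * (2 * T) ^ (n * j) *
          (2 * T) ^ (L - (g * i + n * j))) := by rw [mul_pow]; ring
        _ ≤ _ := by
            apply mul_le_mul_of_nonneg_right _ (by positivity)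
            exact pow_le_pow_right₀ (by norm_num) hi
    have h3 : |(y : ℝ)| ^ i * |(Z : ℝ)| ^ j * (u : ℝ) ^ (L - (g * i + n * j)) =
        ((|(y : ℝ)| ^ i * |(Z : ℝ)| ^ j * (u : ℝ) ^ (L - (g * i + n * j))) ^ n) ^ ((n : ℝ)⁻¹) :=
      (Real.pow_rpow_inv_natCast (by positivity) hn).symm
    rw [h3, hW]
    exact Real.rpow_le_rpow (by positivity) h2 (by positivity)
  rw [Del]
  push_cast
  refine (Finset.abs_sum_le_sum_abs _ _).trans ?_
  have h1 : ∀ i ∈ range (s + 1), |∑ x ∈ range m, (c i x : ℝ) * ((g * i + n * x).choose k : ℝ) *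
      ((y : ℝ) ^ i * (Z : ℝ) ^ x * (u : ℝ) ^ (L - (g * i + n * x)))| ≤ m * (B * C * W) := by
    intro i hi
    refine (Finset.abs_sum_le_sum_abs _ _).trans ?_
    have h2 : ∀ x ∈ range m, |(c i x : ℝ) * ((g * i + n * x).choose k : ℝ) *
      ((y : ℝ) ^ i * (Z : ℝ) ^ x * (u : ℝ) ^ (L - (g * i + n * x)))| ≤ B * C * W := by
      intro x hx
      rw [Finset.mem_range] at hi hx
      rw [abs_mul, abs_mul, abs_mul, abs_mul, abs_pow, abs_pow, abs_pow, abs_of_pos hu,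
        abs_of_nonneg (by positivity : (0 : ℝ) ≤ ((g * i + n * x).choose k : ℝ))]
      have hC0 : 0 ≤ C := le_trans (by positivity) (hC i (by omega) x hx)
      apply mul_le_mul (mul_le_mul (hB i x) (hC i (by omega) x hx) (by positivity) hB0)
        (hterm i (by omega) x hx) (by positivity) (by positivity)
    refine (Finset.sum_le_sum h2).trans ?_
    rw [Finset.sum_const, card_range, nsmul_eq_mul]
  refine (Finset.sum_le_sum h1).trans ?_
  rw [Finset.sum_const, card_range, nsmul_eq_mul]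
  push_cast
  apply le_of_eq
  ring

theorem log_le_self' {x : ℝ} (hx : 0 < x) : Real.log x ≤ x := by
  have := Real.log_le_sub_one_of_pos hx
  linarith

/-- the inequality for large `g` -/
theorem regime2 (h : Dat g n X Z u y M X2 T) {s : ℕ} (hs : 2 ≤ s) (hn : 2 * s * (s + 1) ≤ n)
    (hg : s * (s + 1) ≤ g) :
    ((s : ℝ) - 2) * Real.log M ≤
      ((s : ℝ) + 1) ^ 2 + s * (s + 1) * Real.log (6 * n) + 1 + 2 * Real.log (2 * T) := by
  have hT1 := h.T1
  have hn0 : 0 < n := by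
    have := h.n3
    omega
  have hsn : s < n := by nlinarith
  obtain ⟨m, hm⟩ : ∃ m, m = g / (s + 1) := ⟨_, rfl⟩
  have hms : s ≤ m := by
    rw [hm, Nat.le_div_iff_mul_le (by omega)]
    exact hg
  have hm1 : (s + 1) * m ≤ g := by
    rw [hm]
    exact Nat.mul_div_le g (s + 1)
  have hm2 : g < (s + 1) * (m + 1) := by
    rw [hm]
    exact Nat.lt_mul_div_succ g (by omega)
  have hm0 : 0 < m := by omega
  have hσg : s * m ≤ g := by nlinarith
  obtain ⟨L, hL⟩ : ∃ L, L = g * s + n * m := ⟨_, rfl⟩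
  have hLe : ∀ i ≤ s, ∀ h < m, g * i + n * h ≤ L := by
    intro i hi j hj
    rw [hL]
    have h1 := Nat.mul_le_mul_left g hi
    have h2 := Nat.mul_le_mul_left n hj.le
    omega
  have hL2 : L ≤ 2 * n * m := by
    have h1 : g * s ≤ n * m := by
      calc g * s ≤ (s + 1) * (m + 1) * s := Nat.mul_le_mul_right _ hm2.le
        _ ≤ (s + 1) * (2 * m) * s := by
            apply Nat.mul_le_mul_right
            apply Nat.mul_le_mul_left
            omega
        _ = (2 * s * (s + 1)) * m := by ring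
        _ ≤ n * m := Nat.mul_le_mul_right _ hn
    rw [hL]
    linarith
  have hL3 : L ≤ 2 * n * (s * m) := by
    refine hL2.trans (Nat.mul_le_mul_left _ ?_)
    nlinarith
  obtain ⟨C, hC⟩ : ∃ C : ℝ, C = (6 * (n : ℝ)) ^ (s * m) := ⟨_, rfl⟩
  have hn1 : (1 : ℝ) ≤ n := by exact_mod_cast hn0
  have hC1 : 1 ≤ C := by rw [hC]; exact one_le_pow₀ (by linarith)
  have hbin : ∀ i ≤ s, ∀ h < m, ∀ k ≤ s * m, (Nat.choose (g * i + n * h) k : ℝ) ≤ C := by
    intro i hi j hj k hk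
    rw [hC]
    exact choose_le hn0 ((hLe i hi j hj).trans hL3) hk
  obtain ⟨c, hc0, hc, hcB⟩ := exists_coeffs (g := g) (n := n) (s := s) (m := m) (by omega) hm0 hC1
    (fun i hi h hh k hk => hbin i hi h hh k hk.le)
  obtain ⟨k, hk, hne⟩ := exists_ne h hsn hLe hc0 hc
  have hkσ : k ≤ s * m := by
    have : m + s ≤ s * m + 1 := by nlinarith
    omega
  obtain ⟨B, hB⟩ : ∃ B : ℝ, B = ((((s + 1) * m : ℕ) : ℝ) * C) ^ s := ⟨_, rfl⟩
  rw [← hB] at hcB
  have hsize := size_Del h hLe hcB (k := k) (fun i hi h hh => hbin i hi h hh k hkσ)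
  have hdvd := dvd_Del h hLe hc (k := k) (by omega)
  have hlow : (M : ℝ) ^ (s * m - k) ≤ |(Del g n s m L c y Z u k : ℝ)| := by
    have h1 := Int.le_of_dvd (abs_pos.2 hne) ((dvd_abs _ _).2 hdvd)
    exact_mod_cast h1
  have hM1 : (1 : ℝ) ≤ M := by
    have := Nat.pos_of_ne_zero h.M0
    exact_mod_cast this
  have hlM : 0 ≤ Real.log M := Real.log_nonneg hM1
  have hsm : (1 : ℝ) ≤ (((s + 1) * m : ℕ) : ℝ) := by
    have : 1 ≤ (s + 1) * m := by nlinarith
    exact_mod_cast this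
  have hB1 : 1 ≤ B := by
    rw [hB]
    apply one_le_pow₀
    nlinarith
  have hfin := Real.log_le_log (by positivity) (hlow.trans hsize)
  have hQ : (0 : ℝ) < 2 ^ s * (2 * T) ^ L := by positivity
  rw [Real.log_pow, Real.log_mul (by positivity) (by positivity),
    Real.log_mul (by positivity) (by positivity), Real.log_mul (by positivity) (by positivity),
    Real.log_rpow hQ, Real.log_mul (by positivity) (by positivity), Real.log_pow, Real.log_pow,
    hB, Real.log_pow, Real.log_mul (by positivity) (by positivity), hC, Real.log_pow] at hfin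
  obtain ⟨l2T, hl2T⟩ : ∃ l, l = Real.log (2 * T) := ⟨_, rfl⟩
  obtain ⟨l6, hl6⟩ : ∃ l, l = Real.log (6 * (n : ℝ)) := ⟨_, rfl⟩
  obtain ⟨ls, hls⟩ : ∃ l, l = Real.log (((s + 1) * m : ℕ) : ℝ) := ⟨_, rfl⟩
  rw [← hl2T] at hfin ⊢
  rw [← hl6] at hfin ⊢
  rw [← hls] at hfin
  have hls' : ls ≤ ((s : ℝ) + 1) * m := by
    rw [hls]
    refine (log_le_self' (by linarith)).trans ?_
    push_cast
    exact le_rfl
  have hl2T0 : 0 ≤ l2T := by rw [hl2T]; exact Real.log_nonneg (by linarith)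
  have hmR : (0 : ℝ) < m := by exact_mod_cast hm0
  have hnR : (0 : ℝ) < n := by linarith
  -- the term with `L`
  have hA : (n : ℝ)⁻¹ * (s * Real.log 2 + L * l2T) ≤ m + 2 * m * l2T := by
    rw [inv_mul_le_iff₀ hnR]
    have h1 : (s : ℝ) * Real.log 2 ≤ n * m := by
      have h2 : Real.log 2 ≤ 1 := by
        have := Real.log_two_lt_d9
        linarith
      have h3 : (s : ℝ) ≤ n := by exact_mod_cast hsn.le
      have h4 : (1 : ℝ) ≤ m := by exact_mod_cast hm0
      have h5 : 0 ≤ Real.log 2 := Real.log_nonneg (by norm_num)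
      nlinarith
    have h2 : (L : ℝ) * l2T ≤ 2 * n * m * l2T := by
      apply mul_le_mul_of_nonneg_right _ hl2T0
      exact_mod_cast hL2
    calc (s : ℝ) * Real.log 2 + L * l2T ≤ n * m + 2 * n * m * l2T := add_le_add h1 h2
      _ = n * (m + 2 * m * l2T) := by ring
  have hk' : ((s : ℝ) - 2) * m ≤ ((s * m - k : ℕ) : ℝ) := by
    rw [Nat.cast_sub hkσ]
    push_cast
    have h1 : (k : ℝ) + 1 ≤ m + s := by exact_mod_cast hk
    have h2 : (s : ℝ) ≤ m := by exact_mod_cast hms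
    nlinarith
  have h1 : ((s : ℝ) - 2) * m * Real.log M ≤ ((s * m - k : ℕ) : ℝ) * Real.log M :=
    mul_le_mul_of_nonneg_right hk' hlM
  have h2 : ((s : ℝ) - 2) * m * Real.log M ≤
      m * (((s : ℝ) + 1) ^ 2 + s * (s + 1) * l6 + 1 + 2 * l2T) := by
    have h3 : ((s : ℝ) + 1) * ls ≤ (s + 1) * ((s + 1) * m) :=
      mul_le_mul_of_nonneg_left hls' (by positivity)
    push_cast at hfin h1
    nlinarith [hfin, h1, hA, h3]
  have h3 : ((s : ℝ) - 2) * m * Real.log M = m * (((s : ℝ) - 2) * Real.log M) := by ring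
  rw [h3] at h2
  exact le_of_mul_le_mul_left h2 hmR

theorem pow_add_lt {a b : ℤ} (ha : 0 < a) (hb : 0 < b) {g : ℕ} (hg : 2 ≤ g) :
    a ^ g + b ^ g < (a + b) ^ g := by
  obtain ⟨t, rfl⟩ : ∃ t, g = t + 1 := ⟨g - 1, by omega⟩
  have h1 : a ^ t < (a + b) ^ t := pow_lt_pow_left₀ (by linarith) ha.le (by omega)
  have h2 : b ^ t < (a + b) ^ t := pow_lt_pow_left₀ (by linarith) hb.le (by omega)
  rw [pow_succ, pow_succ, pow_succ, mul_add]
  have h3 : a ^ t * a < (a + b) ^ t * a := mul_lt_mul_of_pos_right h1 ha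
  have h4 : b ^ t * b < (a + b) ^ t * b := mul_lt_mul_of_pos_right h2 hb
  linarith

theorem y_ne (h : Dat g n X Z u y M X2 T) : y ≠ u ^ g := by
  intro hy
  have hgo := h.godd
  have hg3 := h.g3
  have heq := h.eq
  have hD := h.D
  obtain ⟨D, hDD⟩ : ∃ D, D = u ^ n := ⟨_, rfl⟩
  have hD0 : 0 < D := by rw [hDD]; exact pow_pos h.u0 _
  rw [hy, ← pow_mul, mul_comm g n, pow_mul, ← hDD] at heq
  rw [← hDD] at hD
  rcases lt_trichotomy X 0 with hX | hX | hX
  · rcases lt_trichotomy Z 0 with hZ | hZ | hZ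
    · have h1 := pow_add_lt hD0 (b := -Z) (by omega) (g := g) (by omega)
      have h2 : D + -Z = -X := by rw [hD]; ring
      rw [h2, hgo.neg_pow, hgo.neg_pow, heq] at h1
      linarith
    · exact h.Z0 hZ
    · have h1 := pow_add_lt hZ (b := -X) (by omega) (g := g) (by omega)
      have h2 : Z + -X = D := by rw [hD]; ring
      rw [h2, hgo.neg_pow, heq] at h1
      linarith
  · exact h.X0 hX
  · have h1 := pow_add_lt hX hD0 (g := g) (by omega)
    rw [← hD, heq] at h1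
    linarith

/-- the inequality for small `g` -/
theorem regime1 (h : Dat g n X Z u y M X2 T) :
    n * Real.log M ≤ (n + 1) * Real.log 2 + g * Real.log (2 * T) := by
  have hT1 := h.T1
  have hn0 : 0 < n := by
    have := h.n3
    omega
  have hg3 := h.g3
  have hu : (0 : ℝ) < u := by exact_mod_cast h.u0
  have hu1 : (1 : ℝ) ≤ u := by exact_mod_cast h.u0
  have hDT : (u : ℝ) ^ n ≤ T := by rw [h.TT]; exact le_max_right _ _
  obtain ⟨δ, hδ, -, hy⟩ := exists_root h (J := 1) (by omega) one_pos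
  have hδ' : δ = 0 := (pow_one δ).symm.trans hδ
  rw [hδ', add_zero] at hy
  have hdvd : (M : ℤ) ∣ y - u ^ g := by
    have h1 : ((y - u ^ g : ℤ) : ZMod (M ^ 1)) = 0 := by
      push_cast
      rw [hy, sub_self]
    rw [ZMod.intCast_zmod_eq_zero_iff_dvd] at h1
    rwa [pow_one] at h1
  have hlow : (M : ℝ) ≤ |(y : ℝ)| + (u : ℝ) ^ g := by
    have h1 := Int.le_of_dvd (abs_pos.2 (sub_ne_zero.2 (y_ne h))) ((dvd_abs _ _).2 hdvd)
    have h2 : (M : ℝ) ≤ |(y : ℝ) - (u : ℝ) ^ g| := by exact_mod_cast h1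
    refine h2.trans ((abs_sub _ _).trans ?_)
    rw [abs_pow, abs_of_pos hu]
  obtain ⟨w, hw⟩ : ∃ w : ℝ, w = max |(y : ℝ)| ((u : ℝ) ^ g) := ⟨_, rfl⟩
  have hw1 : 1 ≤ w := by rw [hw]; exact le_max_of_le_right (one_le_pow₀ hu1)
  have hMw : (M : ℝ) ≤ 2 * w := by
    have h1 : |(y : ℝ)| ≤ w := by rw [hw]; exact le_max_left _ _
    have h2 : (u : ℝ) ^ g ≤ w := by rw [hw]; exact le_max_right _ _
    linarith
  have hwn : w ^ n ≤ 2 * (2 * T) ^ g := by
    rcases max_choice |(y : ℝ)| ((u : ℝ) ^ g) with h1 | h1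
    · rw [hw, h1]
      exact Dat.y_le h
    · rw [hw, h1, ← pow_mul, mul_comm g n, pow_mul]
      have h2 : ((u : ℝ) ^ n) ^ g ≤ (2 * T) ^ g := pow_le_pow_left₀ (by positivity) (by linarith) g
      have h3 : 0 < (2 * T) ^ g := by positivity
      linarith
  have hM0 : (0 : ℝ) < M := by
    have := Nat.pos_of_ne_zero h.M0
    exact_mod_cast this
  have h1 := Real.log_le_log hM0 hMw
  rw [Real.log_mul (by norm_num) (by positivity)] at h1
  have h2 := Real.log_le_log (by positivity) hwn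
  rw [Real.log_pow, Real.log_mul (by norm_num) (by positivity), Real.log_pow] at h2
  have hnR : (0 : ℝ) < n := by exact_mod_cast hn0
  have h3 := mul_le_mul_of_nonneg_left h1 hnR.le
  nlinarith

end Pool.Agent.H79.FC.GP
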