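import Mathlib
import Pool.Agent.H79.FC.Ineq

/-!
# The good part is small
-/

set_option autoImplicit false

namespace Pool.Agent.H79.FC.GP

variable {g n : ℕ} {X Z u y : ℤ} {M : ℕ} {X2 T : ℝ}

theorem half_le_maxTerm {g n : ℕ} {X Z y u : ℤ} (hu : Z = X + u ^ n) (hu0 : 0 < u) :
    (max |(X : ℝ)| ((u : ℝ) ^ n) / 2) ^ g ≤ maxTerm g n X Z y := by
  obtain ⟨T, hT⟩ : ∃ T, T = max |(X : ℝ)| ((u : ℝ) ^ n) := ⟨_, rfl⟩
  rw [← hT]
  have hu' : (0 : ℝ) < u := by exact_mod_cast hu0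
  have hT0 : 0 ≤ T := by rw [hT]; exact le_max_of_le_left (abs_nonneg _)
  rw [maxTerm]
  by_cases hX : T / 2 ≤ |(X : ℝ)|
  · apply le_max_of_le_left
    exact pow_le_pow_left₀ (by positivity) hX g
  · apply le_max_of_le_right
    apply le_max_of_le_left
    apply pow_le_pow_left₀ (by positivity)
    push Not at hX
    have h1 : T = (u : ℝ) ^ n := by
      rcases max_choice |(X : ℝ)| ((u : ℝ) ^ n) with h1 | h1
      · exfalso
        rw [← hT] at h1
        linarith [abs_nonneg (X : ℝ)]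
      · rw [hT, h1]
    have hZR : (Z : ℝ) = X + (u : ℝ) ^ n := by rw [hu]; push_cast; rfl
    rw [hZR, ← h1]
    have h2 := neg_abs_le (X : ℝ)
    refine le_trans ?_ (le_abs_self _)
    linarith

/-- the bound for `T` -/
theorem logT_le {ε : ℝ} (hε : 0 < ε) (hε1 : ε ≤ 1) {s : ℕ} (hs : 2 + 4 / ε ≤ (s : ℝ))
    (h : Dat g n X Z u y M X2 T) (hn : 4 * (s : ℝ) * (s + 1) / ε ≤ n)
    (hM : (T / 2) ^ ε ≤ M) :
    Real.log T ≤ (7 + ((s : ℝ) + 1) ^ 2 + s * (s + 1) + 5 / ε) * Real.log (768 * n) := by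
  have hT1 := h.T1
  have hT0 : 0 < T := by linarith
  have hM1 : (1 : ℝ) ≤ M := by
    have := Nat.pos_of_ne_zero h.M0
    exact_mod_cast this
  have hlM : 0 ≤ Real.log M := Real.log_nonneg hM1
  have hn1 : (3 : ℝ) ≤ n := by exact_mod_cast h.n3
  have hlogM : ε * (Real.log T - Real.log 2) ≤ Real.log M := by
    have h1 := Real.log_le_log (by positivity) hM
    rwa [Real.log_rpow (by positivity), Real.log_div hT0.ne' (by norm_num)] at h1
  have hl2 : 0 < Real.log 2 := Real.log_pos (by norm_num)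
  have hl2' : Real.log 2 ≤ 1 := by
    have := Real.log_two_lt_d9
    linarith
  obtain ⟨Λ, hΛ⟩ : ∃ Λ, Λ = Real.log (768 * n) := ⟨_, rfl⟩
  have hΛ1 : 1 ≤ Λ := by
    rw [hΛ, Real.le_log_iff_exp_le (by positivity)]
    have := Real.exp_one_lt_d9
    nlinarith
  have hΛ6 : Real.log (6 * n) ≤ Λ := by
    rw [hΛ]
    apply Real.log_le_log (by positivity)
    linarith
  obtain ⟨t, ht⟩ : ∃ t, t = Real.log T := ⟨_, rfl⟩
  obtain ⟨l2, hl2e⟩ : ∃ l, l = Real.log 2 := ⟨_, rfl⟩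
  have h2T : Real.log (2 * T) = l2 + t := by rw [Real.log_mul (by norm_num) hT0.ne', ht, hl2e]
  have ht0 : 0 ≤ t := by rw [ht]; exact Real.log_nonneg hT1
  rw [← ht, ← hl2e] at hlogM
  rw [← ht, ← hΛ]
  rw [← hl2e] at hl2 hl2'
  have hs0 : (0 : ℝ) ≤ s := by positivity
  have h4ε : 4 ≤ 4 / ε := by
    rw [le_div_iff₀ hε]
    linarith
  have hs6 : (6 : ℝ) ≤ s := by linarith
  have h5 : 0 < 5 / ε := by positivity
  rcases Nat.lt_or_ge g (s * (s + 1)) with hg | hg
  · have h1 := regime1 h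
    rw [h2T, ← hl2e] at h1
    have hgR : (g : ℝ) ≤ n * ε / 4 := by
      have h2 : (g : ℝ) ≤ s * (s + 1) := by exact_mod_cast hg.le
      rw [div_le_iff₀ hε] at hn
      nlinarith
    have h2 : (g : ℝ) * (l2 + t) ≤ n * ε / 4 * (l2 + t) :=
      mul_le_mul_of_nonneg_right hgR (by positivity)
    have h3 : (n : ℝ) * (ε * (t - l2)) ≤ n * Real.log M :=
      mul_le_mul_of_nonneg_left hlogM (by positivity)
    have h4 : ε * t ≤ 5 * l2 := by
      have h6 : (n : ℝ) * (3 / 4 * ε * t) ≤ n * (13 / 4 * l2) := by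
        have h7 : (n : ℝ) * ε * l2 ≤ n * l2 := by
          have : ε * l2 ≤ l2 := by nlinarith
          nlinarith
        nlinarith
      have h7 := le_of_mul_le_mul_left h6 (by linarith)
      linarith
    have h6 : t ≤ 5 / ε * Λ := by
      rw [div_mul_eq_mul_div, le_div_iff₀ hε]
      nlinarith
    have h7 : 0 ≤ (7 + ((s : ℝ) + 1) ^ 2 + s * (s + 1)) * Λ := by positivity
    have h8 : (7 + ((s : ℝ) + 1) ^ 2 + s * (s + 1) + 5 / ε) * Λ =
        (7 + ((s : ℝ) + 1) ^ 2 + s * (s + 1)) * Λ + 5 / ε * Λ := by ring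
    linarith
  · have hn' : 2 * s * (s + 1) ≤ n := by
      have h1 : 2 * (s : ℝ) * (s + 1) ≤ n := by
        refine le_trans ?_ hn
        rw [le_div_iff₀ hε]
        have h2 : 0 ≤ (s : ℝ) * (s + 1) := by positivity
        nlinarith
      exact_mod_cast h1
    have hs2 : 2 ≤ s := by
      have : (2 : ℝ) ≤ s := by linarith
      exact_mod_cast this
    have h1 := regime2 h hs2 hn' hg
    rw [h2T] at h1
    have h2 : 4 * (t - l2) ≤ ((s : ℝ) - 2) * Real.log M := by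
      have h3 : 4 / ε * Real.log M ≤ ((s : ℝ) - 2) * Real.log M :=
        mul_le_mul_of_nonneg_right (by linarith) hlM
      refine le_trans ?_ h3
      rw [div_mul_eq_mul_div, le_div_iff₀ hε]
      nlinarith
    have h3 : (s : ℝ) * (s + 1) * Real.log (6 * n) ≤ s * (s + 1) * Λ :=
      mul_le_mul_of_nonneg_left hΛ6 (by positivity)
    have h4 : 0 ≤ 5 / ε * Λ := by positivity
    have h6 : ((s : ℝ) + 1) ^ 2 ≤ ((s : ℝ) + 1) ^ 2 * Λ := by
      have : 0 ≤ ((s : ℝ) + 1) ^ 2 := by positivity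
      nlinarith
    have h7 : 0 ≤ (s : ℝ) * (s + 1) * Λ := by positivity
    have h8 : 0 ≤ ((s : ℝ) + 1) ^ 2 * Λ := by positivity
    nlinarith

/-- the good part is small: positive `u` -/
theorem good_pos {ε : ℝ} (hε : 0 < ε) (hε1 : ε ≤ 1) : ∃ n₀ : ℕ, ∀ (g n : ℕ) (X Z y u : ℤ),
    Hyp g n X Z y → Z = X + u ^ n → 0 < u → n₀ ≤ n → 2 ≤ X.natAbs →
    (goodPart n X.natAbs : ℝ) ^ g < (maxTerm g n X Z y) ^ ε := by
  obtain ⟨s, hs⟩ := exists_nat_ge (2 + 4 / ε)
  obtain ⟨K, hK⟩ : ∃ K : ℝ, K = 7 + ((s : ℝ) + 1) ^ 2 + s * (s + 1) + 5 / ε := ⟨_, rfl⟩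
  have hK0 : 0 < K := by rw [hK]; positivity
  obtain ⟨n₁, hn₁⟩ := exists_bound (ε := 1 / K) (by positivity)
  obtain ⟨n₂, hn₂⟩ := exists_nat_ge (4 * (s : ℝ) * (s + 1) / ε)
  refine ⟨max n₁ n₂, ?_⟩
  intro g n X Z y u h hu hu0 hn hX2
  by_contra hcon
  push Not at hcon
  have hdat := h.dat hu hu0
  obtain ⟨T, hT⟩ : ∃ T, T = max |(X : ℝ)| ((u : ℝ) ^ n) := ⟨_, rfl⟩
  have hhalf := half_le_maxTerm (g := g) (y := y) hu hu0
  rw [← hT] at hdat hhalf
  have hT1 := hdat.T1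
  have hT0 : 0 < T := by linarith
  have hg3 := hdat.g3
  have hn3 := h.n3
  have hn0 : (0 : ℝ) < n := by
    have : 0 < n := by omega
    exact_mod_cast this
  obtain ⟨M, hM⟩ : ∃ M, M = goodPart n X.natAbs := ⟨_, rfl⟩
  rw [← hM] at hcon hdat
  -- the good part is large
  have hMT : (T / 2) ^ ε ≤ M := by
    have h1 : ((T / 2) ^ ε) ^ g ≤ (M : ℝ) ^ g := by
      refine le_trans ?_ hcon
      refine le_trans (le_of_eq ?_) (Real.rpow_le_rpow (by positivity) hhalf hε.le)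
      rw [← Real.rpow_natCast, ← Real.rpow_natCast, ← Real.rpow_mul (by positivity),
        ← Real.rpow_mul (by positivity), mul_comm (g : ℝ)]
    exact le_of_pow_le_pow_left₀ (by omega : g ≠ 0) (by positivity) h1
  have hM2 : 2 ≤ M := by
    by_contra hc
    have h1 : M ≤ 1 := by omega
    have h2 : (M : ℝ) ^ g ≤ 1 := pow_le_one₀ (by positivity) (by exact_mod_cast h1)
    have h3 : 1 < maxTerm g n X Z y := by
      rw [maxTerm]
      apply lt_max_of_lt_left
      apply one_lt_pow₀ _ (by omega)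
      have h4 : |(X : ℝ)| = ((X.natAbs : ℕ) : ℝ) := by
        rw [Nat.cast_natAbs]
        push_cast
        rfl
      rw [h4]
      exact_mod_cast hX2
    have h4 := Real.one_lt_rpow h3 hε
    linarith
  have hn₂' : 4 * (s : ℝ) * (s + 1) / ε ≤ n := hn₂.trans (by
    exact_mod_cast (le_max_right n₁ n₂).trans hn)
  have hlogT := logT_le hε hε1 hs hdat hn₂' hMT
  rw [← hK] at hlogT
  have hlogT' : Real.log T ≤ Real.log (768 * n) / (1 / K) := by
    rw [one_div, div_inv_eq_mul, mul_comm]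
    exact hlogT
  obtain ⟨hA, hB⟩ := hn₁ n ((le_max_left _ _).trans hn)
  have hl2 : 0 < Real.log 2 := Real.log_pos (by norm_num)
  have hu1 : u = 1 := by
    by_contra hne
    have hu2 : 2 ≤ u := by omega
    have h1 : (2 : ℝ) ^ n ≤ T := by
      rw [hT]
      refine le_max_of_le_right (pow_le_pow_left₀ (by norm_num) ?_ n)
      exact_mod_cast hu2
    have h2 := Real.log_le_log (by positivity) h1
    rw [Real.log_pow] at h2
    have h3 : Real.log (768 * n) / (1 / K) < n * Real.log 2 := by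
      rw [div_lt_iff₀ (by positivity)]
      linarith
    linarith
  rw [hu1] at hdat hT hu
  have hXT : T = |(X : ℝ)| := by
    rw [hT]
    apply max_eq_left
    rw [Int.cast_one, one_pow]
    have := Int.one_le_abs h.X0
    exact_mod_cast this
  have hXabs : |(X : ℝ)| = ((X.natAbs : ℕ) : ℝ) := by
    rw [Nat.cast_natAbs]
    push_cast
    rfl
  have hl := Nat.lt_pow_succ_log_self (b := 2) (by norm_num) (4 * X.natAbs)
  have hmain := hdat.baker hM2 hX2 hl
  have h1 : (n : ℝ) < 1200000 * ((Nat.log 2 n : ℝ) + 1) ^ 2 *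
      ((Nat.log 2 (4 * X.natAbs) : ℝ) + 1) ^ 3 := by exact_mod_cast hmain
  have h2 : (Nat.log 2 n : ℝ) ≤ Real.log n / Real.log 2 := by
    rw [le_div_iff₀ hl2, ← Real.log_pow]
    apply Real.log_le_log (by positivity)
    exact_mod_cast Nat.pow_log_le_self 2 (by omega : n ≠ 0)
  have h3 : (Nat.log 2 (4 * X.natAbs) : ℝ) ≤
      (Real.log 4 + Real.log (768 * n) / (1 / K)) / Real.log 2 := by
    rw [le_div_iff₀ hl2, ← Real.log_pow]
    have h4 : Real.log ((2 : ℝ) ^ Nat.log 2 (4 * X.natAbs)) ≤ Real.log (4 * T) := by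
      apply Real.log_le_log (by positivity)
      rw [hXT, hXabs]
      exact_mod_cast Nat.pow_log_le_self 2 (by omega : 4 * X.natAbs ≠ 0)
    rw [Real.log_mul (by norm_num) hT0.ne'] at h4
    linarith
  have h4 : 1200000 * ((Nat.log 2 n : ℝ) + 1) ^ 2 *
      ((Nat.log 2 (4 * X.natAbs) : ℝ) + 1) ^ 3 ≤
      1200000 * (Real.log n / Real.log 2 + 1) ^ 2 *
      ((Real.log 4 + Real.log (768 * n) / (1 / K)) / Real.log 2 + 1) ^ 3 := by
    apply mul_le_mul
    · apply mul_le_mul_of_nonneg_left _ (by norm_num)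
      exact pow_le_pow_left₀ (by positivity) (by linarith) 2
    · exact pow_le_pow_left₀ (by positivity) (by linarith) 3
    · positivity
    · positivity
  linarith

/-- **The good part is small.** -/
theorem good {ε : ℝ} (hε : 0 < ε) : ∃ n₀ : ℕ, ∀ (g n : ℕ) (X Z y : ℤ),
    Hyp g n X Z y → n₀ ≤ n → 2 ≤ X.natAbs →
    (goodPart n X.natAbs : ℝ) ^ g < (maxTerm g n X Z y) ^ ε := by
  obtain ⟨n₀, hn₀⟩ := good_pos (ε := min ε 1) (by positivity) (min_le_right _ _)
  refine ⟨n₀, ?_⟩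
  intro g n X Z y h hn hX2
  have hle : (maxTerm g n X Z y) ^ (min ε 1) ≤ (maxTerm g n X Z y) ^ ε :=
    Real.rpow_le_rpow_of_exponent_le h.one_le_maxTerm (min_le_left _ _)
  refine lt_of_lt_of_le ?_ hle
  obtain ⟨u, hu⟩ := exists_u h.gp h.hodd h.eq h.cop h.gy
  have hn0 : n ≠ 0 := by
    have := h.n3
    omega
  rcases lt_trichotomy u 0 with hu0 | hu0 | hu0
  · have h1 := hn₀ g n (-X) (-Z) (-y) (-u) h.neg (by rw [h.hodd.neg_pow, hu]; ring) (by omega) hn
      (by rw [Int.natAbs_neg]; exact hX2)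
    rw [Int.natAbs_neg] at h1
    refine h1.trans_le (le_of_eq ?_)
    rw [maxTerm, maxTerm]
    push_cast
    rw [abs_neg, abs_neg, abs_neg]
  · exfalso
    rw [hu0, zero_pow hn0, add_zero] at hu
    have h1 := h.eq
    rw [hu] at h1
    have h2 : y ^ n = 0 := by linarith
    exact h.y0 (pow_eq_zero_iff hn0 |>.1 h2)
  · exact hn₀ g n X Z y u h hu hu0 hn hX2

end Pool.Agent.H79.FC.GP
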