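import Mathlib
import Pool.Agent.H79.FC.Bnd

/-!
# No solutions with large `n` and only good primes
-/

set_option autoImplicit false

namespace Pool.Agent.H79.FC

theorem num_aux (a : ℕ) (ha : 53 ≤ a) : 1200000 * (a + 1) ^ 2 * (2 * a + 26) ^ 3 < 2 ^ a := by
  induction a, ha using Nat.le_induction with
  | base => norm_num
  | succ a ha ih =>
    have h1 : (a + 1 + 1) ^ 2 * (2 * (a + 1) + 26) ^ 3 ≤ 2 * ((a + 1) ^ 2 * (2 * a + 26) ^ 3) := by
      obtain ⟨b, rfl⟩ := Nat.exists_eq_add_of_le ha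
      have e1 : (53 + b + 1 + 1) ^ 2 * 10 ≤ (53 + b + 1) ^ 2 * 11 := by nlinarith
      have e2 : (2 * (53 + b + 1) + 26) ^ 3 * 10 ≤ (2 * (53 + b) + 26) ^ 3 * 11 := by
        have : 2 * (53 + b + 1) + 26 = 2 * b + 134 := by ring
        rw [this]
        have : 2 * (53 + b) + 26 = 2 * b + 132 := by ring
        rw [this]
        have h2 : (2 * b + 134) ^ 3 * 10 + (80 * b ^ 3 - 80 * b ^ 3) ≤ (2 * b + 132) ^ 3 * 11 := by
          rw [Nat.sub_self, add_zero]
          ring_nf
          nlinarith [Nat.zero_le (b ^ 3), Nat.zero_le (b ^ 2), Nat.zero_le b]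
        simpa using h2
      have h3 := Nat.mul_le_mul e1 e2
      nlinarith [Nat.zero_le ((53 + b + 1) ^ 2 * (2 * (53 + b) + 26) ^ 3)]
    calc 1200000 * (a + 1 + 1) ^ 2 * (2 * (a + 1) + 26) ^ 3
        = 1200000 * ((a + 1 + 1) ^ 2 * (2 * (a + 1) + 26) ^ 3) := by ring
      _ ≤ 1200000 * (2 * ((a + 1) ^ 2 * (2 * a + 26) ^ 3)) := Nat.mul_le_mul_left _ h1
      _ = 2 * (1200000 * (a + 1) ^ 2 * (2 * a + 26) ^ 3) := by ring
      _ < 2 * 2 ^ a := by omega
      _ = 2 ^ (a + 1) := by rw [pow_succ]; ring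

theorem none_pos {g n : ℕ} {X Z y u : ℤ} (h : Hyp g n X Z y) (hu : Z = X + u ^ n) (hu0 : 0 < u)
    (hn : 10 ^ 16 ≤ n) (hX : 2 ≤ X.natAbs)
    (hgood : ∀ p : ℕ, p.Prime → p ∣ X.natAbs → Nat.Coprime n (p * (p - 1))) : False := by
  have hbad : badPart n X.natAbs = 1 := badPart_eq_one hgood
  have hdat := h.dat hu hu0
  have hu1 : u = 1 := hdat.u_one (by rw [hbad, Nat.cast_one]) (by omega)
  rw [hu1] at hu hdat
  obtain ⟨T, hT⟩ : ∃ T, T = max |(X : ℝ)| (((1 : ℤ) : ℝ) ^ n) := ⟨_, rfl⟩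
  rw [← hT] at hdat
  have hXabs : |(X : ℝ)| = ((X.natAbs : ℕ) : ℝ) := by
    rw [Nat.cast_natAbs]
    push_cast
    rfl
  have hXT : T = |(X : ℝ)| := by
    rw [hT]
    apply max_eq_left
    rw [Int.cast_one, one_pow]
    have := Int.one_le_abs h.X0
    exact_mod_cast this
  have hT1 := hdat.T1
  have hT0 : 0 < T := by linarith
  have hTb := hdat.T_bound (ε := expo n) (by
    rw [hbad, sub_self, Real.rpow_zero]
    norm_num)
  have hM : goodPart n X.natAbs = X.natAbs := by
    have := good_mul_bad n (x := X.natAbs) (by omega)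
    rwa [hbad, mul_one] at this
  have hn0 : n ≠ 0 := by omega
  -- the logarithm of `n`
  obtain ⟨a, ha⟩ : ∃ a, a = Nat.log 2 n := ⟨_, rfl⟩
  have ha1 : 2 ^ a ≤ n := by rw [ha]; exact Nat.pow_log_le_self 2 hn0
  have ha2 : n < 2 ^ (a + 1) := by rw [ha]; exact Nat.lt_pow_succ_log_self (by norm_num) n
  have ha53 : 53 ≤ a := by
    by_contra hc
    have h1 : a + 1 ≤ 53 := by omega
    have h2 : n < 2 ^ 53 := ha2.trans_le (Nat.pow_le_pow_right (by norm_num) h1)
    omega
  have hl2 : 0 < Real.log 2 := Real.log_pos (by norm_num)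
  have haR : (53 : ℝ) ≤ a := by exact_mod_cast ha53
  have hnR : (10 : ℝ) ^ 16 ≤ n := by exact_mod_cast hn
  have hnR0 : (0 : ℝ) < n := by linarith [show (0 : ℝ) < 10 ^ 16 by norm_num]
  have hlog : Real.log (768 * n) ≤ (a + 11) * Real.log 2 := by
    have h1 : 768 * (n : ℝ) ≤ 2 ^ (a + 11) := by
      have h2 : (n : ℝ) ≤ 2 ^ (a + 1) := by exact_mod_cast ha2.le
      have e : (2 : ℝ) ^ (a + 11) = 2 ^ (a + 1) * 1024 := by
        rw [show a + 11 = (a + 1) + 10 by ring, pow_add]
        norm_num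
      rw [e]
      have : (0 : ℝ) < 2 ^ (a + 1) := by positivity
      nlinarith
    have h2 := Real.log_le_log (by positivity) h1
    rw [Real.log_pow] at h2
    push_cast at h2
    exact h2
  have hexpo : 1 / 2 - 1 / (n : ℝ) = expo n := by
    rw [expo, if_neg (by omega)]
  -- the bound for `T`
  have hlogT : Real.log T ≤ (2 * a + 23) * Real.log 2 := by
    have hT3 : 0 ≤ Real.log T := Real.log_nonneg hT1
    have hsmall : 1 / (n : ℝ) * (2 * a + 23) ≤ 1 / 2 := by
      rw [div_mul_eq_mul_div, one_mul, div_le_iff₀ hnR0]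
      have h1 : 2 * (2 * a + 23) ≤ 2 ^ a := by
        clear hTb hdat ha haR ha2 ha1 hlog
        induction a, ha53 using Nat.le_induction with
        | base => norm_num
        | succ a ha ih =>
          rw [pow_succ]
          omega
      have h2 : (2 : ℝ) * (2 * a + 23) ≤ n := by
        have h3 : 2 * (2 * a + 23) ≤ n := h1.trans ha1
        exact_mod_cast h3
      linarith
    by_contra hc
    push Not at hc
    have h1 : expo n * ((2 * a + 23) * Real.log 2) < expo n * Real.log T := by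
      apply mul_lt_mul_of_pos_left hc
      rw [← hexpo]
      have : 1 / (n : ℝ) ≤ 1 / 10 ^ 16 := one_div_le_one_div_of_le (by norm_num) hnR
      norm_num at this ⊢
      linarith
    have h2 : expo n * ((2 * a + 23) * Real.log 2) < (a + 11) * Real.log 2 :=
      h1.trans_le (hTb.trans hlog)
    rw [← hexpo] at h2
    have h3 : (1 / 2 - 1 / (n : ℝ)) * (2 * a + 23) * Real.log 2 < (a + 11) * Real.log 2 := by
      linarith
    have h4 := lt_of_mul_lt_mul_right h3 hl2.le
    linarith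
  have hlpow : 4 * X.natAbs < 2 ^ (2 * a + 25 + 1) := by
    have h1 : (4 : ℝ) * T ≤ 2 ^ (2 * a + 25) := by
      rw [← Real.log_le_log_iff (by positivity) (by positivity), Real.log_mul (by norm_num) hT0.ne',
        Real.log_pow]
      have h4 : Real.log 4 = 2 * Real.log 2 := by
        rw [show (4 : ℝ) = 2 ^ 2 by norm_num, Real.log_pow]
        norm_num
      rw [h4]
      push_cast
      linarith
    rw [hXT, hXabs] at h1
    have h2 : 4 * X.natAbs ≤ 2 ^ (2 * a + 25) := by exact_mod_cast h1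
    calc 4 * X.natAbs ≤ 2 ^ (2 * a + 25) := h2
      _ < 2 ^ (2 * a + 25 + 1) := Nat.pow_lt_pow_right (by norm_num) (by omega)
  have h2 := hdat.baker (by rw [hM]; exact hX) hX hlpow
  have h3 : n < 1200000 * (a + 1) ^ 2 * (2 * a + 26) ^ 3 := by
    rw [← ha] at h2
    exact h2
  have h4 := num_aux a ha53
  omega

end Pool.Agent.H79.FC
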