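import Mathlib
import Pool.Agent.H79.FC.None

/-!
# From solutions of the Fermat-Catalan equation to the data
-/

set_option autoImplicit false

namespace Pool.Agent.H79.FC

theorem perm2 {α : Type} {x y A B : α} (h : ({x, y} : Multiset α) = {A, B}) :
    (x = A ∧ y = B) ∨ (x = B ∧ y = A) := by
  simp only [Multiset.insert_eq_cons, Multiset.cons_eq_cons, Multiset.singleton_inj] at h
  rcases h with ⟨h1, h2⟩ | ⟨h1, cs, h2, h3⟩
  · exact Or.inl ⟨h1, h2⟩
  · right
    have hc : Multiset.card cs = 0 := by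
      have := congrArg Multiset.card h2
      simp only [Multiset.card_singleton, Multiset.card_cons] at this
      omega
    rw [Multiset.card_eq_zero] at hc
    subst hc
    simp only [Multiset.cons_zero, Multiset.singleton_inj] at h2 h3
    exact ⟨h3.symm, h2⟩

theorem perm3 {α : Type} {x y z A B C : α} (h : ({x, y, z} : Multiset α) = {A, B, C}) :
    (x = A ∧ y = B ∧ z = C) ∨ (x = A ∧ y = C ∧ z = B) ∨ (x = B ∧ y = A ∧ z = C) ∨
    (x = B ∧ y = C ∧ z = A) ∨ (x = C ∧ y = A ∧ z = B) ∨ (x = C ∧ y = B ∧ z = A) := by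
  have hx : x ∈ ({A, B, C} : Multiset α) := by rw [← h]; simp
  simp only [Multiset.insert_eq_cons, Multiset.mem_cons, Multiset.mem_singleton] at hx
  rcases hx with rfl | rfl | rfl
  · have h1 : ({y, z} : Multiset α) = {B, C} := (Multiset.cons_inj_right x).1 h
    rcases perm2 h1 with ⟨h2, h3⟩ | ⟨h2, h3⟩
    · exact Or.inl ⟨rfl, h2, h3⟩
    · exact Or.inr (Or.inl ⟨rfl, h2, h3⟩)
  · have h0 : ({A, x, C} : Multiset α) = {x, A, C} := Multiset.cons_swap _ _ _
    have h1 : ({y, z} : Multiset α) = {A, C} := (Multiset.cons_inj_right x).1 (h.trans h0)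
    rcases perm2 h1 with ⟨h2, h3⟩ | ⟨h2, h3⟩
    · exact Or.inr (Or.inr (Or.inl ⟨rfl, h2, h3⟩))
    · exact Or.inr (Or.inr (Or.inr (Or.inl ⟨rfl, h2, h3⟩)))
  · have h0 : ({A, B, x} : Multiset α) = {x, A, B} := by
      have e1 : ({A, B, x} : Multiset α) = {A, x, B} :=
        congrArg (Multiset.cons A) (Multiset.cons_swap B x 0)
      exact e1.trans (Multiset.cons_swap _ _ _)
    have h1 : ({y, z} : Multiset α) = {A, B} := (Multiset.cons_inj_right x).1 (h.trans h0)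
    rcases perm2 h1 with ⟨h2, h3⟩ | ⟨h2, h3⟩
    · exact Or.inr (Or.inr (Or.inr (Or.inr (Or.inl ⟨rfl, h2, h3⟩))))
    · exact Or.inr (Or.inr (Or.inr (Or.inr (Or.inr ⟨rfl, h2, h3⟩))))

/-- the sum or difference of `g`-th powers -/
theorem hyp_of_roles {a b c m n k x e y f z h g N : ℕ} (hs : IsSolution a b c m n k)
    (hr : Roles a b c m n k x e y f z h g N) :
    0 < x ∧ 0 < y ∧ 0 < z ∧ Nat.Coprime x y ∧ Nat.Coprime x z ∧ Nat.Coprime z y ∧
    0 < e ∧ 0 < f ∧ 0 < h ∧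
    ({x ^ e, y ^ f, z ^ h} : Multiset ℕ) = {a ^ m, b ^ n, c ^ k} ∧
    (x ^ e ≤ c ^ k ∧ y ^ f ≤ c ^ k ∧ z ^ h ≤ c ^ k) ∧
    ∃ s t : ℤ, (s = 1 ∨ s = -1) ∧ (t = 1 ∨ t = -1) ∧
      Hyp g N (s * (x ^ (e / g) : ℕ)) (t * (z ^ (h / g) : ℕ)) ((y ^ (f / N) : ℕ) : ℤ) ∧
      (y = c → s = -1 ∧ t = 1) := by
  obtain ⟨ha, hb, hc, hm, hn, hk, hab, hac, hbc, -, heq⟩ := hs
  obtain ⟨hperm, hg, hg2, hge, hgh, hgy, hNf, hNo, hN3, hgN⟩ := hr
  have hgo : Odd g := hg.odd_of_ne_two hg2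
  have hc1 : c ≠ 1 := by
    rintro rfl
    rw [one_pow] at heq
    have h1 : 0 < a ^ m := Nat.pow_pos ha
    have h2 : 0 < b ^ n := Nat.pow_pos hb
    omega
  have hca : c ≠ a := by
    rintro rfl
    exact hc1 ((Nat.coprime_self _).1 hac)
  have hcb : c ≠ b := by
    rintro rfl
    exact hc1 ((Nat.coprime_self _).1 hbc)
  have hpowA : 0 < a ^ m := Nat.pow_pos ha
  have hpowB : 0 < b ^ n := Nat.pow_pos hb
  -- the general construction
  have main : ∀ s t : ℤ, (s = 1 ∨ s = -1) → (t = 1 ∨ t = -1) → 0 < x → 0 < y → 0 < z →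
      Nat.Coprime x z → t * (z ^ h : ℕ) = s * (x ^ e : ℕ) + (y ^ f : ℕ) →
      Hyp g N (s * (x ^ (e / g) : ℕ)) (t * (z ^ (h / g) : ℕ)) ((y ^ (f / N) : ℕ) : ℤ) := by
    intro s t hs ht hx hy hz hxz hE
    have hsg : s ^ g = s := by
      rcases hs with rfl | rfl
      · exact one_pow g
      · rw [hgo.neg_pow, one_pow]
    have htg : t ^ g = t := by
      rcases ht with rfl | rfl
      · exact one_pow g
      · rw [hgo.neg_pow, one_pow]
    have hs0 : s ≠ 0 := by rcases hs with rfl | rfl <;> norm_num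
    have ht0 : t ≠ 0 := by rcases ht with rfl | rfl <;> norm_num
    have hsu : IsUnit s := by
      rcases hs with rfl | rfl
      · exact isUnit_one
      · exact isUnit_one.neg
    have htu : IsUnit t := by
      rcases ht with rfl | rfl
      · exact isUnit_one
      · exact isUnit_one.neg
    exact
    { gp := hg
      g2 := hg2
      hodd := hNo
      n3 := hN3
      gn := hgN
      eq := by
        rw [mul_pow, mul_pow, hsg, htg, ← Nat.cast_pow, ← Nat.cast_pow, ← Nat.cast_pow, ← pow_mul,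
          ← pow_mul, ← pow_mul, Nat.div_mul_cancel hge, Nat.div_mul_cancel hgh,
          Nat.div_mul_cancel hNf]
        exact hE
      X0 := mul_ne_zero hs0 (by positivity)
      Z0 := mul_ne_zero ht0 (by positivity)
      y0 := by positivity
      cop := by
        have h1 : IsCoprime ((x ^ (e / g) : ℕ) : ℤ) ((z ^ (h / g) : ℕ) : ℤ) :=
          Nat.isCoprime_iff_coprime.2 (Nat.Coprime.pow _ _ hxz)
        exact (isCoprime_mul_unit_left_left hsu _ _).2 ((isCoprime_mul_unit_left_right htu _ _).2 h1)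
      gy := by
        intro h1
        have h2 : g ∣ y ^ (f / N) := by exact_mod_cast h1
        exact hgy (hg.dvd_of_dvd_pow h2) }
  rcases perm3 hperm with ⟨h1, h2, h3⟩ | ⟨h1, h2, h3⟩ | ⟨h1, h2, h3⟩ | ⟨h1, h2, h3⟩ |
      ⟨h1, h2, h3⟩ | ⟨h1, h2, h3⟩ <;>
    obtain ⟨rfl, rfl⟩ := Prod.mk.inj h1 <;> obtain ⟨rfl, rfl⟩ := Prod.mk.inj h2 <;>
    obtain ⟨rfl, rfl⟩ := Prod.mk.inj h3
  · -- `x = a`, `y = b`, `z = c`
    refine ⟨ha, hb, hc, hab, hac, hbc.symm, hm, hn, hk, rfl, ⟨by omega, by omega, le_rfl⟩, 1, 1,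
      Or.inl rfl, Or.inl rfl, main 1 1 (Or.inl rfl) (Or.inl rfl) ha hb hc hac ?_, ?_⟩
    · rw [← heq]
      push_cast
      ring
    · intro h4
      exact absurd h4.symm hcb
  · -- `x = a`, `y = c`, `z = b`
    refine ⟨ha, hc, hb, hac, hab, hbc, hm, hk, hn, ?_, ⟨by omega, le_rfl, by omega⟩, -1, 1,
      Or.inr rfl, Or.inl rfl, main (-1) 1 (Or.inr rfl) (Or.inl rfl) ha hc hb hab ?_,
      fun _ => ⟨rfl, rfl⟩⟩
    · exact congrArg (Multiset.cons _) (Multiset.cons_swap _ _ 0)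
    · rw [← heq]
      push_cast
      ring
  · -- `x = b`, `y = a`, `z = c`
    refine ⟨hb, ha, hc, hab.symm, hbc, hac.symm, hn, hm, hk, ?_, ⟨by omega, by omega, le_rfl⟩, 1, 1,
      Or.inl rfl, Or.inl rfl, main 1 1 (Or.inl rfl) (Or.inl rfl) hb ha hc hbc ?_, ?_⟩
    · exact Multiset.cons_swap _ _ _
    · rw [← heq]
      push_cast
      ring
    · intro h4
      exact absurd h4.symm hca
  · -- `x = b`, `y = c`, `z = a`
    refine ⟨hb, hc, ha, hbc, hab.symm, hac, hn, hk, hm, ?_, ⟨by omega, le_rfl, by omega⟩, -1, 1,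
      Or.inr rfl, Or.inl rfl, main (-1) 1 (Or.inr rfl) (Or.inl rfl) hb hc ha hab.symm ?_,
      fun _ => ⟨rfl, rfl⟩⟩
    · have e1 := congrArg (Multiset.cons (x ^ e)) (Multiset.cons_swap (y ^ f) (z ^ h) 0)
      exact e1.trans (Multiset.cons_swap _ _ _)
    · rw [← heq]
      push_cast
      ring
  · -- `x = c`, `y = a`, `z = b`
    refine ⟨hc, ha, hb, hac.symm, hbc.symm, hab.symm, hk, hm, hn, ?_,
      ⟨le_rfl, by omega, by omega⟩, -1, -1,
      Or.inr rfl, Or.inr rfl, main (-1) (-1) (Or.inr rfl) (Or.inr rfl) hc ha hb hbc.symm ?_, ?_⟩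
    · have e1 := Multiset.cons_swap (x ^ e) (y ^ f) {z ^ h}
      exact e1.trans (congrArg (Multiset.cons _) (Multiset.cons_swap _ _ 0))
    · rw [← heq]
      push_cast
      ring
    · intro h4
      exact absurd h4.symm hca
  · -- `x = c`, `y = b`, `z = a`
    refine ⟨hc, hb, ha, hbc.symm, hac.symm, hab, hk, hn, hm, ?_,
      ⟨le_rfl, by omega, by omega⟩, -1, -1,
      Or.inr rfl, Or.inr rfl, main (-1) (-1) (Or.inr rfl) (Or.inr rfl) hc hb ha hac.symm ?_, ?_⟩
    · have e1 := Multiset.cons_swap (x ^ e) (y ^ f) {z ^ h}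
      have e2 := congrArg (Multiset.cons (y ^ f)) (Multiset.cons_swap (x ^ e) (z ^ h) 0)
      exact e1.trans (e2.trans (Multiset.cons_swap _ _ _))
    · rw [← heq]
      push_cast
      ring
    · intro h4
      exact absurd h4.symm hcb

end Pool.Agent.H79.FC
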